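import Pool.Agent.SemiInf.Defs

namespace SemiInf

namespace Pres

variable {G : Type*} [Group G] (P : Pres G)

@[simp] theorem val_nil : P.val [] = 1 := by
  simp [val]

@[simp] theorem val_append (a b : P.Word) : P.val (a ++ b) = P.val a * P.val b := by
  simp only [val, ← FreeGroup.mul_mk, map_mul]

theorem val_cons (x : Fin P.n × Bool) (b : P.Word) : P.val (x :: b) = P.val [x] * P.val b := by
  rw [← List.singleton_append, val_append]

/-- The inverse word. -/
def inv (w : P.Word) : P.Word := FreeGroup.invRev w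

@[simp] theorem inv_inv (w : P.Word) : P.inv (P.inv w) = w := FreeGroup.invRev_invRev

@[simp] theorem inv_nil : P.inv [] = [] := rfl

@[simp] theorem val_inv (w : P.Word) : P.val (P.inv w) = (P.val w)⁻¹ := by
  simp only [val, inv, ← FreeGroup.inv_mk, map_inv]

theorem inv_append (a b : P.Word) : P.inv (a ++ b) = P.inv b ++ P.inv a := by
  simp [inv, FreeGroup.invRev]

theorem inv_singleton (x : Fin P.n × Bool) : P.inv [x] = [(x.1, !x.2)] := rfl

theorem val_pair (x : Fin P.n × Bool) : P.val [x, (x.1, !x.2)] = 1 := by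
  have : ([x, (x.1, !x.2)] : P.Word) = [x] ++ P.inv [x] := rfl
  rw [this, val_append, val_inv, mul_inv_cancel]

theorem val_rel {r : P.Word} (hr : r ∈ P.rels) : P.val r = 1 := P.holds r hr

theorem exists_word (g : G) : ∃ w : P.Word, P.val w = g := by
  obtain ⟨x, hx⟩ := P.surj g
  refine ⟨x.toWord, ?_⟩
  rw [val, FreeGroup.mk_toWord, hx]

/-- A chosen word for a group element. -/
noncomputable def wd (g : G) : P.Word := (P.exists_word g).choose

@[simp] theorem val_wd (g : G) : P.val (P.wd g) = g := (P.exists_word g).choose_spec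

variable {P}

/-! ### Paths outside a set -/

theorem off_nil {C : Set G} {g : G} : P.Off C g [] ↔ g ∉ C := by
  constructor
  · intro h
    simpa using h [] (List.prefix_refl _)
  · intro h u hu
    rw [List.prefix_nil.mp hu]
    simpa using h

theorem Off.start {C : Set G} {g : G} {w : P.Word} (h : P.Off C g w) : g ∉ C := by
  simpa using h [] (List.nil_prefix)

theorem Off.finish {C : Set G} {g : G} {w : P.Word} (h : P.Off C g w) : g * P.val w ∉ C :=
  h w (List.prefix_refl _)

theorem off_append {C : Set G} {g : G} {p q : P.Word} :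
    P.Off C g (p ++ q) ↔ P.Off C g p ∧ P.Off C (g * P.val p) q := by
  constructor
  · intro h
    refine ⟨fun u hu => h u (hu.trans (List.prefix_append _ _)), fun u hu => ?_⟩
    have := h (p ++ u) ((List.prefix_append_right_inj p).mpr hu)
    rwa [val_append, ← mul_assoc] at this
  · rintro ⟨h1, h2⟩ u hu
    rcases le_total u.length p.length with h | h
    · exact h1 u (List.prefix_of_prefix_length_le hu (List.prefix_append _ _) h)
    · obtain ⟨t, rfl⟩ := List.prefix_of_prefix_length_le (List.prefix_append _ _) hu h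
      rw [val_append, ← mul_assoc]
      exact h2 t ((List.prefix_append_right_inj p).mp hu)

theorem Off.mono {C D : Set G} (hCD : C ⊆ D) {g : G} {w : P.Word} (h : P.Off D g w) :
    P.Off C g w := fun u hu hC => h u hu (hCD hC)

theorem off_singleton {C : Set G} {g : G} {x : Fin P.n × Bool} :
    P.Off C g [x] ↔ g ∉ C ∧ g * P.val [x] ∉ C := by
  constructor
  · intro h
    exact ⟨h.start, h.finish⟩
  · rintro ⟨h1, h2⟩ u hu
    rcases List.prefix_cons_iff.mp hu with rfl | ⟨t, rfl, ht⟩
    · simpa using h1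
    · rw [List.prefix_nil.mp ht]
      exact h2

theorem off_cons {C : Set G} {g : G} {x : Fin P.n × Bool} {w : P.Word} :
    P.Off C g (x :: w) ↔ g ∉ C ∧ P.Off C (g * P.val [x]) w := by
  rw [← List.singleton_append, off_append, off_singleton]
  constructor
  · rintro ⟨⟨h1, _⟩, h3⟩
    exact ⟨h1, h3⟩
  · rintro ⟨h1, h2⟩
    exact ⟨⟨h1, h2.start⟩, h2⟩

theorem Off.inv {C : Set G} {g : G} {w : P.Word} (h : P.Off C g w) :
    P.Off C (g * P.val w) (P.inv w) := by
  induction w generalizing g with
  | nil => simpa using h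
  | cons x w ih =>
    rw [off_cons] at h
    have h2 := ih h.2
    have e1 : (x :: w : P.Word) = [x] ++ w := rfl
    rw [e1, inv_append, val_append, off_append, ← mul_assoc]
    refine ⟨h2, ?_⟩
    rw [val_inv, mul_assoc (g * P.val [x]), mul_inv_cancel, mul_one]
    rw [inv_singleton, off_singleton]
    refine ⟨h.2.start, ?_⟩
    rw [← inv_singleton, val_inv, mul_assoc, mul_inv_cancel, mul_one]
    exact h.1

/-- The finite set of the values of the prefixes of a word. -/
def pre (w : P.Word) : Set G := {t | ∃ u : P.Word, u <+: w ∧ P.val u = t}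

theorem pre_finite (w : P.Word) : (pre (P := P) w).Finite := by
  have h : ({u : P.Word | u <+: w}).Finite := by
    have : {u : P.Word | u <+: w} ⊆ (w.inits.toFinset : Set P.Word) := by
      intro u hu
      simpa using hu
    exact (Finset.finite_toSet _).subset this
  refine (h.image P.val).subset ?_
  rintro t ⟨u, hu, rfl⟩
  exact ⟨u, hu, rfl⟩

theorem one_mem_pre (w : P.Word) : (1 : G) ∈ pre (P := P) w :=
  ⟨[], List.nil_prefix, P.val_nil⟩

theorem off_iff_pre {C : Set G} {g : G} {w : P.Word} :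
    P.Off C g w ↔ ∀ t ∈ pre (P := P) w, g * t ∉ C := by
  constructor
  · rintro h t ⟨u, hu, rfl⟩
    exact h u hu
  · intro h u hu
    exact h _ ⟨u, hu, rfl⟩

/-! ### Homotopies -/

theorem Htpy.val_eq {C : Set G} {g : G} {w w' : P.Word} (h : P.Htpy C g w w') :
    P.val w = P.val w' := by
  induction h with
  | refl w _ => rfl
  | symm w w' _ ih => exact ih.symm
  | trans w w' w'' _ _ ih1 ih2 => exact ih1.trans ih2
  | backtrack p q x _ => rw [val_append, val_append, val_pair, mul_one, val_append]
  | cell p q r hr _ => rw [val_append, val_append, val_rel P hr, mul_one, val_append]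

theorem off_of_delete {C : Set G} {g : G} {p q r : P.Word} (hr : P.val r = 1)
    (h : P.Off C g (p ++ r ++ q)) : P.Off C g (p ++ q) := by
  rw [off_append, off_append] at h
  rw [off_append]
  refine ⟨h.1.1, ?_⟩
  have := h.2
  rwa [val_append, hr, mul_one] at this

theorem Htpy.off {C : Set G} {g : G} {w w' : P.Word} (h : P.Htpy C g w w') :
    P.Off C g w ∧ P.Off C g w' := by
  induction h with
  | refl w h => exact ⟨h, h⟩
  | symm w w' _ ih => exact ih.symm
  | trans w w' w'' _ _ ih1 ih2 => exact ⟨ih1.1, ih2.2⟩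
  | backtrack p q x h => exact ⟨h, off_of_delete (val_pair P x) h⟩
  | cell p q r hr h => exact ⟨h, off_of_delete (val_rel P hr) h⟩

theorem Htpy.mono {C D : Set G} (hCD : C ⊆ D) {g : G} {w w' : P.Word} (h : P.Htpy D g w w') :
    P.Htpy C g w w' := by
  induction h with
  | refl w h => exact Htpy.refl _ (h.mono hCD)
  | symm w w' _ ih => exact Htpy.symm _ _ ih
  | trans w w' w'' _ _ ih1 ih2 => exact Htpy.trans _ _ _ ih1 ih2
  | backtrack p q x h => exact Htpy.backtrack _ _ _ (h.mono hCD)
  | cell p q r hr h => exact Htpy.cell _ _ _ hr (h.mono hCD)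

theorem Htpy.congr {C : Set G} {g : G} {w w' : P.Word} {g' : G} (h : P.Htpy C g' w w')
    (a b : P.Word) (hg : g' = g * P.val a) (ha : P.Off C g a)
    (hb : P.Off C (g' * P.val w) b) : P.Htpy C g (a ++ w ++ b) (a ++ w' ++ b) := by
  subst hg
  induction h with
  | refl w h =>
    refine Htpy.refl _ ?_
    rw [off_append, off_append]
    refine ⟨⟨ha, h⟩, ?_⟩
    rwa [val_append, ← mul_assoc]
  | symm w w' h ih =>
    refine Htpy.symm _ _ (ih ?_)
    rwa [h.val_eq]
  | trans w w' w'' h1 h2 ih1 ih2 =>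
    refine Htpy.trans _ _ _ (ih1 hb) (ih2 ?_)
    rwa [← h1.val_eq]
  | backtrack p q x h =>
    have e1 : a ++ (p ++ [x, (x.1, !x.2)] ++ q) ++ b
        = (a ++ p) ++ [x, (x.1, !x.2)] ++ (q ++ b) := by simp
    have e2 : a ++ (p ++ q) ++ b = (a ++ p) ++ (q ++ b) := by simp
    rw [e1, e2]
    refine Htpy.backtrack _ _ _ ?_
    rw [← e1, off_append, off_append]
    refine ⟨⟨ha, h⟩, ?_⟩
    rwa [val_append, ← mul_assoc]
  | cell p q r hr h =>
    have e1 : a ++ (p ++ r ++ q) ++ b
        = (a ++ p) ++ r ++ (q ++ b) := by simp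
    have e2 : a ++ (p ++ q) ++ b = (a ++ p) ++ (q ++ b) := by simp
    rw [e1, e2]
    refine Htpy.cell _ _ _ hr ?_
    rw [← e1, off_append, off_append]
    refine ⟨⟨ha, h⟩, ?_⟩
    rwa [val_append, ← mul_assoc]

theorem Htpy.left {C : Set G} {g : G} {w w' : P.Word} {g' : G} (h : P.Htpy C g' w w')
    (a : P.Word) (hg : g' = g * P.val a) (ha : P.Off C g a) :
    P.Htpy C g (a ++ w) (a ++ w') := by
  have := h.congr a [] hg ha (by
    rw [off_nil]
    exact h.off.1.finish)
  simpa using this

theorem Htpy.right {C : Set G} {g : G} {w w' : P.Word} (h : P.Htpy C g w w')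
    (b : P.Word) (hb : P.Off C (g * P.val w) b) :
    P.Htpy C g (w ++ b) (w' ++ b) := by
  have := h.congr (g := g) [] b (by simp) (by
    rw [off_nil]
    exact h.off.1.start) hb
  simpa using this

theorem htpy_inv_right {C : Set G} {g : G} {w : P.Word} (h : P.Off C g w) :
    P.Htpy C g (w ++ P.inv w) [] := by
  induction w generalizing g with
  | nil => exact Htpy.refl _ h
  | cons x w ih =>
    have e1 : (x :: w : P.Word) = [x] ++ w := rfl
    rw [off_cons] at h
    have h1 := ih h.2
    have hx : P.Off C g [x] := by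
      rw [off_singleton]
      exact ⟨h.1, h.2.start⟩
    have h2 := h1.congr [x] (P.inv [x]) rfl hx (by
      rw [h1.val_eq, val_nil, mul_one]
      exact hx.inv)
    have e2 : (x :: w) ++ P.inv (x :: w) = [x] ++ (w ++ P.inv w) ++ P.inv [x] := by
      rw [e1, inv_append]
      simp
    rw [e2]
    refine Htpy.trans _ _ _ h2 ?_
    have e3 : ([x] ++ [] ++ P.inv [x] : P.Word) = [] ++ [x, (x.1, !x.2)] ++ [] := rfl
    rw [e3]
    refine Htpy.backtrack [] [] x ?_
    rw [← e3]
    simp only [List.append_nil]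
    rw [off_append]
    exact ⟨hx, hx.inv⟩

theorem htpy_inv_left {C : Set G} {g : G} {w : P.Word} (h : P.Off C g (P.inv w)) :
    P.Htpy C g (P.inv w ++ w) [] := by
  have := htpy_inv_right h
  rwa [inv_inv] at this

theorem Htpy.inv {C : Set G} {g : G} {w w' : P.Word} (h : P.Htpy C g w w') :
    P.Htpy C (g * P.val w) (P.inv w) (P.inv w') := by
  -- inv w ~ inv w ++ (w' ++ inv w') ~ inv w ++ w ++ inv w' ~ inv w'
  have o1 := h.off.1
  have o2 := h.off.2
  have o2i : P.Off C (g * P.val w) (P.inv w') := by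
    have := o2.inv
    rwa [← h.val_eq] at this
  have hg : g = g * P.val w * P.val (P.inv w) := by
    rw [val_inv, mul_assoc, mul_inv_cancel, mul_one]
  have s1 : P.Htpy C (g * P.val w) (P.inv w ++ (w' ++ P.inv w')) (P.inv w ++ []) :=
    (htpy_inv_right o2).left (P.inv w) hg o1.inv
  have s2 : P.Htpy C (g * P.val w) (P.inv w ++ w ++ P.inv w') (P.inv w ++ w' ++ P.inv w') :=
    h.congr (P.inv w) (P.inv w') hg o1.inv o2i
  have s3 : P.Htpy C (g * P.val w) (P.inv w ++ w ++ P.inv w') ([] ++ P.inv w') := by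
    refine (htpy_inv_left o1.inv).right _ ?_
    rw [val_append, val_inv, inv_mul_cancel, mul_one]
    exact o2i
  simp only [List.append_nil, List.nil_append, List.append_assoc] at s1 s2 s3
  exact (s1.symm _ _).trans _ _ _ ((s2.symm _ _).trans _ _ _ s3)

/-- Turning a square: if `a ++ b ~ c ++ d` then `d ++ b⁻¹ ~ c⁻¹ ++ a`. -/
theorem Htpy.turn {C : Set G} {g : G} {a b c d : P.Word} (h : P.Htpy C g (a ++ b) (c ++ d)) :
    P.Htpy C (g * P.val c) (d ++ P.inv b) (P.inv c ++ a) := by
  obtain ⟨o1, o2⟩ := h.off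
  have hv := h.val_eq
  rw [val_append, val_append] at hv
  rw [off_append] at o1 o2
  have ob : P.Off C (g * P.val a * P.val b) (P.inv b) := o1.2.inv
  have ob' : P.Off C (g * P.val c * P.val d) (P.inv b) := by
    rw [mul_assoc, ← hv, ← mul_assoc]
    exact ob
  have oc : P.Off C (g * P.val c) (P.inv c) := o2.1.inv
  have hg : g = g * P.val c * P.val (P.inv c) := by
    rw [val_inv, mul_assoc, mul_inv_cancel, mul_one]
  -- s1 : c⁻¹ (c d) b⁻¹ ~ d b⁻¹
  have s1 : P.Htpy C (g * P.val c) (P.inv c ++ c ++ (d ++ P.inv b)) ([] ++ (d ++ P.inv b)) := by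
    refine (htpy_inv_left oc).right _ ?_
    rw [val_append, val_inv, inv_mul_cancel, mul_one, off_append]
    exact ⟨o2.2, ob'⟩
  have s2 : P.Htpy C (g * P.val c) (P.inv c ++ (a ++ b) ++ P.inv b)
      (P.inv c ++ (c ++ d) ++ P.inv b) := by
    refine h.congr (P.inv c) (P.inv b) hg oc ?_
    rw [val_append, ← mul_assoc]
    exact ob
  have s3 : P.Htpy C (g * P.val c) (P.inv c ++ a ++ (b ++ P.inv b)) (P.inv c ++ a ++ []) := by
    refine (htpy_inv_right o1.2).left _ ?_ ?_
    · rw [val_append, ← mul_assoc, ← hg]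
    · rw [off_append, ← hg]
      exact ⟨oc, o1.1⟩
  simp only [List.append_nil, List.nil_append, List.append_assoc] at s1 s2 s3 ⊢
  exact (s1.symm _ _).trans _ _ _ ((s2.symm _ _).trans _ _ _ s3)

end Pres

end SemiInf
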