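import Pool.Agent.SemiInf.Strip

namespace SemiInf

open Filter Subgroup

namespace Pres

variable {G : Type*} [Group G] {P : Pres G}

/-- The two rays in the directions `c` and `d` are linked if `c` and `d` lie in a finitely
generated subgroup `A` which is commensurated, with infinitely many cosets, by a finitely
generated subgroup `B`. -/
theorem link_of_commensurated (P : Pres G) [P.Complete] {A B : Subgroup G} (hA : A.FG)
    (hB : B.FG)
    (hcomm : ∀ b ∈ B, {L : G ⧸ A | ∃ a ∈ A, ((a * b : G) : G ⧸ A) = L}.Finite)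
    (hinf : {L : G ⧸ A | ∃ b ∈ B, (b : G ⧸ A) = L}.Infinite)
    {c d : G} (hcA : c ∈ A) (hdA : d ∈ A) (hc : ¬ IsOfFinOrder c) (hd : ¬ IsOfFinOrder d) :
    P.Link c d := by
  classical
  obtain ⟨SA, hSA⟩ := hA
  obtain ⟨SB, hSB⟩ := hB
  -- generators of `A`
  obtain ⟨Y, hYdef⟩ : ∃ Y : Set G, Y = ((SA : Set G) ∪ (SA : Set G)⁻¹) ∪ {c, d} := ⟨_, rfl⟩
  have hYfin : Y.Finite := by
    rw [hYdef]
    exact (SA.finite_toSet.union SA.finite_toSet.inv).union (Set.toFinite _)
  have hYA : Y ⊆ A := by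
    intro y hy
    rw [hYdef] at hy
    rcases hy with (hy | hy) | (rfl | rfl)
    · rw [← hSA]
      exact subset_closure hy
    · rw [← hSA]
      exact (inv_mem_iff (S := Subgroup G)).mp (subset_closure hy)
    · exact hcA
    · exact hdA
  have hcY : c ∈ Y := by
    rw [hYdef]
    exact Or.inr (Or.inl rfl)
  have hdY : d ∈ Y := by
    rw [hYdef]
    exact Or.inr (Or.inr rfl)
  have hgen : ∀ a ∈ A, ∃ l : List G, YList Y l ∧ l.prod = a := by
    intro a ha
    rw [← hSA, ← mem_toSubmonoid, closure_toSubmonoid] at ha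
    obtain ⟨l, hl1, hl2⟩ := Submonoid.exists_list_of_mem_closure ha
    refine ⟨l, fun x hx => ?_, hl2⟩
    rw [hYdef]
    exact Or.inl (hl1 x hx)
  -- generators of `B`
  obtain ⟨YB, hYBdef⟩ : ∃ YB : Set G, YB = (SB : Set G) ∪ (SB : Set G)⁻¹ := ⟨_, rfl⟩
  have hYBfin : YB.Finite := by
    rw [hYBdef]
    exact SB.finite_toSet.union SB.finite_toSet.inv
  have hYBinv : ∀ y ∈ YB, y⁻¹ ∈ YB := by
    intro y hy
    rw [hYBdef] at hy ⊢
    rcases hy with hy | hy
    · exact Or.inr (by simpa using hy)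
    · exact Or.inl (by simpa using hy)
  have hYBB : ∀ y ∈ YB, y ∈ B := by
    intro y hy
    rw [hYBdef] at hy
    rw [← hSB]
    rcases hy with hy | hy
    · exact subset_closure hy
    · exact (inv_mem_iff (S := Subgroup G)).mp (subset_closure hy)
  -- crossing elements
  let 𝓛 : G → Set (G ⧸ A) := fun y => {L : G ⧸ A | ∃ a ∈ A, ((a * y : G) : G ⧸ A) = L}
  have h𝓛 : ∀ y ∈ YB, (𝓛 y).Finite := fun y hy => hcomm y (hYBB y hy)
  let X : Set G := ⋃ y ∈ YB, Quotient.out '' 𝓛 y
  have hX : X.Finite := hYBfin.biUnion fun y hy => (h𝓛 y hy).image _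
  -- adjacency of cosets
  let adj : G ⧸ A → G ⧸ A → Prop := fun L L' =>
    ∃ x : G, ∃ y ∈ YB, (x : G ⧸ A) = L ∧ ((x * y : G) : G ⧸ A) = L'
  have adj_symm : ∀ L L', adj L L' → adj L' L := by
    rintro L L' ⟨x, y, hy, rfl, rfl⟩
    exact ⟨x * y, y⁻¹, hYBinv y hy, rfl, by rw [mul_assoc, mul_inv_cancel, mul_one]⟩
  have smul_mk : ∀ x y : G, x • (y : G ⧸ A) = ((x * y : G) : G ⧸ A) := fun x y => rfl
  have adj_fin : ∀ L, {L' | adj L L'}.Finite := by
    intro L
    obtain ⟨x, rfl⟩ := QuotientGroup.mk_surjective L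
    refine Set.Finite.subset (hYBfin.biUnion fun y hy =>
      (h𝓛 y hy).image fun M => x • M) ?_
    rintro L' ⟨z, y, hy, hz, rfl⟩
    refine Set.mem_biUnion hy ⟨((x⁻¹ * z * y : G) : G ⧸ A), ?_, ?_⟩
    · exact ⟨x⁻¹ * z, QuotientGroup.eq.mp hz.symm, rfl⟩
    · change x • ((x⁻¹ * z * y : G) : G ⧸ A) = _
      rw [smul_mk]
      congr 1
      group
  have hcr : ∀ L L', adj L L' → ∀ z : G, (z : G ⧸ A) = L → ∃ κ ∈ X,
      ((z * κ : G) : G ⧸ A) = L' := by
    rintro L L' ⟨x, y, hy, hx, rfl⟩ z hz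
    have h1 : (((z⁻¹ * x * y : G) : G ⧸ A)) ∈ 𝓛 y :=
      ⟨z⁻¹ * x, QuotientGroup.eq.mp (hz.trans hx.symm), rfl⟩
    refine ⟨Quotient.out ((z⁻¹ * x * y : G) : G ⧸ A), Set.mem_biUnion hy ⟨_, h1, rfl⟩, ?_⟩
    rw [← smul_mk]
    have h2 : ((Quotient.out ((z⁻¹ * x * y : G) : G ⧸ A) : G) : G ⧸ A)
        = ((z⁻¹ * x * y : G) : G ⧸ A) := Quotient.out_eq' _
    rw [h2, smul_mk]
    congr 1
    group
  have reach_inf : ∀ L, {L' | Relation.ReflTransGen adj L L'}.Infinite := by
    intro L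
    obtain ⟨x, rfl⟩ := QuotientGroup.mk_surjective L
    have h1 : ∀ b ∈ B, Relation.ReflTransGen adj (x : G ⧸ A) ((x * b : G) : G ⧸ A) := by
      intro b hb
      rw [← hSB] at hb
      induction hb using closure_induction_right with
      | one =>
        rw [mul_one]
      | mul_right b _ y hy ih =>
        refine ih.tail ⟨x * b, y, ?_, rfl, by rw [mul_assoc]⟩
        rw [hYBdef]
        exact Or.inl hy
      | mul_inv_cancel b _ y hy ih =>
        refine ih.tail ⟨x * b, y⁻¹, ?_, rfl, by rw [mul_assoc]⟩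
        apply hYBinv
        rw [hYBdef]
        exact Or.inl hy
    have h2 : ((fun L : G ⧸ A => x • L) ''
        {L : G ⧸ A | ∃ b ∈ B, (b : G ⧸ A) = L}).Infinite :=
      hinf.image (MulAction.injective x).injOn
    refine h2.mono ?_
    rintro _ ⟨_, ⟨b, hb, rfl⟩, rfl⟩
    exact h1 b hb
  obtain ⟨T, S, hT, hS, hstrip⟩ := exists_strip P A hYfin hYA hgen hX
  obtain ⟨K, K0, Kmono, hK⟩ := P.exists_exhaustion
  intro C hC
  have hNfin := cosetOff_finite A (nb_finite hC hT)
  obtain ⟨F, hF, hF0, hesc⟩ := exists_escape adj_symm adj_fin reach_inf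
    {L | ¬ CosetOff A (nb C T) L} hNfin
  have hray : ∀ L, ∃ f : ℕ → G ⧸ A, f 0 = L ∧ (∀ n, adj (f n) (f (n + 1))) ∧
      Function.Injective f := fun L => exists_ray adj_fin L (reach_inf L)
  choose fL fL0 fL1 fLinj using hray
  have hthr : ∀ L, ∃ N, ∀ n, N ≤ n → CosetOff A (nb C T) (fL L n) := fun L =>
    eventually_atTop.mp (eventually_cosetOff (fLinj L) (nb_finite hC hT))
  choose nL hnL using hthr
  refine ⟨⋃ L ∈ {L | ¬ CosetOff A (nb C T) L} ∪ F, ⋃ n ∈ Finset.range (nL L), nb C (S n),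
    (hNfin.union hF).biUnion fun L _ => (Finset.finite_toSet _).biUnion fun n _ =>
      nb_finite hC (hS n), ?_, ?_⟩
  · intro h0
    have hN0 : {L : G ⧸ A | ¬ CosetOff A (nb C T) L} = ∅ := by
      refine Set.eq_empty_of_forall_notMem fun L hL => hL ?_
      rw [nb_empty h0]
      exact CosetOff.empty
    rw [hF0 hN0, hN0]
    simp
  intro v hvc hvd
  -- the path of cosets
  have hpath : ∃ f : ℕ → G ⧸ A, f 0 = (v : G ⧸ A) ∧ (∀ n, adj (f n) (f (n + 1))) ∧
      Function.Injective f ∧ ∀ n, CosetOff A (nb C T) (f n) ∨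
        ∀ x : G, x ∉ (⋃ L ∈ {L | ¬ CosetOff A (nb C T) L} ∪ F,
          ⋃ n ∈ Finset.range (nL L), nb C (S n)) → x ∉ nb C (S n) := by
    by_cases hL : (v : G ⧸ A) ∈ {L | ¬ CosetOff A (nb C T) L} ∪ F
    · refine ⟨fL v, fL0 v, fL1 v, fLinj v, fun n => ?_⟩
      by_cases hn : nL v ≤ n
      · exact Or.inl (hnL v n hn)
      · refine Or.inr fun x hx hmem => hx ?_
        refine Set.mem_biUnion hL ?_
        refine Set.mem_biUnion (Finset.mem_range.mpr (by omega)) hmem
    · have h1 : (v : G ⧸ A) ∉ {L | ¬ CosetOff A (nb C T) L} := fun h => hL (Or.inl h)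
      have h2 : (v : G ⧸ A) ∉ F := fun h => hL (Or.inr h)
      obtain ⟨f, f0, f1, finj, foff⟩ := hesc _ h1 h2
      refine ⟨f, f0, f1, finj, fun n => Or.inl ?_⟩
      have := foff n
      simpa using this
  obtain ⟨f, f0, f1, finj, foff⟩ := hpath
  have hcrf : ∀ n, ∀ z : G, (z : G ⧸ A) = f n → ∃ κ ∈ X,
      ((z * κ : G) : G ⧸ A) = f (n + 1) := fun n => hcr _ _ (f1 n)
  obtain ⟨κ₀, hκ₀⟩ := exists_trans P hcrf f0.symm
  -- the comparison of a periodic ray with the transversal ray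
  have main : ∀ e ∈ Y, ¬ IsOfFinOrder e → (∀ k : ℕ, v * e ^ k ∉
      ⋃ L ∈ {L | ¬ CosetOff A (nb C T) L} ∪ F, ⋃ n ∈ Finset.range (nL L), nb C (S n)) →
      P.Ladder C v [] (fun n => P.wd (κ₀ n)) (fun _ => P.wd e) := by
    intro e heY he hve
    have hpt : ∀ i, P.vertex v (fun _ => P.wd e) i = v * e ^ i := fun i => by
      rw [vertex_const, val_wd]
    have hmk : ∀ i : ℕ, ((v * e ^ i : G) : G ⧸ A) = f 0 := fun i => by
      rw [QuotientGroup.mk_mul_of_mem v (pow_mem (hYA heY) i), f0]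
    have hκex : ∀ i : ℕ, ∃ κ, Trans P A X f (v * e ^ i) κ ∧ (i = 0 → κ = κ₀) := by
      intro i
      by_cases hi : i = 0
      · subst hi
        exact ⟨κ₀, by simpa using hκ₀, fun _ => rfl⟩
      · obtain ⟨κ, hκ⟩ := exists_trans P hcrf (hmk i)
        exact ⟨κ, hκ, fun h => absurd h hi⟩
    choose κ hκ hκ0 using hκex
    obtain ⟨lev, lev0, levmono, levtop, hlev⟩ := exists_level
      (fun k i => ∀ n, CosetOff A (nb (C ∪ K k) T) (f n) ∨ v * e ^ i ∉ nb (C ∪ K k) (S n))
      (by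
        intro i n
        rw [K0, Finset.coe_empty, Set.union_empty]
        rcases foff n with h | h
        · exact Or.inl h
        · exact Or.inr (h _ (hve i))) (by
        intro k
        have hfin : (C ∪ K k : Set G).Finite := hC.union (K k).finite_toSet
        obtain ⟨n₀, hn₀⟩ := eventually_atTop.mp (eventually_cosetOff finj
          (nb_finite hfin hT))
        have h1 : ∀ᶠ i : ℕ in atTop, ∀ n ∈ Finset.range n₀,
            v * e ^ i ∉ nb (C ∪ K k) (S n) :=
          (Filter.eventually_all_finset _).mpr fun n _ =>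
            eventually_notMem_nb he v hfin (hS n)
        filter_upwards [h1] with i hi n
        by_cases hn : n₀ ≤ n
        · exact Or.inl (hn₀ n hn)
        · exact Or.inr (hi n (Finset.mem_range.mpr (by omega))))
    have hstack := stack (P := P) (fun i => C ∪ (K (lev i) : Set G)) ?_ ?_ v
      (fun _ => P.wd e) (fun i n => P.wd (κ i n)) ?_
    · rw [hκ0 0 rfl] at hstack
      exact hstack.mono Set.subset_union_left
    · intro E hE
      obtain ⟨j, hj⟩ := eventually_atTop.mp (hK E hE)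
      obtain ⟨i, hi⟩ := levtop j
      exact eventually_atTop.mpr ⟨i, fun l hl =>
        (hj _ (hi.trans (levmono hl))).trans Set.subset_union_right⟩
    · intro i
      refine Set.union_subset_union_right _ ?_
      exact_mod_cast Kmono (levmono (Nat.zero_le i))
    · intro i
      refine Ladder.to_cons ?_
      rw [hpt]
      have hκ' : Trans P A X f (v * e ^ i * e) (κ (i + 1)) := by
        have := hκ (i + 1)
        rwa [pow_succ, ← mul_assoc] at this
      obtain ⟨t, ht0, ht⟩ := hstrip f hcrf (v * e ^ i) e heY (κ i) (κ (i + 1)) (hκ i) hκ'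
      refine ⟨t, ht0, fun n => ht n _ (hlev i n), fun E hE => ?_⟩
      filter_upwards [eventually_cosetOff finj (nb_finite hE hT)] with n hn
      exact ht n E (Or.inl hn)
  exact (main c hcY hc hvc).symm'.trans' (main d hdY hd hvd)

end Pres

end SemiInf
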