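import Mathlib

/-!
Edge paths, homotopies, proper rays and semistability at infinity in Cayley 2-complexes of
finitely generated groups. The vertices of the complex are the elements of the group `G`;
there is an edge from `g` to `g * gen i` for every generator, and a 2-cell attached along the
loop with label `r` at every vertex for every relator `r`. If the relators define `G`, this is
the universal cover of the presentation complex.
-/

namespace SemiInf

/-- Finitely many generators `gen i` of the group `G`, and a finite set of relators which hold
in `G`; they are words in the letters `(i, true)` (the generator `i`) and `(i, false)` (its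
inverse). The relators need not define `G`, see `Pres.Complete`. -/
structure Pres (G : Type*) [Group G] where
  /-- the number of generators -/
  n : ℕ
  /-- the generators, as elements of `G` -/
  gen : Fin n → G
  /-- the relators -/
  rels : Finset (List (Fin n × Bool))
  /-- the generators generate `G` -/
  surj : Function.Surjective (FreeGroup.lift gen)
  /-- the relators hold in `G` -/
  holds : ∀ r ∈ rels, FreeGroup.lift gen (FreeGroup.mk r) = 1

namespace Pres

variable {G : Type*} [Group G]

/-- The relators define `G`: this is a finite presentation of `G`. -/
class Complete (P : Pres G) : Prop where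
  /-- the relators generate the kernel as a normal subgroup -/
  ker : (FreeGroup.lift P.gen).ker =
    Subgroup.normalClosure (FreeGroup.mk '' (P.rels : Set (List (Fin P.n × Bool))))

/-- Words in the generators and their inverses. -/
abbrev Word (P : Pres G) : Type := List (Fin P.n × Bool)

/-- The element of `G` represented by a word. -/
def val (P : Pres G) (w : P.Word) : G := FreeGroup.lift P.gen (FreeGroup.mk w)

/-- All the vertices of the edge path which starts at the vertex `g` and has label `w` lie
outside `C`. -/
def Off (P : Pres G) (C : Set G) (g : G) (w : P.Word) : Prop :=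
  ∀ u : P.Word, u <+: w → g * P.val u ∉ C

/-- Homotopy relative to the endpoints, outside `C`, of two edge paths which start at `g`: it
is generated by inserting and deleting backtracks and boundary paths of 2-cells, all the paths
staying outside `C`. -/
inductive Htpy (P : Pres G) (C : Set G) (g : G) : P.Word → P.Word → Prop
  | refl (w : P.Word) : P.Off C g w → Htpy P C g w w
  | symm (w w' : P.Word) : Htpy P C g w w' → Htpy P C g w' w
  | trans (w w' w'' : P.Word) : Htpy P C g w w' → Htpy P C g w' w'' → Htpy P C g w w''
  | backtrack (p q : P.Word) (x : Fin P.n × Bool) :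
      P.Off C g (p ++ [x, (x.1, !x.2)] ++ q) →
      Htpy P C g (p ++ [x, (x.1, !x.2)] ++ q) (p ++ q)
  | cell (p q r : P.Word) : r ∈ P.rels → P.Off C g (p ++ r ++ q) →
      Htpy P C g (p ++ r ++ q) (p ++ q)

/-- The vertices `v`, `v * val (u 0)`, `v * val (u 0) * val (u 1)`, ... -/
def vertex (P : Pres G) (v : G) (u : ℕ → P.Word) : ℕ → G
  | 0 => v
  | n + 1 => P.vertex v u n * P.val (u n)

/-- The `n`-th vertex of the edge ray which starts at `v` and whose edges have the labels
`x 0`, `x 1`, ... -/
def pt (P : Pres G) (v : G) (x : ℕ → Fin P.n × Bool) (n : ℕ) : G :=
  P.vertex v (fun k => [x k]) n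

/-- The edge ray which starts at `v` and has the labels `x 0`, `x 1`, ... is proper: it leaves
every finite set for ever. -/
def ProperRay (P : Pres G) (v : G) (x : ℕ → Fin P.n × Bool) : Prop :=
  ∀ C : Set G, C.Finite → ∀ᶠ n in Filter.atTop, P.pt v x n ∉ C

/-- The edge rays `(v, x)` and `(v', x')` are properly homotopic: there are edge paths `t n`
from the `n`-th vertex of the first ray to the `n`-th vertex of the second one such that for
every finite `C`, for all but finitely many `n`, the two ways round the `n`-th square are
homotopic outside `C`. -/
def ProperlyHomotopic (P : Pres G) (v : G) (x : ℕ → Fin P.n × Bool) (v' : G)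
    (x' : ℕ → Fin P.n × Bool) : Prop :=
  ∃ t : ℕ → P.Word, (∀ n, P.pt v x n * P.val (t n) = P.pt v' x' n) ∧
    ∀ C : Set G, C.Finite → ∀ᶠ n in Filter.atTop,
      P.Htpy C (P.pt v x n) ([x n] ++ t (n + 1)) (t n ++ [x' n])

/-- `G` is one-ended: it is infinite and for every finite `C` there is a finite `D` such that
any two vertices outside `D` are joined by an edge path outside `C`. -/
def OneEnded (P : Pres G) : Prop :=
  Infinite G ∧ ∀ C : Set G, C.Finite → ∃ D : Set G, D.Finite ∧
    ∀ u v : G, u ∉ D → v ∉ D → ∃ w : P.Word, u * P.val w = v ∧ P.Off C u w

/-- The Cayley complex is semistable at infinity: any two proper rays are properly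
homotopic. -/
def Semistable (P : Pres G) : Prop :=
  ∀ (v : G) (x : ℕ → Fin P.n × Bool) (v' : G) (x' : ℕ → Fin P.n × Bool),
    P.ProperRay v x → P.ProperRay v' x' → P.ProperlyHomotopic v x v' x'

end Pres

/-- `A` is commensurated by `B`: for every `b` in `B` the set `A b A` is a union of finitely
many left cosets of `A`. -/
def Commensurates {G : Type*} [Group G] (B A : Subgroup G) : Prop :=
  ∀ b ∈ B, {L : G ⧸ A | ∃ a ∈ A, ((a * b : G) : G ⧸ A) = L}.Finite

/-- The good subgroups of `G`: the finitely generated subgroups `H` which are one-ended and
semistable at infinity (with respect to some finite set of relators which hold in `H`), and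
the finitely generated subgroups `H` which commensurate a finitely generated subgroup `A` of
infinite index in `H` with an element of infinite order. -/
def Good {G : Type*} [Group G] (H : Subgroup G) : Prop :=
  (∃ Q : Pres H, Q.OneEnded ∧ Q.Semistable) ∨
  (H.FG ∧ ∃ A : Subgroup G, A ≤ H ∧ A.FG ∧ (∃ a ∈ A, ¬ IsOfFinOrder a) ∧
    Commensurates H A ∧ {L : G ⧸ A | ∃ b ∈ H, (b : G ⧸ A) = L}.Infinite)

end SemiInf
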