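import Pool.Agent.SemiInf.Strong
import Mathlib.GroupTheory.CosetCover

namespace SemiInf

open Filter Subgroup
open scoped Pointwise

namespace Pres

variable {G : Type*} [Group G] {P : Pres G}

theorem pow_injective {c : G} (hc : ¬ IsOfFinOrder c) : Function.Injective fun n : ℕ => c ^ n :=
  injective_pow_iff_not_isOfFinOrder.mpr hc

theorem zpow_injective {c : G} (hc : ¬ IsOfFinOrder c) :
    Function.Injective fun n : ℤ => c ^ n :=
  injective_zpow_iff_not_isOfFinOrder.mpr hc

theorem eventually_notMem {c : G} (hc : ¬ IsOfFinOrder c) (v s : G) {E : Set G}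
    (hE : E.Finite) : ∀ᶠ n : ℕ in atTop, v * c ^ n * s ∉ E := by
  have hinj : Function.Injective fun n : ℕ => v * c ^ n * s := by
    intro a b hab
    exact pow_injective hc (mul_left_cancel (mul_right_cancel hab))
  have := hinj.tendsto_cofinite.eventually hE.compl_mem_cofinite
  rw [Nat.cofinite_eq_atTop] at this
  exact this

theorem not_isOfFinOrder_inv {c : G} (hc : ¬ IsOfFinOrder c) : ¬ IsOfFinOrder c⁻¹ := by
  rwa [isOfFinOrder_inv_iff]

/-- A one-ended group is not virtually infinite cyclic. -/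
theorem OneEnded.not_finiteIndex (ho : P.OneEnded) {c : G} (hc : ¬ IsOfFinOrder c) :
    ¬ (zpowers c).FiniteIndex := by
  classical
  intro hfi
  have hfq : Finite (G ⧸ zpowers c) := inferInstance
  -- representatives of the right cosets of the powers of `c`
  obtain ⟨r, hr⟩ : ∃ r : G → G, ∀ h, r h =
      (Quotient.out ((h⁻¹ : G) : G ⧸ zpowers c))⁻¹ := ⟨_, fun h => rfl⟩
  have hrfin : (Set.range r).Finite := by
    refine (Set.finite_range fun q : G ⧸ zpowers c => (Quotient.out q)⁻¹).subset ?_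
    rintro _ ⟨h, rfl⟩
    exact ⟨_, (hr h).symm⟩
  have hφ : ∀ h, ∃ n : ℤ, c ^ n * r h = h := by
    intro h
    have h1 : ((Quotient.out ((h⁻¹ : G) : G ⧸ zpowers c) : G) : G ⧸ zpowers c)
        = ((h⁻¹ : G) : G ⧸ zpowers c) := Quotient.out_eq' _
    have h2 := QuotientGroup.eq.mp h1.symm
    rw [_root_.inv_inv] at h2
    obtain ⟨n, hn⟩ := mem_zpowers_iff.mp h2
    refine ⟨n, ?_⟩
    rw [hn, hr]
    group
  choose φ hφ using hφ
  -- the height changes by a bounded amount along edges
  have hM : ∀ x : Fin P.n × Bool, ∃ M : ℕ, ∀ h, |φ (h * P.val [x]) - φ h| ≤ M := by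
    intro x
    have hfin : {n : ℤ | c ^ n ∈ Set.image2 (fun a b => a * P.val [x] * b⁻¹) (Set.range r)
        (Set.range r)}.Finite :=
      (hrfin.image2 _ hrfin).preimage (zpow_injective hc).injOn
    obtain ⟨M, hM⟩ := hfin.image (fun n : ℤ => n.natAbs) |>.bddAbove
    refine ⟨M, fun h => ?_⟩
    have h1 := hφ h
    have h2 := hφ (h * P.val [x])
    have h3 : c ^ (φ (h * P.val [x]) - φ h) = r h * P.val [x] * (r (h * P.val [x]))⁻¹ := by
      have e1 : c ^ φ (h * P.val [x]) = h * P.val [x] * (r (h * P.val [x]))⁻¹ := by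
        rw [eq_mul_inv_iff_mul_eq]
        exact h2
      have e2 : c ^ (-φ h) = r h * h⁻¹ := by
        rw [zpow_neg, eq_mul_inv_iff_mul_eq, inv_mul_eq_iff_eq_mul]
        exact h1.symm
      rw [show φ (h * P.val [x]) - φ h = -φ h + φ (h * P.val [x]) by ring, zpow_add, e1, e2]
      group
    have h4 : (φ (h * P.val [x]) - φ h).natAbs ≤ M := by
      refine hM ⟨_, ?_, rfl⟩
      change c ^ (φ (h * P.val [x]) - φ h) ∈
        Set.image2 (fun a b => a * P.val [x] * b⁻¹) (Set.range r) (Set.range r)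
      rw [h3]
      exact ⟨_, ⟨h, rfl⟩, _, ⟨_, rfl⟩, rfl⟩
    rw [Int.abs_eq_natAbs]
    exact_mod_cast h4
  choose Mx hMx using hM
  obtain ⟨M, hM⟩ : ∃ M : ℕ, ∀ (x : Fin P.n × Bool) (h : G), |φ (h * P.val [x]) - φ h| ≤ M := by
    refine ⟨∑ x, Mx x, fun x h => ?_⟩
    have h1 : Mx x ≤ ∑ x, Mx x :=
      Finset.single_le_sum (f := Mx) (fun _ _ => Nat.zero_le _) (Finset.mem_univ x)
    have h2 := hMx x h
    have h3 : (Mx x : ℤ) ≤ ((∑ x, Mx x : ℕ) : ℤ) := by exact_mod_cast h1
    exact h2.trans h3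
  -- the separating set
  have hC : {h : G | |φ h| ≤ M}.Finite := by
    refine (Set.Finite.image2 (fun (n : ℤ) (x : G) => c ^ n * x)
      (Set.finite_Icc (-(M : ℤ)) M) hrfin).subset ?_
    intro h hh
    exact ⟨φ h, Set.mem_Icc.mpr (abs_le.mp hh), r h, ⟨h, rfl⟩, hφ h⟩
  have hpath : ∀ (w : P.Word) (g : G), P.Off {h : G | |φ h| ≤ M} g w → (M : ℤ) < φ g →
      (M : ℤ) < φ (g * P.val w) := by
    intro w
    induction w with
    | nil =>
      intro g _ hg
      simpa using hg
    | cons x w ih =>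
      intro g ho hg
      rw [off_cons] at ho
      have h1 := hM x g
      have h2 : ¬ |φ (g * P.val [x])| ≤ M := ho.2.start
      have h3 : (M : ℤ) < φ (g * P.val [x]) := by
        rw [abs_le] at h1 h2
        by_contra hcon
        apply h2
        constructor
        · omega
        · omega
      have h4 := ih _ ho.2 h3
      rwa [mul_assoc, ← val_append] at h4
  obtain ⟨D, hD, hconn⟩ := ho.2 _ hC
  -- heights of the powers of `c`
  have hrc : ∀ n : ℤ, r (c ^ n) = r 1 := by
    intro n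
    rw [hr, hr]
    congr 2
    rw [QuotientGroup.eq]
    simp only [_root_.inv_inv, inv_one, mul_one]
    exact zpow_mem_zpowers c n
  have hpow : ∀ n : ℤ, φ (c ^ n) = n + φ 1 := by
    intro n
    apply zpow_injective hc
    have h1 := hφ (c ^ n)
    have h2 := hφ 1
    rw [hrc] at h1
    have h3 : r 1 = (c ^ φ 1)⁻¹ := (inv_eq_of_mul_eq_one_right h2).symm
    rw [h3, mul_inv_eq_iff_eq_mul] at h1
    change c ^ φ (c ^ n) = c ^ (n + φ 1)
    rw [h1, zpow_add]
  obtain ⟨n, hn1, hn2, hn3⟩ := ((eventually_notMem hc 1 1 hD).and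
    ((eventually_notMem (not_isOfFinOrder_inv hc) 1 1 hD).and
      (eventually_gt_atTop (M + (φ 1).natAbs)))).exists
  rw [one_mul, mul_one] at hn1 hn2
  obtain ⟨w, hw1, hw2⟩ := hconn _ _ hn1 hn2
  have h1 : (M : ℤ) < φ (c ^ n) := by
    have := hpow n
    rw [zpow_natCast] at this
    rw [this]
    omega
  have h2 := hpath w _ hw2 h1
  rw [hw1, inv_pow] at h2
  have h3 := hpow (-n)
  rw [zpow_neg, zpow_natCast] at h3
  rw [h3] at h2
  omega

/-- In a one-ended group there are points from which two given periodic rays avoid a given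
finite set. -/
theorem OneEnded.exists_base (ho : P.OneEnded) {c d : G} (hc : ¬ IsOfFinOrder c)
    (hd : ¬ IsOfFinOrder d) {E F : Set G} (hE : E.Finite) (hF : F.Finite) :
    ∃ h : G, (∀ k : ℕ, h * c ^ k ∉ E) ∧ ∀ k : ℕ, h * d ^ k ∉ F := by
  classical
  by_contra hcon
  push Not at hcon
  let H : G ⊕ G → Subgroup G := fun s => Sum.elim (fun _ => zpowers c) (fun _ => zpowers d) s
  let g : G ⊕ G → G := fun s => Sum.elim id id s
  let s : Finset (G ⊕ G) := (hE.toFinset.image Sum.inl) ∪ (hF.toFinset.image Sum.inr)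
  have hcov : ⋃ i ∈ s, (g i) • (H i : Set G) = Set.univ := by
    refine Set.eq_univ_of_forall fun h => ?_
    by_cases h1 : ∀ k : ℕ, h * c ^ k ∉ E
    · obtain ⟨k, hk⟩ := hcon h h1
      have hs : (Sum.inr (h * d ^ k) : G ⊕ G) ∈ s :=
        Finset.mem_union_right _ (Finset.mem_image_of_mem _ (hF.mem_toFinset.mpr hk))
      refine Set.mem_biUnion hs ?_
      refine ⟨(d ^ k)⁻¹, inv_mem (npow_mem_zpowers d k), ?_⟩
      change h * d ^ k * (d ^ k)⁻¹ = h
      group
    · push Not at h1
      obtain ⟨k, hk⟩ := h1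
      have hs : (Sum.inl (h * c ^ k) : G ⊕ G) ∈ s :=
        Finset.mem_union_left _ (Finset.mem_image_of_mem _ (hE.mem_toFinset.mpr hk))
      refine Set.mem_biUnion hs ?_
      refine ⟨(c ^ k)⁻¹, inv_mem (npow_mem_zpowers c k), ?_⟩
      change h * c ^ k * (c ^ k)⁻¹ = h
      group
  obtain ⟨k, _, hk⟩ := exists_finiteIndex_of_leftCoset_cover hcov
  rcases k with k | k
  · exact ho.not_finiteIndex hc hk
  · exact ho.not_finiteIndex hd hk

end Pres

end SemiInf
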