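import Pool.Agent.SemiInf.Basic

namespace SemiInf

namespace Pres

variable {G : Type*} [Group G] {P : Pres G}

/-- The loop with label `w` can be filled in, uniformly. -/
def Null (P : Pres G) (w : P.Word) : Prop :=
  ∃ T : Set G, T.Finite ∧ ∀ (C : Set G) (g : G), (∀ t ∈ T, g * t ∉ C) → P.Htpy C g w []

theorem null_nil : P.Null [] :=
  ⟨{1}, Set.finite_singleton _, fun C g h => Htpy.refl _ (by
    rw [off_nil]
    simpa using h 1 rfl)⟩

theorem Null.append {a b : P.Word} (ha : P.Null a) (hb : P.Null b) : P.Null (a ++ b) := by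
  obtain ⟨T, hT, h1⟩ := ha
  obtain ⟨T', hT', h2⟩ := hb
  refine ⟨T ∪ T', hT.union hT', fun C g h => ?_⟩
  have e1 := h1 C g fun t ht => h t (Or.inl ht)
  have e2 := h2 C g fun t ht => h t (Or.inr ht)
  have e3 := e1.right b (by
    rw [e1.val_eq, val_nil, mul_one]
    exact e2.off.1)
  exact Htpy.trans _ _ _ e3 e2

theorem null_rel {r : P.Word} (hr : r ∈ P.rels) : P.Null r := by
  refine ⟨pre r, pre_finite r, fun C g h => ?_⟩
  have h1 := Htpy.cell (P := P) (C := C) (g := g) [] [] r hr (by
    simpa using off_iff_pre.mpr h)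
  simpa using h1

theorem Null.conj {w : P.Word} (hw : P.Null w) (p : P.Word) :
    P.Null (p ++ w ++ P.inv p) := by
  obtain ⟨T, hT, h1⟩ := hw
  refine ⟨pre p ∪ (fun t => P.val p * t) '' T, (pre_finite p).union (hT.image _),
    fun C g h => ?_⟩
  have op : P.Off C g p := off_iff_pre.mpr fun t ht => h t (Or.inl ht)
  have e1 := h1 C (g * P.val p) fun t ht => by
    rw [mul_assoc]
    exact h _ (Or.inr ⟨t, ht, rfl⟩)
  have e2 := e1.congr p (P.inv p) rfl op (by
    rw [e1.val_eq, val_nil, mul_one]
    exact op.inv)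
  refine Htpy.trans _ _ _ e2 ?_
  rw [List.append_nil]
  exact htpy_inv_right op

theorem Null.inv {w : P.Word} (hw : P.Null w) : P.Null (P.inv w) := by
  obtain ⟨T, hT, h1⟩ := hw
  refine ⟨T, hT, fun C g h => ?_⟩
  have e1 := h1 C g h
  have e2 := e1.inv
  rw [e1.val_eq, val_nil, mul_one, inv_nil] at e2
  exact e2

theorem null_step {a b : P.Word} (h : FreeGroup.Red.Step a b) : P.Null a ↔ P.Null b := by
  cases h with
  | @not L₁ L₂ x c =>
    have key : ∀ (C : Set G) (g : G), P.Off C g (L₁ ++ (x, c) :: (x, !c) :: L₂) →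
        P.Htpy C g (L₁ ++ (x, c) :: (x, !c) :: L₂) (L₁ ++ L₂) := by
      intro C g ho
      have := Htpy.backtrack (P := P) (C := C) (g := g) L₁ L₂ (x, c) (by simpa using ho)
      simpa using this
    constructor
    · rintro ⟨T, hT, h1⟩
      refine ⟨T, hT, fun C g h => ?_⟩
      have e1 := h1 C g h
      exact Htpy.trans _ _ _ ((key C g e1.off.1).symm _ _) e1
    · rintro ⟨T, hT, h1⟩
      refine ⟨T ∪ pre (L₁ ++ (x, c) :: (x, !c) :: L₂), hT.union (pre_finite _),
        fun C g h => ?_⟩
      have e1 := h1 C g fun t ht => h t (Or.inl ht)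
      exact Htpy.trans _ _ _ (key C g (off_iff_pre.mpr fun t ht => h t (Or.inr ht))) e1

theorem null_red {a b : P.Word} (h : FreeGroup.Red a b) : P.Null a ↔ P.Null b := by
  induction h with
  | refl => rfl
  | tail _ h ih => exact ih.trans (null_step h)

theorem null_congr {a b : P.Word} (h : FreeGroup.mk a = FreeGroup.mk b) :
    P.Null a ↔ P.Null b := by
  obtain ⟨c, hac, hbc⟩ := FreeGroup.Red.exact.mp h
  exact (null_red hac).trans (null_red hbc).symm

/-- The elements of the free group whose loops can be filled in. -/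
def nullSubgroup (P : Pres G) : Subgroup (FreeGroup (Fin P.n)) where
  carrier := {x | P.Null x.toWord}
  one_mem' := by
    simpa using null_nil (P := P)
  mul_mem' := by
    intro a b ha hb
    refine (null_congr ?_).mp (ha.append hb)
    rw [FreeGroup.mk_toWord, ← FreeGroup.mul_mk, FreeGroup.mk_toWord, FreeGroup.mk_toWord]
  inv_mem' := by
    intro a ha
    refine (null_congr ?_).mp ha.inv
    rw [FreeGroup.mk_toWord, inv, ← FreeGroup.inv_mk, FreeGroup.mk_toWord]

theorem nullSubgroup_normal : P.nullSubgroup.Normal := by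
  constructor
  intro a ha g
  refine (null_congr ?_).mp (ha.conj g.toWord)
  rw [FreeGroup.mk_toWord, ← FreeGroup.mul_mk, ← FreeGroup.mul_mk, inv, ← FreeGroup.inv_mk,
    FreeGroup.mk_toWord, FreeGroup.mk_toWord]

theorem null_of_val [P.Complete] {w : P.Word} (hw : P.val w = 1) : P.Null w := by
  have h1 : FreeGroup.mk w ∈ (FreeGroup.lift P.gen).ker := hw
  rw [Complete.ker] at h1
  have h2 : Subgroup.normalClosure (FreeGroup.mk '' (P.rels : Set (List (Fin P.n × Bool))))
      ≤ P.nullSubgroup := by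
    have := nullSubgroup_normal (P := P)
    refine Subgroup.normalClosure_le_normal ?_
    rintro _ ⟨r, hr, rfl⟩
    refine (null_congr ?_).mp (null_rel hr)
    rw [FreeGroup.mk_toWord]
  refine (null_congr ?_).mp (h2 h1)
  rw [FreeGroup.mk_toWord]

/-- Two words with the same value are homotopic in a bounded neighbourhood. -/
theorem exists_fill [P.Complete] {a b : P.Word} (hab : P.val a = P.val b) :
    ∃ T : Set G, T.Finite ∧ ∀ (C : Set G) (g : G), (∀ t ∈ T, g * t ∉ C) → P.Htpy C g a b := by
  have h : P.val (a ++ P.inv b) = 1 := by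
    rw [val_append, val_inv, hab, mul_inv_cancel]
  obtain ⟨T, hT, h1⟩ := null_of_val h
  refine ⟨T ∪ pre b, hT.union (pre_finite b), fun C g h => ?_⟩
  have e1 := h1 C g fun t ht => h t (Or.inl ht)
  have ob : P.Off C g b := off_iff_pre.mpr fun t ht => h t (Or.inr ht)
  have oa := e1.off.1
  rw [off_append] at oa
  have e2 : P.Htpy C g (a ++ P.inv b ++ b) ([] ++ b) := e1.right b (by
    rw [e1.val_eq, val_nil, mul_one]
    exact ob)
  have e3 : P.Htpy C g (a ++ (P.inv b ++ b)) (a ++ []) :=
    (htpy_inv_left oa.2).left a rfl oa.1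
  rw [List.append_assoc, List.nil_append] at e2
  rw [List.append_nil] at e3
  exact Htpy.trans _ _ _ (e3.symm _ _) e2

/-- The complex is simply connected. -/
theorem htpy_empty [P.Complete] {a b : P.Word} (hab : P.val a = P.val b) (g : G) : P.Htpy ∅ g a b := by
  obtain ⟨T, _, h⟩ := exists_fill hab
  exact h ∅ g fun t _ => Set.notMem_empty _

end Pres

end SemiInf
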