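import Pool.Agent.SemiInf.Transfer

namespace SemiInf

open Filter

namespace Pres

variable {G : Type*} [Group G] {P : Pres G}

/-- A proper generalized ray with steps in a finite set of words with transfer is properly
homotopic to the periodic rays. -/
theorem ray_link {c : G} (hc : ¬ IsOfFinOrder c) {A : Set P.Word} (hA : A.Finite)
    (htr : ∀ w ∈ A, P.Tr c w) (C : Set G) (hC : C.Finite) :
    ∃ D : Set G, D.Finite ∧ (C = ∅ → D = ∅) ∧ ∀ (v : G) (r : ℕ → P.Word),
      (∀ n, r n ∈ A) → (∀ n, P.vertex v r n ∉ D) →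
      (∀ E : Set G, E.Finite → ∀ᶠ n in atTop, P.vertex v r n ∉ E) →
      ∀ e ∈ ({c, c⁻¹} : Set G), (∀ k : ℕ, v * e ^ k ∉ D) →
      P.Ladder C v [] (fun _ => P.wd e) r := by
  classical
  obtain ⟨K, K0, Kmono, hK⟩ := P.exists_exhaustion
  have hlev : ∀ k, ∃ D : Set G, D.Finite ∧ (C ∪ K k = ∅ → D = ∅) ∧ ∀ w ∈ A,
      ∀ v : G, ∀ e ∈ ({c, c⁻¹} : Set G), ∀ f ∈ ({c, c⁻¹} : Set G),
      (∀ k : ℕ, v * e ^ k ∉ D) → (∀ k : ℕ, v * P.val w * f ^ k ∉ D) →
      P.Ladder (C ∪ K k) v w (fun _ => P.wd e) (fun _ => P.wd f) := by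
    intro k
    have hfin : (C ∪ K k : Set G).Finite := hC.union (K k).finite_toSet
    choose! D hD hz hl using fun (w : P.Word) (hw : w ∈ A) => htr w hw (C ∪ K k) hfin
    refine ⟨⋃ w ∈ A, D w, hA.biUnion hD, fun h0 => ?_, fun w hw v e he f hf h1 h2 => ?_⟩
    · refine Set.eq_empty_of_forall_notMem fun y hy => ?_
      simp only [Set.mem_iUnion] at hy
      obtain ⟨w, hw, hy⟩ := hy
      rw [hz w hw h0] at hy
      exact hy
    · have hsub : D w ⊆ ⋃ w ∈ A, D w := Set.subset_biUnion_of_mem (u := D) hw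
      exact hl w hw v e he f hf (fun k hk => h1 k (hsub hk)) (fun k hk => h2 k (hsub hk))
  choose D0 hD0 hz0 hl0 using hlev
  -- make the sets increasing
  obtain ⟨D, hDdef⟩ : ∃ D : ℕ → Set G, ∀ k, D k = ⋃ j ∈ Finset.range (k + 1), D0 j :=
    ⟨_, fun k => rfl⟩
  have hDfin : ∀ k, (D k).Finite := fun k => by
    rw [hDdef]
    exact (Finset.finite_toSet _).biUnion fun j _ => hD0 j
  have hDsub : ∀ k, D0 k ⊆ D k := fun k x hx => by
    simp only [hDdef, Set.mem_iUnion]
    exact ⟨k, Finset.mem_range.mpr (Nat.lt_succ_self k), hx⟩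
  have hDmono : Monotone D := by
    intro a b hab x hx
    simp only [hDdef, Set.mem_iUnion, Finset.mem_range] at hx ⊢
    obtain ⟨j, hj, hx⟩ := hx
    exact ⟨j, by omega, hx⟩
  have hD00 : C = ∅ → D 0 = ∅ := by
    intro h0
    refine Set.eq_empty_of_forall_notMem fun x hx => ?_
    simp only [hDdef, Set.mem_iUnion, Finset.mem_range] at hx
    obtain ⟨j, hj, hx⟩ := hx
    have : j = 0 := by omega
    subst this
    rw [hz0 0 (by rw [h0, K0]; simp)] at hx
    exact hx
  choose D' hD' hz' hs' using fun k => exists_sign hc (hDfin k)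
  refine ⟨D 0 ∪ D' 0, (hDfin 0).union (hD' 0), fun h0 => ?_, ?_⟩
  · rw [hz' 0 (hD00 h0), hD00 h0]
    simp
  intro v r hr hoff hprop e he hve
  -- after the time `M k` the ray is outside `D' k`
  have hM : ∀ k, ∃ M, ∀ n, M ≤ n → P.vertex v r n ∉ D' k := fun k =>
    eventually_atTop.mp (hprop (D' k) (hD' k))
  choose M hM using hM
  -- the level at time `i`
  obtain ⟨lev, hlevdef⟩ : ∃ lev : ℕ → ℕ, ∀ i, lev i =
      Nat.findGreatest (fun k => ∀ j ≤ k, M j ≤ i) i := ⟨_, fun i => rfl⟩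
  have levout : ∀ i, P.vertex v r i ∉ D' (lev i) := by
    intro i
    by_cases h0 : lev i = 0
    · rw [h0]
      exact fun h => hoff i (Or.inr h)
    · have := Nat.findGreatest_of_ne_zero (P := fun k => ∀ j ≤ k, M j ≤ i)
        (hlevdef i).symm h0
      exact hM _ _ (this _ le_rfl)
  have levmono : Monotone lev := by
    refine monotone_nat_of_le_succ fun i => ?_
    by_cases h0 : lev i = 0
    · rw [h0]
      exact Nat.zero_le _
    · have h1 := Nat.findGreatest_of_ne_zero (P := fun k => ∀ j ≤ k, M j ≤ i)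
        (hlevdef i).symm h0
      have h2 : lev i ≤ i := by
        rw [hlevdef]
        exact Nat.findGreatest_le i
      rw [hlevdef (i + 1)]
      refine Nat.le_findGreatest (by omega) fun j hj => ?_
      have := h1 j hj
      omega
  have levtop : ∀ k, ∃ i, k ≤ lev i := by
    intro k
    refine ⟨k + ∑ j ∈ Finset.range (k + 1), M j, ?_⟩
    rw [hlevdef]
    refine Nat.le_findGreatest (by omega) ?_
    intro j hj
    have : M j ≤ ∑ j ∈ Finset.range (k + 1), M j :=
      Finset.single_le_sum (f := M) (fun _ _ => Nat.zero_le _)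
        (Finset.mem_range.mpr (by omega))
    omega
  have lev0 : lev 0 = 0 := by
    rw [hlevdef]
    exact Nat.findGreatest_zero
  -- directions
  have hdir : ∀ i, ∃ e' ∈ ({c, c⁻¹} : Set G), (i = 0 → e' = e) ∧
      ∀ k : ℕ, P.vertex v r i * e' ^ k ∉ D (lev i) := by
    intro i
    by_cases hi : i = 0
    · subst hi
      refine ⟨e, he, fun _ => rfl, fun k hk => ?_⟩
      rw [lev0] at hk
      exact hve k (Or.inl hk)
    · rcases hs' (lev i) _ (levout i) with h | h
      · exact ⟨c, Or.inl rfl, fun h0 => absurd h0 hi, h⟩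
      · exact ⟨c⁻¹, Or.inr rfl, fun h0 => absurd h0 hi, h⟩
  choose d hd hd0 hdk using hdir
  have hstack := stack (P := P) (fun i => C ∪ (K (lev i) : Set G)) ?_ ?_ v r
    (fun i _ => P.wd (d i)) ?_
  · rw [hd0 0 rfl] at hstack
    exact hstack.mono Set.subset_union_left
  · intro E hE
    obtain ⟨k, hk⟩ := eventually_atTop.mp (hK E hE)
    obtain ⟨i, hi⟩ := levtop k
    exact eventually_atTop.mpr ⟨i, fun j hj =>
      (hk _ (hi.trans (levmono hj))).trans Set.subset_union_right⟩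
  · intro i
    refine Set.union_subset_union_right _ ?_
    exact_mod_cast Kmono (levmono (Nat.zero_le i))
  · intro i
    refine Ladder.to_cons ?_
    refine hl0 (lev i) (r i) (hr i) (P.vertex v r i) (d i) (hd i) (d (i + 1)) (hd (i + 1))
      (fun k hk => hdk i k (hDsub _ hk)) (fun k hk => ?_)
    exact hdk (i + 1) k (hDmono (levmono (Nat.le_succ i)) (hDsub _ hk))

theorem Link.symm {c d : G} (h : P.Link c d) : P.Link d c := by
  intro C hC
  obtain ⟨D, hD, z, l⟩ := h C hC
  exact ⟨D, hD, z, fun v h1 h2 => (l v h2 h1).symm'⟩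

theorem link_of_tr [P.Complete] {c a : G} (hc : ¬ IsOfFinOrder c) (ha : ¬ IsOfFinOrder a) {w : P.Word}
    (hw : P.val w = a) (htr : P.Tr c w) : ∀ e ∈ ({c, c⁻¹} : Set G), P.Link e a := by
  intro e he C hC
  obtain ⟨D, hD, z, l⟩ := ray_link hc (Set.finite_singleton (P.wd a))
    (fun w' hw' => by
      rw [Set.mem_singleton_iff.mp hw']
      exact htr.congr (by rw [hw, val_wd])) C hC
  refine ⟨D, hD, z, fun v h1 h2 => ?_⟩
  refine l v (fun _ => P.wd a) (fun _ => rfl) (fun n => ?_) (fun E hE => ?_) e he h1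
  · rw [vertex_const, val_wd]
    exact h2 n
  · have := eventually_notMem ha v 1 hE
    filter_upwards [this] with n hn
    rw [vertex_const, val_wd]
    simpa using hn

/-- The four links of an element with its inverse. -/
def Switch (P : Pres G) (c : G) : Prop :=
  ∀ e ∈ ({c, c⁻¹} : Set G), ∀ f ∈ ({c, c⁻¹} : Set G), P.Link e f

/-- The subgroup of the elements with transfer. -/
def trSubgroup (P : Pres G) [P.Complete] (c : G) (hc : ¬ IsOfFinOrder c) (hs : P.Switch c) :
    Subgroup G where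
  carrier := {g | ∀ w : P.Word, P.val w = g → P.Tr c w}
  one_mem' := fun w hw =>
    (Tr.nil (hs _ (Or.inl rfl) _ (Or.inl rfl)) (hs _ (Or.inl rfl) _ (Or.inr rfl))
      (hs _ (Or.inr rfl) _ (Or.inl rfl)) (hs _ (Or.inr rfl) _ (Or.inr rfl))).congr
      (by rw [hw, val_nil])
  mul_mem' := fun {x y} hx hy w hw =>
    ((hx (P.wd x) (P.val_wd x)).append hc (hy (P.wd y) (P.val_wd y))).congr (by
      rw [val_append, val_wd, val_wd, hw])
  inv_mem' := fun {x} hx w hw =>
    (hx (P.wd x) (P.val_wd x)).inv.congr (by rw [val_inv, val_wd, hw])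

variable [P.Complete] {c : G} {hc : ¬ IsOfFinOrder c} {hs : P.Switch c}

theorem link_of_mem {a : G} (ha : ¬ IsOfFinOrder a) (hmem : a ∈ P.trSubgroup c hc hs) :
    ∀ e ∈ ({c, c⁻¹} : Set G), ∀ g ∈ ({a, a⁻¹} : Set G), P.Link e g := by
  rintro e he g (rfl | rfl)
  · exact link_of_tr hc ha (P.val_wd _) (hmem _ (P.val_wd _)) e he
  · exact link_of_tr hc (not_isOfFinOrder_inv ha) (P.val_wd _)
      (inv_mem hmem _ (P.val_wd _)) e he

theorem not_isOfFinOrder_conj {a s : G} (ha : ¬ IsOfFinOrder a) :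
    ¬ IsOfFinOrder (s⁻¹ * a * s) := by
  intro hfin
  apply ha
  have h1 := (MulAut.conj s).toMonoidHom.isOfFinOrder hfin
  have h2 : (MulAut.conj s).toMonoidHom (s⁻¹ * a * s) = a := by
    simp [MulAut.conj_apply, mul_assoc]
  rwa [h2] at h1

theorem conj_inv_mem {K : Subgroup G} {a s : G} (h : s⁻¹ * a * s ∈ K) :
    s⁻¹ * a⁻¹ * s ∈ K := by
  have := inv_mem h
  rw [mul_inv_rev, mul_inv_rev, _root_.inv_inv, ← mul_assoc] at this
  exact this

theorem self_mem : c ∈ P.trSubgroup c hc hs := by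
  intro w hw
  refine tr_of_conj hc (fun e he g hg => hs e he g hg) (fun f hf g hg => ?_)
  have : (P.val w)⁻¹ * g * P.val w = g := by
    rw [hw]
    rcases hg with rfl | rfl <;> group
  rw [this]
  exact hs g hg f hf

/-- The subgroup of the elements with transfer contains every element which conjugates one
of its elements of infinite order into it. -/
theorem conj_mem {g a : G} (ha : ¬ IsOfFinOrder a) (h1 : a ∈ P.trSubgroup c hc hs)
    (h2 : g⁻¹ * a * g ∈ P.trSubgroup c hc hs) : g ∈ P.trSubgroup c hc hs := by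
  intro w hw
  refine tr_of_conj ha (link_of_mem ha h1) (fun f hf b hb => ?_)
  rw [hw]
  rcases hb with rfl | rfl
  · exact (link_of_mem (not_isOfFinOrder_conj ha) h2 f hf _ (Or.inl rfl)).symm
  · exact (link_of_mem (not_isOfFinOrder_conj (not_isOfFinOrder_inv ha)) (conj_inv_mem h2)
      f hf _ (Or.inl rfl)).symm

theorem subgroup_le {H : Subgroup G} (Q : Pres H) (hone : Q.OneEnded) (hsemi : Q.Semistable)
    {a : G} (ha : ¬ IsOfFinOrder a) (h1 : a ∈ H) (h2 : a ∈ P.trSubgroup c hc hs) :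
    H ≤ P.trSubgroup c hc hs := by
  intro g hg w hw
  refine tr_of_conj ha (link_of_mem ha h2) (fun f hf b hb => ?_)
  rw [hw]
  have hb' : ¬ IsOfFinOrder b ∧ b ∈ H := by
    rcases hb with rfl | rfl
    · exact ⟨ha, h1⟩
    · exact ⟨not_isOfFinOrder_inv ha, inv_mem h1⟩
  have hconj : g⁻¹ * b * g ∈ H := mul_mem (mul_mem (inv_mem hg) hb'.2) hg
  have hcf := not_isOfFinOrder_conj (s := g) hb'.1
  have l1 := link_of_subgroup P hone hsemi hconj h1 hcf ha
  have l2 := link_of_subgroup P hone hsemi hconj (inv_mem h1) hcf (not_isOfFinOrder_inv ha)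
  exact Link.trans ha l1 l2 (link_of_mem ha h2 f hf a (Or.inl rfl)).symm
    (link_of_mem ha h2 f hf a⁻¹ (Or.inr rfl)).symm

theorem switch_of_subgroup (P : Pres G) [P.Complete] {H : Subgroup G} (Q : Pres H) (hone : Q.OneEnded)
    (hsemi : Q.Semistable) {a : G} (ha : ¬ IsOfFinOrder a) (h1 : a ∈ H) : P.Switch a := by
  have key : ∀ g ∈ ({a, a⁻¹} : Set G), ¬ IsOfFinOrder g ∧ g ∈ H := by
    rintro g (rfl | rfl)
    · exact ⟨ha, h1⟩
    · exact ⟨not_isOfFinOrder_inv ha, inv_mem h1⟩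
  intro e he f hf
  exact link_of_subgroup P hone hsemi (key e he).2 (key f hf).2 (key e he).1 (key f hf).1

end Pres

end SemiInf
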