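import Mathlib

namespace SemiInf

open Filter

section Konig

variable {V : Type*} (adj : V → V → Prop)

/-- `z` can be reached from `y` in `m` steps. -/
def reach : ℕ → V → V → Prop
  | 0, y, z => y = z
  | m + 1, y, z => ∃ y', adj y y' ∧ reach m y' z

variable {adj}

theorem reach_add {m k : ℕ} {x y z : V} (h : reach adj m x y) (h' : reach adj k y z) :
    reach adj (m + k) x z := by
  induction m generalizing x with
  | zero =>
    have : x = y := h
    subst this
    simpa using h'
  | succ m ih =>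
    obtain ⟨x', hx', hr⟩ := h
    have e : m + 1 + k = (m + k) + 1 := by omega
    rw [e]
    exact ⟨x', hx', ih hr⟩

theorem exists_reach {x y : V} (h : Relation.ReflTransGen adj x y) : ∃ m, reach adj m x y := by
  induction h with
  | refl => exact ⟨0, rfl⟩
  | tail _ hbc ih =>
    obtain ⟨m, hm⟩ := ih
    exact ⟨m + 1, reach_add hm ⟨_, hbc, rfl⟩⟩

/-- König's lemma. -/
theorem exists_ray (hfin : ∀ x, {y | adj x y}.Finite) (x : V)
    (hinf : {y | Relation.ReflTransGen adj x y}.Infinite) :
    ∃ f : ℕ → V, f 0 = x ∧ (∀ n, adj (f n) (f (n + 1))) ∧ Function.Injective f := by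
  classical
  let d : V → ℕ := fun z => sInf {m | reach adj m x z}
  have hd1 : ∀ z m, reach adj m x z → d z ≤ m := fun z m h => Nat.sInf_le h
  have hd2 : ∀ z m, reach adj m x z → reach adj (d z) x z := fun z m h =>
    Nat.sInf_mem (s := {m | reach adj m x z}) ⟨m, h⟩
  let T : V → Set V := fun y => {z | ∃ m, reach adj m y z ∧ d z = d y + m}
  have hdx : d x = 0 := Nat.le_zero.mp (hd1 x 0 rfl)
  have hTx : (T x).Infinite := by
    refine hinf.mono ?_
    intro z hz
    obtain ⟨m, hm⟩ := exists_reach hz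
    exact ⟨d z, hd2 z m hm, by rw [hdx, zero_add]⟩
  have step : ∀ y, (∃ m, reach adj m x y) → (T y).Infinite →
      ∃ y', adj y y' ∧ d y' = d y + 1 ∧ (∃ m, reach adj m x y') ∧ (T y').Infinite := by
    rintro y ⟨m, hm⟩ hT
    by_contra hcon
    push Not at hcon
    apply hT
    have hsub : T y ⊆ {y} ∪ ⋃ y' ∈ {y' | adj y y' ∧ d y' = d y + 1}, T y' := by
      rintro z ⟨k, hk, hdz⟩
      cases k with
      | zero => exact Or.inl (show z = y from (show y = z from hk).symm)
      | succ k =>
        obtain ⟨y', hy', hk'⟩ := hk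
        have h1 : reach adj (d y + 1) x y' := reach_add (hd2 y m hm) ⟨y', hy', rfl⟩
        have h2 := hd1 y' _ h1
        have h3 : reach adj (d y' + k) x z := reach_add (hd2 y' _ h1) hk'
        have h4 := hd1 z _ h3
        refine Or.inr (Set.mem_biUnion (show adj y y' ∧ d y' = d y + 1 from
          ⟨hy', by omega⟩) ⟨k, hk', by omega⟩)
    refine Set.Finite.subset ((Set.finite_singleton y).union ?_) hsub
    refine ((hfin y).subset fun y' hy' => hy'.1).biUnion fun y' hy' => ?_
    have h1 : reach adj (d y + 1) x y' := reach_add (hd2 y m hm) ⟨y', hy'.1, rfl⟩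
    exact hcon y' hy'.1 hy'.2 ⟨_, h1⟩
  choose g hg1 hg2 hg3 hg4 using step
  let S : ℕ → {y : V // (∃ m, reach adj m x y) ∧ (T y).Infinite} := fun n =>
    Nat.rec ⟨x, ⟨0, rfl⟩, hTx⟩ (fun _ s => ⟨g s.1 s.2.1 s.2.2, hg3 _ _ _, hg4 _ _ _⟩) n
  have hS : ∀ n, (S (n + 1)).1 = g (S n).1 (S n).2.1 (S n).2.2 := fun n => rfl
  have hdS : ∀ n, d (S n).1 = n := by
    intro n
    induction n with
    | zero => exact hdx
    | succ n ih => rw [hS, hg2, ih]
  refine ⟨fun n => (S n).1, rfl, fun n => ?_, fun a b hab => ?_⟩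
  · beta_reduce
    rw [hS]
    exact hg1 _ _ _
  · have := congrArg d hab
    simpa [hdS] using this

/-- Outside a finite set of vertices, all but finitely many vertices can escape to infinity
avoiding the given finite set. -/
theorem exists_escape (hsymm : ∀ x y, adj x y → adj y x) (hfin : ∀ x, {y | adj x y}.Finite)
    (hinf : ∀ x, {y | Relation.ReflTransGen adj x y}.Infinite) (N : Set V) (hN : N.Finite) :
    ∃ F : Set V, F.Finite ∧ (N = ∅ → F = ∅) ∧ ∀ x, x ∉ N → x ∉ F → ∃ f : ℕ → V, f 0 = x ∧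
      (∀ n, adj (f n) (f (n + 1))) ∧ Function.Injective f ∧ ∀ n, f n ∉ N := by
  classical
  let adjG : V → V → Prop := fun x y => adj x y ∧ x ∉ N ∧ y ∉ N
  have adjG_symm : ∀ x y, adjG x y → adjG y x := fun x y h => ⟨hsymm _ _ h.1, h.2.2, h.2.1⟩
  have rev : ∀ x y, Relation.ReflTransGen adjG x y → Relation.ReflTransGen adjG y x := by
    intro x y h
    induction h with
    | refl => exact Relation.ReflTransGen.refl
    | tail _ h ih => exact Relation.ReflTransGen.head (adjG_symm _ _ h) ih
  have reach_good : ∀ x y, x ∉ N → Relation.ReflTransGen adjG x y → y ∉ N := by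
    intro x y hx h
    induction h with
    | refl => exact hx
    | tail _ h _ => exact h.2.2
  have step1 : ∀ x, x ∉ N → {y | Relation.ReflTransGen adjG x y}.Finite →
      ∃ y z, Relation.ReflTransGen adjG x y ∧ adj y z ∧ z ∈ N := by
    intro x hx hf
    by_contra hcon
    push Not at hcon
    apply hinf x
    refine hf.subset ?_
    intro y hy
    induction hy with
    | refl => exact Relation.ReflTransGen.refl
    | tail _ h ih => exact ih.tail ⟨h, reach_good _ _ hx ih, hcon _ _ ih h⟩
  refine ⟨{x | x ∉ N ∧ {y | Relation.ReflTransGen adjG x y}.Finite}, ?_, ?_, ?_⟩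
  · refine Set.Finite.subset (s := ⋃ z ∈ N, ⋃ y ∈ {y | adj z y ∧
      {M | Relation.ReflTransGen adjG y M}.Finite}, {M | Relation.ReflTransGen adjG y M})
      ?_ ?_
    · refine hN.biUnion fun z _ => ?_
      exact ((hfin z).subset fun y h => h.1).biUnion fun y h => h.2
    · rintro x ⟨hx, hf⟩
      obtain ⟨y, z, h1, h2, h3⟩ := step1 x hx hf
      refine Set.mem_biUnion h3 ?_
      refine Set.mem_biUnion (show y ∈ {y | adj z y ∧
        {M | Relation.ReflTransGen adjG y M}.Finite} from ⟨hsymm _ _ h2, ?_⟩) (rev _ _ h1)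
      exact hf.subset fun M hM => h1.trans hM
  · rintro rfl
    refine Set.eq_empty_of_forall_notMem fun x hx => ?_
    obtain ⟨y, z, _, _, h3⟩ := step1 x hx.1 hx.2
    exact h3
  · intro x hx hxF
    have hinfR : {y | Relation.ReflTransGen adjG x y}.Infinite := fun hf => hxF ⟨hx, hf⟩
    obtain ⟨f, hf0, hf1, hfinj⟩ := exists_ray (adj := adjG)
      (fun x => (hfin x).subset fun y h => h.1) x hinfR
    exact ⟨f, hf0, fun n => (hf1 n).1, hfinj, fun n => (hf1 n).2.1⟩

end Konig

/-- A slowly increasing level function. -/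
theorem exists_level (A : ℕ → ℕ → Prop) (h0 : ∀ i, A 0 i) (h : ∀ k, ∀ᶠ i in atTop, A k i) :
    ∃ lev : ℕ → ℕ, lev 0 = 0 ∧ Monotone lev ∧ (∀ k, ∃ i, k ≤ lev i) ∧ ∀ i, A (lev i) i := by
  have hM : ∀ k, ∃ M, ∀ n, M ≤ n → A k n := fun k => eventually_atTop.mp (h k)
  choose M hM using hM
  obtain ⟨lev, hlevdef⟩ : ∃ lev : ℕ → ℕ, ∀ i, lev i =
      Nat.findGreatest (fun k => ∀ j ≤ k, M j ≤ i) i := ⟨_, fun i => rfl⟩
  refine ⟨lev, ?_, ?_, ?_, ?_⟩
  · rw [hlevdef]
    exact Nat.findGreatest_zero
  · refine monotone_nat_of_le_succ fun i => ?_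
    by_cases h0 : lev i = 0
    · rw [h0]
      exact Nat.zero_le _
    · have h1 := Nat.findGreatest_of_ne_zero (P := fun k => ∀ j ≤ k, M j ≤ i)
        (hlevdef i).symm h0
      have h2 : lev i ≤ i := by
        rw [hlevdef]
        exact Nat.findGreatest_le i
      rw [hlevdef (i + 1)]
      refine Nat.le_findGreatest (by omega) fun j hj => ?_
      have := h1 j hj
      omega
  · intro k
    refine ⟨k + ∑ j ∈ Finset.range (k + 1), M j, ?_⟩
    rw [hlevdef]
    refine Nat.le_findGreatest (by omega) ?_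
    intro j hj
    have : M j ≤ ∑ j ∈ Finset.range (k + 1), M j :=
      Finset.single_le_sum (f := M) (fun _ _ => Nat.zero_le _)
        (Finset.mem_range.mpr (by omega))
    omega
  · intro i
    by_cases h1 : lev i = 0
    · rw [h1]
      exact h0 i
    · have := Nat.findGreatest_of_ne_zero (P := fun k => ∀ j ≤ k, M j ≤ i)
        (hlevdef i).symm h1
      exact hM _ _ (this _ le_rfl)

end SemiInf
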