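import Pool.Agent.SemiInf.Fill

namespace SemiInf

open Filter

/-- `A C n` holds for all `n`, and for every finite `E`, `A E n` holds for large `n`. -/
def Ev {G : Type*} (C : Set G) (A : Set G → ℕ → Prop) : Prop :=
  (∀ n, A C n) ∧ ∀ E : Set G, E.Finite → ∀ᶠ n in atTop, A E n

theorem Ev.imp {G : Type*} {C : Set G} {A B : Set G → ℕ → Prop} (hA : Ev C A)
    (h : ∀ E n, A E n → B E n) : Ev C B :=
  ⟨fun n => h _ _ (hA.1 n), fun E hE => (hA.2 E hE).mono fun _ hn => h _ _ hn⟩

theorem Ev.imp₂ {G : Type*} {C : Set G} {A A' B : Set G → ℕ → Prop} (hA : Ev C A)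
    (hA' : Ev C A') (h : ∀ E n, A E n → A' E n → B E n) : Ev C B :=
  ⟨fun n => h _ _ (hA.1 n) (hA'.1 n), fun E hE =>
    ((hA.2 E hE).and (hA'.2 E hE)).mono fun _ hn => h _ _ hn.1 hn.2⟩

theorem Ev.mono {G : Type*} {C D : Set G} {A : Set G → ℕ → Prop} (hA : Ev D A)
    (h : ∀ n, A D n → A C n) : Ev C A :=
  ⟨fun n => h _ (hA.1 n), hA.2⟩

theorem Ev.forall_ge {G : Type*} {C : Set G} {A : Set G → ℕ → Prop} (hA : Ev C A) :
    Ev C (fun E n => ∀ m, n ≤ m → A E m) := by
  refine ⟨fun _ m _ => hA.1 m, fun E hE => ?_⟩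
  obtain ⟨N, hN⟩ := eventually_atTop.mp (hA.2 E hE)
  exact eventually_atTop.mpr ⟨N, fun n hn m hm => hN m (hn.trans hm)⟩

theorem Ev.succ {G : Type*} {C : Set G} {A : Set G → ℕ → Prop} (hA : Ev C A) :
    Ev C (fun E n => A E (n + 1)) :=
  hA.forall_ge.imp fun _ n h => h (n + 1) (Nat.le_succ n)

/-- A statement about `n + 1`, together with one about `0`. -/
theorem Ev.of_succ {G : Type*} {C : Set G} {A : Set G → ℕ → Prop} (h0 : A C 0)
    (hA : Ev C fun E n => A E (n + 1)) : Ev C A := by
  refine ⟨fun n => ?_, fun E hE => ?_⟩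
  · cases n with
    | zero => exact h0
    | succ n => exact hA.1 n
  · obtain ⟨N, hN⟩ := eventually_atTop.mp (hA.2 E hE)
    refine eventually_atTop.mpr ⟨N + 1, fun n hn => ?_⟩
    obtain ⟨m, rfl⟩ : ∃ m, n = m + 1 := ⟨n - 1, by omega⟩
    exact hN m (by omega)

namespace Pres

variable {G : Type*} [Group G] {P : Pres G}

/-! ### Segments -/

/-- The concatenation of `u a`, ..., `u (a + k - 1)`. -/
def seg (u : ℕ → P.Word) (a : ℕ) : ℕ → P.Word
  | 0 => []
  | k + 1 => seg u a k ++ u (a + k)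

@[simp] theorem seg_zero (u : ℕ → P.Word) (a : ℕ) : seg u a 0 = [] := rfl

theorem seg_succ (u : ℕ → P.Word) (a k : ℕ) : seg u a (k + 1) = seg u a k ++ u (a + k) := rfl

theorem seg_add (u : ℕ → P.Word) (a k l : ℕ) :
    seg u a (k + l) = seg u a k ++ seg u (a + k) l := by
  induction l with
  | zero => simp
  | succ l ih => rw [← add_assoc, seg_succ, ih, seg_succ, List.append_assoc, add_assoc]

theorem seg_one (u : ℕ → P.Word) (a : ℕ) : seg u a 1 = u a := by
  simp [seg]

theorem seg_succ' (u : ℕ → P.Word) (a k : ℕ) : seg u a (k + 1) = u a ++ seg u (a + 1) k := by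
  rw [add_comm k 1, seg_add, seg_one]

theorem vertex_zero (v : G) (u : ℕ → P.Word) : P.vertex v u 0 = v := rfl

theorem vertex_succ (v : G) (u : ℕ → P.Word) (n : ℕ) :
    P.vertex v u (n + 1) = P.vertex v u n * P.val (u n) := rfl

theorem vertex_add (v : G) (u : ℕ → P.Word) (a k : ℕ) :
    P.vertex v u (a + k) = P.vertex v u a * P.val (seg u a k) := by
  induction k with
  | zero => simp
  | succ k ih => rw [← add_assoc, vertex_succ, ih, seg_succ, val_append, mul_assoc]

theorem vertex_eq_seg (v : G) (u : ℕ → P.Word) (k : ℕ) :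
    P.vertex v u k = v * P.val (seg u 0 k) := by
  have := vertex_add v u 0 k
  rwa [zero_add] at this

/-- Put a word in front. -/
def cons (w : P.Word) (u : ℕ → P.Word) : ℕ → P.Word
  | 0 => w
  | n + 1 => u n

theorem cons_zero (w : P.Word) (u : ℕ → P.Word) : cons w u 0 = w := rfl

theorem cons_succ (w : P.Word) (u : ℕ → P.Word) (n : ℕ) : cons w u (n + 1) = u n := rfl

theorem vertex_cons_succ (v : G) (w : P.Word) (u : ℕ → P.Word) (n : ℕ) :
    P.vertex v (cons w u) (n + 1) = P.vertex (v * P.val w) u n := by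
  induction n with
  | zero => rfl
  | succ n ih => rw [vertex_succ, ih, cons_succ, vertex_succ]

/-! ### Generalized rays and ladders -/

/-- A proper generalized ray outside `C`. -/
def GRay (P : Pres G) (C : Set G) (v : G) (u : ℕ → P.Word) : Prop :=
  Ev C fun E n => P.Off E (P.vertex v u n) (u n)

/-- A proper homotopy outside `C` between the generalized rays `(v, u)` and
`(v * val t₀, u')`, with first rung `t₀`. -/
def Ladder (P : Pres G) (C : Set G) (v : G) (t₀ : P.Word) (u u' : ℕ → P.Word) : Prop :=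
  ∃ t : ℕ → P.Word, t 0 = t₀ ∧
    Ev C fun E n => P.Htpy E (P.vertex v u n) (u n ++ t (n + 1)) (t n ++ u' n)

theorem GRay.mono {C D : Set G} (hCD : C ⊆ D) {v : G} {u : ℕ → P.Word} (h : P.GRay D v u) :
    P.GRay C v u := Ev.mono h fun _ hn => hn.mono hCD

theorem Ladder.mono {C D : Set G} (hCD : C ⊆ D) {v : G} {t₀ : P.Word} {u u' : ℕ → P.Word}
    (h : P.Ladder D v t₀ u u') : P.Ladder C v t₀ u u' := by
  obtain ⟨t, h0, h1⟩ := h
  exact ⟨t, h0, Ev.mono h1 fun _ hn => hn.mono hCD⟩

theorem vertex_rung {v : G} {u u' t : ℕ → P.Word}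
    (h : ∀ n, P.val (u n ++ t (n + 1)) = P.val (t n ++ u' n)) (n : ℕ) :
    P.vertex v u n * P.val (t n) = P.vertex (v * P.val (t 0)) u' n := by
  induction n with
  | zero => rfl
  | succ n ih =>
    have := h n
    rw [val_append, val_append] at this
    rw [vertex_succ, mul_assoc, this, ← mul_assoc, ih, vertex_succ]

theorem Ladder.left_ray {C : Set G} {v : G} {t₀ : P.Word} {u u' : ℕ → P.Word}
    (h : P.Ladder C v t₀ u u') : P.GRay C v u := by
  obtain ⟨t, _, h1⟩ := h
  exact h1.imp fun E n hn => (off_append.mp hn.off.1).1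

theorem Ladder.right_ray {C : Set G} {v : G} {t₀ : P.Word} {u u' : ℕ → P.Word}
    (h : P.Ladder C v t₀ u u') : P.GRay C (v * P.val t₀) u' := by
  obtain ⟨t, rfl, h1⟩ := h
  refine h1.imp fun E n hn => ?_
  have := (off_append.mp hn.off.2).2
  rwa [vertex_rung (u' := u') fun n => (h1.1 n).val_eq] at this

theorem GRay.refl {C : Set G} {v : G} {u : ℕ → P.Word} (h : P.GRay C v u) :
    P.Ladder C v [] u u := by
  refine ⟨fun _ => [], rfl, h.imp fun E n hn => ?_⟩
  rw [List.append_nil, List.nil_append]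
  exact Htpy.refl _ hn

theorem Ladder.trans {C : Set G} {v : G} {t₀ s₀ : P.Word} {u u' u'' : ℕ → P.Word}
    (h : P.Ladder C v t₀ u u') (h' : P.Ladder C (v * P.val t₀) s₀ u' u'') :
    P.Ladder C v (t₀ ++ s₀) u u'' := by
  obtain ⟨t, rfl, h1⟩ := h
  obtain ⟨s, rfl, h2⟩ := h'
  refine ⟨fun n => t n ++ s n, rfl, h1.imp₂ h2 fun E n a b => ?_⟩
  have hv := vertex_rung (v := v) (u' := u') (fun n => (h1.1 n).val_eq) n
  have e1 := a.right (s (n + 1)) (by
    rw [a.val_eq, val_append, ← mul_assoc, hv]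
    exact (off_append.mp b.off.1).2)
  have e2 := b.left (t n) hv.symm (off_append.mp a.off.2).1
  simp only [List.append_assoc] at e1 e2 ⊢
  exact Htpy.trans _ _ _ e1 e2

theorem Ladder.trans' {C : Set G} {v : G} {s₀ : P.Word} {u u' u'' : ℕ → P.Word}
    (h : P.Ladder C v [] u u') (h' : P.Ladder C v s₀ u' u'') :
    P.Ladder C v s₀ u u'' := by
  have := h.trans (s₀ := s₀) (u'' := u'') (by simpa using h')
  simpa using this

theorem Ladder.trans'' {C : Set G} {v : G} {t₀ : P.Word} {u u' u'' : ℕ → P.Word}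
    (h : P.Ladder C v t₀ u u') (h' : P.Ladder C (v * P.val t₀) [] u' u'') :
    P.Ladder C v t₀ u u'' := by
  have := h.trans h'
  simpa using this

theorem Ladder.symm {C : Set G} {v : G} {t₀ : P.Word} {u u' : ℕ → P.Word}
    (h : P.Ladder C v t₀ u u') : P.Ladder C (v * P.val t₀) (P.inv t₀) u' u := by
  obtain ⟨t, rfl, h1⟩ := h
  refine ⟨fun n => P.inv (t n), rfl, h1.imp fun E n a => ?_⟩
  rw [← vertex_rung (u' := u') (fun n => (h1.1 n).val_eq) n]
  exact a.turn

theorem Ladder.symm' {C : Set G} {v : G} {u u' : ℕ → P.Word}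
    (h : P.Ladder C v [] u u') : P.Ladder C v [] u' u := by
  have := h.symm
  simpa using this

/-- Change the first rung by a homotopy. -/
theorem Ladder.change {C : Set G} {v : G} {t₀ s₀ : P.Word} {u u' : ℕ → P.Word}
    (h : P.Ladder C v t₀ u u') (hs : P.Htpy C v t₀ s₀) : P.Ladder C v s₀ u u' := by
  obtain ⟨t, rfl, h1⟩ := h
  refine ⟨cons s₀ (fun n => t (n + 1)), rfl, Ev.of_succ ?_ ?_⟩
  · have a := h1.1 0
    exact Htpy.trans _ _ _ a (hs.right _ (off_append.mp a.off.2).2)
  · exact h1.succ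

theorem Ladder.cons_cons {C : Set G} {v : G} {w : P.Word} {u u' : ℕ → P.Word}
    (h : P.Ladder C (v * P.val w) [] u u') (hw : P.Off C v w) :
    P.Ladder C v [] (cons w u) (cons w u') := by
  obtain ⟨t, h0, h1⟩ := h
  refine ⟨cons [] t, rfl, Ev.of_succ ?_ ?_⟩
  · change P.Htpy C v (w ++ t 0) ([] ++ w)
    rw [h0, List.append_nil, List.nil_append]
    exact Htpy.refl _ hw
  · refine h1.imp fun E n a => ?_
    rw [vertex_cons_succ]
    exact a

theorem ladder_shift {C : Set G} {v : G} {w : P.Word} {u : ℕ → P.Word} (hw : P.Off C v w)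
    (hu : P.GRay C (v * P.val w) u) : P.Ladder C v w (cons w u) u := by
  refine ⟨cons w u, rfl, Ev.of_succ ?_ ?_⟩
  · refine Htpy.refl _ ?_
    rw [off_append]
    exact ⟨hw, hu.1 0⟩
  · refine hu.forall_ge.imp fun E n a => ?_
    rw [vertex_cons_succ]
    refine Htpy.refl _ ?_
    rw [off_append]
    exact ⟨a n le_rfl, a (n + 1) (Nat.le_succ n)⟩

theorem ladder_pointwise {C : Set G} {v : G} {u u' : ℕ → P.Word}
    (h : Ev C fun E n => P.Htpy E (P.vertex v u n) (u n) (u' n)) : P.Ladder C v [] u u' := by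
  refine ⟨fun _ => [], rfl, h.imp fun E n a => ?_⟩
  simpa using a

/-- From a ladder with first rung `w` to one with the ray `cons w u'`. -/
theorem Ladder.to_cons {C : Set G} {v : G} {w : P.Word} {u u' : ℕ → P.Word}
    (h : P.Ladder C v w u u') : P.Ladder C v [] u (cons w u') := by
  have hw : P.Off C v w := by
    obtain ⟨t, rfl, h1⟩ := h
    exact (off_append.mp (h1.1 0).off.2).1
  have h1 := (ladder_shift hw h.right_ray).symm
  exact (h.trans h1).change (htpy_inv_right hw)

/-! ### Regrouping -/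

theorem off_seg {E : Set G} {v : G} {u : ℕ → P.Word} {a : ℕ}
    (h : ∀ m, a ≤ m → P.Off E (P.vertex v u m) (u m)) (k : ℕ) :
    P.Off E (P.vertex v u a) (seg u a k) := by
  induction k with
  | zero =>
    rw [seg_zero, off_nil]
    exact (h a le_rfl).start
  | succ k ih =>
    rw [seg_succ, off_append, ← vertex_add]
    exact ⟨ih, h _ (Nat.le_add_right _ _)⟩

theorem vertex_regroup {v : G} {u : ℕ → P.Word} {N : ℕ → ℕ} (N0 : N 0 = 0)
    (hmono : Monotone N) (n : ℕ) :
    P.vertex v (fun n => seg u (N n) (N (n + 1) - N n)) n = P.vertex v u (N n) := by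
  induction n with
  | zero => rw [N0]; rfl
  | succ n ih =>
    rw [vertex_succ, ih, ← vertex_add, Nat.add_sub_cancel' (hmono (Nat.le_succ n))]

theorem GRay.regroup {C : Set G} {v : G} {u : ℕ → P.Word} {N : ℕ → ℕ} (N0 : N 0 = 0)
    (hmono : Monotone N) (hN : ∀ n, n ≤ N n) (h : P.GRay C v u) :
    P.Ladder C v [] u (fun n => seg u (N n) (N (n + 1) - N n)) := by
  refine ⟨fun n => seg u n (N n - n), by simp [N0], h.forall_ge.imp fun E n a => ?_⟩
  have e1 : u n ++ seg u (n + 1) (N (n + 1) - (n + 1)) = seg u n (N (n + 1) - n) := by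
    rw [← seg_succ']
    congr 1
    have := hN (n + 1)
    omega
  have e2 : seg u n (N n - n) ++ seg u (N n) (N (n + 1) - N n) = seg u n (N (n + 1) - n) := by
    have h1 := hN n
    have h2 : N n ≤ N (n + 1) := hmono (Nat.le_succ n)
    have h3 : N (n + 1) - n = (N n - n) + (N (n + 1) - N n) := by omega
    have h4 : n + (N n - n) = N n := by omega
    rw [h3, seg_add, h4]
  change P.Htpy E (P.vertex v u n) (u n ++ seg u (n + 1) (N (n + 1) - (n + 1)))
    (seg u n (N n - n) ++ seg u (N n) (N (n + 1) - N n))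
  rw [e1, e2]
  exact Htpy.refl _ (off_seg a _)

/-- A ray is outside `C` and proper if a regrouped ray is. -/
theorem GRay.of_regroup {C : Set G} {v : G} {u : ℕ → P.Word} {N : ℕ → ℕ} (N0 : N 0 = 0)
    (hmono : Monotone N) (hN : ∀ n, n ≤ N n)
    (h : P.GRay C v (fun n => seg u (N n) (N (n + 1) - N n))) : P.GRay C v u := by
  -- the block which contains `m`
  have block : ∀ m, ∃ n, N n ≤ m ∧ m < N (n + 1) := by
    intro m
    have hex : ∃ k, m < N k := ⟨m + 1, hN (m + 1)⟩
    classical
    have h1 := Nat.find_spec hex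
    have h0 : Nat.find hex ≠ 0 := by
      intro h0
      rw [h0, N0] at h1
      omega
    obtain ⟨n, hn⟩ := Nat.exists_eq_succ_of_ne_zero h0
    refine ⟨n, ?_, ?_⟩
    · have := Nat.find_min hex (m := n) (by omega)
      omega
    · rw [hn] at h1
      exact h1
  have key : ∀ E m n, N n ≤ m → m < N (n + 1) →
      P.Off E (P.vertex v (fun n => seg u (N n) (N (n + 1) - N n)) n)
        (seg u (N n) (N (n + 1) - N n)) → P.Off E (P.vertex v u m) (u m) := by
    intro E m n h1 h2 ho
    rw [vertex_regroup N0 hmono] at ho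
    obtain ⟨j, rfl⟩ := Nat.exists_eq_add_of_le h1
    have e1 : N (n + 1) - N n = j + (1 + (N (n + 1) - N n - (j + 1))) := by omega
    rw [e1, seg_add, seg_add, seg_one, off_append, off_append, ← vertex_add] at ho
    exact ho.2.1
  refine ⟨fun m => ?_, fun E hE => ?_⟩
  · obtain ⟨n, h1, h2⟩ := block m
    exact key C m n h1 h2 (h.1 n)
  · obtain ⟨n₀, hn₀⟩ := eventually_atTop.mp (h.2 E hE)
    refine eventually_atTop.mpr ⟨N n₀, fun m hm => ?_⟩
    obtain ⟨n, h1, h2⟩ := block m
    refine key E m n h1 h2 (hn₀ n ?_)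
    by_contra hlt
    have : N (n + 1) ≤ N n₀ := hmono (by omega)
    omega

/-! ### Stacking ladders -/

theorem stack (C : ℕ → Set G) (hC : ∀ E : Set G, E.Finite → ∀ᶠ i in atTop, E ⊆ C i)
    (hC0 : ∀ i, C 0 ⊆ C i) (v : G) (r : ℕ → P.Word) (ρ : ℕ → ℕ → P.Word)
    (h : ∀ i, P.Ladder (C i) (P.vertex v r i) [] (ρ i) (cons (r i) (ρ (i + 1)))) :
    P.Ladder (C 0) v [] (ρ 0) r := by
  choose t ht0 ht using h
  let A : ℕ → ℕ → P.Word := fun n => Nat.rec (fun _ => []) (fun n a i => t i (n + 1) ++ a (i + 1)) n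
  have A0 : ∀ i, A 0 i = [] := fun i => rfl
  have A1 : ∀ n i, A (n + 1) i = t i (n + 1) ++ A n (i + 1) := fun n i => rfl
  have hvert : ∀ i n, P.vertex (P.vertex v r (i + 1)) (ρ (i + 1)) n
      = P.vertex (P.vertex v r i) (ρ i) (n + 1) * P.val (t i (n + 1)) := by
    intro i n
    rw [vertex_rung (u' := cons (r i) (ρ (i + 1))) (fun n => ((ht i).1 n).val_eq) (n + 1), ht0,
      val_nil, mul_one, vertex_cons_succ]
    rfl
  have square : ∀ n i E, (∀ j m, i ≤ j → j + m = i + n →
      P.Htpy E (P.vertex (P.vertex v r j) (ρ j) m) (ρ j m ++ t j (m + 1))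
        (t j m ++ cons (r j) (ρ (j + 1)) m)) →
      P.Htpy E (P.vertex (P.vertex v r i) (ρ i) n) (ρ i n ++ A (n + 1) i)
        (A n i ++ r (i + n)) := by
    intro n
    induction n with
    | zero =>
      intro i E hE
      have := hE i 0 le_rfl rfl
      rw [ht0, cons_zero] at this
      rw [A1, A0, A0, List.append_nil]
      exact this
    | succ n ih =>
      intro i E hE
      have g1 := hE i (n + 1) le_rfl rfl
      have g2 := ih (i + 1) E (fun j m hj hm => hE j m (by omega) (by omega))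
      rw [cons_succ] at g1
      have e1 := g1.right (A (n + 1) (i + 1)) (by
        rw [g1.val_eq, val_append, ← mul_assoc, ← hvert]
        exact (off_append.mp g2.off.1).2)
      have e2 := g2.left (t i (n + 1)) (hvert i n) (off_append.mp g1.off.2).1
      rw [A1, A1, ← List.append_assoc, List.append_assoc (t i (n + 1))]
      rw [List.append_assoc (t i (n + 1))] at e1
      have : i + (n + 1) = i + 1 + n := by omega
      rw [this]
      exact Htpy.trans _ _ _ e1 e2
  refine ⟨fun n => A n 0, rfl, ?_, ?_⟩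
  · intro n
    have := square n 0 (C 0) (fun j m _ _ => ((ht j).1 m).mono (hC0 j))
    rwa [vertex_zero, zero_add] at this
  · intro E hE
    obtain ⟨I, hI⟩ := eventually_atTop.mp (hC E hE)
    have h1 : ∀ᶠ m in atTop, ∀ j ∈ Finset.range I,
        P.Htpy E (P.vertex (P.vertex v r j) (ρ j) m) (ρ j m ++ t j (m + 1))
          (t j m ++ cons (r j) (ρ (j + 1)) m) :=
      (Filter.eventually_all_finset _).mpr fun j _ => (ht j).2 E hE
    obtain ⟨M, hM⟩ := eventually_atTop.mp h1
    refine eventually_atTop.mpr ⟨I + M, fun n hn => ?_⟩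
    have := square n 0 E (fun j m _ hjm => ?_)
    · rwa [vertex_zero, zero_add] at this
    · by_cases hj : j < I
      · exact hM m (by omega) j (Finset.mem_range.mpr hj)
      · exact ((ht j).1 m).mono (hI j (by omega))

/-! ### From words to letters -/

theorem length_seg (u : ℕ → P.Word) (hu : ∀ n, u n ≠ []) (n : ℕ) : n ≤ (seg u 0 n).length := by
  induction n with
  | zero => exact Nat.zero_le _
  | succ n ih =>
    rw [seg_succ, List.length_append]
    have : 0 < (u (0 + n)).length := List.length_pos_iff.mpr (hu _)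
    omega

theorem seg_prefix (u : ℕ → P.Word) {m n : ℕ} (h : m ≤ n) : seg u 0 m <+: seg u 0 n := by
  obtain ⟨k, rfl⟩ := Nat.exists_eq_add_of_le h
  rw [seg_add]
  exact List.prefix_append _ _

/-- The sequence of letters of a sequence of nonempty words. -/
def letters (u : ℕ → P.Word) (hu : ∀ n, u n ≠ []) (m : ℕ) : Fin P.n × Bool :=
  (seg u 0 (m + 1))[m]'(length_seg u hu (m + 1))

theorem letters_eq (u : ℕ → P.Word) (hu : ∀ n, u n ≠ []) (n m : ℕ)
    (hm : m < (seg u 0 n).length) : letters u hu m = (seg u 0 n)[m]'hm := by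
  rw [letters]
  rcases le_total (m + 1) n with h | h
  · exact (seg_prefix u h).getElem _
  · exact ((seg_prefix u h).getElem _).symm

theorem seg_letters (u : ℕ → P.Word) (hu : ∀ n, u n ≠ []) (n k : ℕ)
    (hk : k ≤ (seg u 0 n).length) :
    seg (fun m => [letters u hu m]) 0 k = (seg u 0 n).take k := by
  induction k with
  | zero => simp
  | succ k ih =>
    rw [seg_succ, ih (by omega), zero_add, letters_eq u hu n k (by omega)]
    rw [List.take_append_getElem]

theorem seg_letters_block (u : ℕ → P.Word) (hu : ∀ n, u n ≠ []) (n : ℕ) :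
    seg (fun m => [letters u hu m]) (seg u 0 n).length
      ((seg u 0 (n + 1)).length - (seg u 0 n).length) = u n := by
  have h1 := seg_letters u hu (n + 1) (seg u 0 (n + 1)).length le_rfl
  rw [List.take_length] at h1
  have h2 := seg_letters u hu n (seg u 0 n).length le_rfl
  rw [List.take_length] at h2
  have h3 : (seg u 0 (n + 1)).length = (seg u 0 n).length
      + ((seg u 0 (n + 1)).length - (seg u 0 n).length) := by
    rw [seg_succ, List.length_append]
    omega
  have h4 := seg_add (fun m => [letters u hu m]) 0 (seg u 0 n).length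
    ((seg u 0 (n + 1)).length - (seg u 0 n).length)
  rw [← h3, h1, h2, zero_add] at h4
  nth_rewrite 1 [seg_succ] at h4
  rw [zero_add] at h4
  exact (List.append_cancel_left h4).symm

theorem exists_letters {u : ℕ → P.Word} (hu : ∀ n, u n ≠ []) :
    ∃ (x : ℕ → Fin P.n × Bool), ∀ (C : Set G) (v : G), P.GRay C v u →
      P.GRay C v (fun n => [x n]) ∧ P.Ladder C v [] (fun n => [x n]) u := by
  refine ⟨letters u hu, fun C v h => ?_⟩
  set N : ℕ → ℕ := fun n => (seg u 0 n).length with hNdef
  have N0 : N 0 = 0 := rfl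
  have hmono : Monotone N := monotone_nat_of_le_succ fun n => by
    simp only [hNdef]
    rw [seg_succ, List.length_append]
    omega
  have hN : ∀ n, n ≤ N n := length_seg u hu
  have hblock : (fun n => seg (fun m => [letters u hu m]) (N n) (N (n + 1) - N n)) = u := by
    funext n
    exact seg_letters_block u hu n
  have h1 : P.GRay C v (fun n => [letters u hu n]) := by
    refine GRay.of_regroup N0 hmono hN ?_
    rw [hblock]
    exact h
  refine ⟨h1, ?_⟩
  have h2 := h1.regroup N0 hmono hN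
  rwa [hblock] at h2

end Pres

end SemiInf
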