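import Pool.Agent.SemiInf.Ends

namespace SemiInf

open Filter

namespace Pres

variable {G : Type*} [Group G] {P : Pres G}

/-! ### Powers of an element of infinite order -/

theorem vertex_const (v : G) (a : P.Word) (n : ℕ) :
    P.vertex v (fun _ => a) n = v * P.val a ^ n := by
  induction n with
  | zero => simp [vertex_zero]
  | succ n ih => rw [vertex_succ, ih, pow_succ, mul_assoc]

/-- The set of the `g` with `g * t ∈ C` for some `t ∈ T`. -/
def nb (C T : Set G) : Set G := {g | ∃ t ∈ T, g * t ∈ C}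

theorem nb_finite {C T : Set G} (hC : C.Finite) (hT : T.Finite) : (nb C T).Finite := by
  have : nb C T ⊆ Set.image2 (fun c t => c * t⁻¹) C T := by
    rintro g ⟨t, ht, h⟩
    exact ⟨g * t, h, t, ht, by simp⟩
  exact (hC.image2 _ hT).subset this

theorem nb_empty {C T : Set G} (hC : C = ∅) : nb C T = ∅ := by
  subst hC
  ext g
  simp [nb]

theorem notMem_nb {C T : Set G} {g : G} (h : g ∉ nb C T) : ∀ t ∈ T, g * t ∉ C :=
  fun t ht hmem => h ⟨t, ht, hmem⟩

theorem eventually_notMem_nb {c : G} (hc : ¬ IsOfFinOrder c) (v : G) {E T : Set G}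
    (hE : E.Finite) (hT : T.Finite) : ∀ᶠ n : ℕ in atTop, v * c ^ n ∉ nb E T := by
  have := eventually_notMem hc v 1 (nb_finite hE hT)
  simpa using this

/-- A ladder between periodic rays from fillings of the squares. -/
theorem ladder_periodic [P.Complete] {a b w : P.Word} {c : G} (hc : ¬ IsOfFinOrder c) (ha : P.val a = c)
    (hab : P.val (a ++ w) = P.val (w ++ b)) :
    ∃ T : Set G, T.Finite ∧ ∀ (C : Set G) (v : G), (∀ k : ℕ, v * c ^ k ∉ nb C T) →
      P.Ladder C v w (fun _ => a) (fun _ => b) := by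
  obtain ⟨T, hT, h⟩ := exists_fill hab
  refine ⟨T, hT, fun C v hv => ⟨fun _ => w, rfl, fun n => ?_, fun E hE => ?_⟩⟩
  · beta_reduce
    rw [vertex_const, ha]
    exact h C _ (notMem_nb (hv n))
  · filter_upwards [eventually_notMem_nb hc v hE hT] with n hn
    rw [vertex_const, ha]
    exact h E _ (notMem_nb hn)

/-- One of the two rays with direction `c` avoids `D`. -/
theorem exists_sign {c : G} (hc : ¬ IsOfFinOrder c) {D : Set G} (hD : D.Finite) :
    ∃ D' : Set G, D'.Finite ∧ (D = ∅ → D' = ∅) ∧ ∀ v, v ∉ D' →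
      (∀ k : ℕ, v * c ^ k ∉ D) ∨ (∀ k : ℕ, v * c⁻¹ ^ k ∉ D) := by
  classical
  refine ⟨{v | (∃ k : ℕ, v * c ^ k ∈ D) ∧ ∃ l : ℕ, v * c⁻¹ ^ l ∈ D}, ?_, ?_, ?_⟩
  · -- for `d, d'` there is at most one exponent
    have hm : ∀ d d' : G, ∃ m : ℕ, ∀ n : ℕ, d'⁻¹ * d = c ^ n → n ≤ m := by
      intro d d'
      by_cases hex : ∃ n : ℕ, d'⁻¹ * d = c ^ n
      · obtain ⟨m, hm⟩ := hex
        refine ⟨m, fun n hn => ?_⟩
        rw [hm] at hn
        exact (pow_injective hc hn).symm.le
      · exact ⟨0, fun n hn => absurd ⟨n, hn⟩ hex⟩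
    choose m hm using hm
    have hsub : {v | (∃ k : ℕ, v * c ^ k ∈ D) ∧ ∃ l : ℕ, v * c⁻¹ ^ l ∈ D} ⊆
        ⋃ d ∈ D, ⋃ d' ∈ D, ((Finset.range (m d d' + 1)).image fun k => d * (c ^ k)⁻¹ :
          Finset G) := by
      rintro v ⟨⟨k, hk⟩, l, hl⟩
      refine Set.mem_biUnion hk (Set.mem_biUnion hl ?_)
      rw [Finset.mem_coe, Finset.mem_image]
      refine ⟨k, Finset.mem_range.mpr ?_, by simp⟩
      have h1 : (v * c⁻¹ ^ l)⁻¹ * (v * c ^ k) = c ^ (l + k) := by
        rw [inv_pow, mul_inv_rev, _root_.inv_inv, pow_add]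
        group
      have := hm _ _ _ h1
      omega
    refine Set.Finite.subset ?_ hsub
    exact hD.biUnion fun d _ => hD.biUnion fun d' _ => Finset.finite_toSet _
  · rintro rfl
    ext v
    simp
  · intro v hv
    by_contra hcon
    push Not at hcon
    exact hv hcon

/-! ### Mapping the complex of a subgroup -/

variable {H : Subgroup G} {Q : Pres H}

/-- The word over the generators of `G` for a word over the generators of `H`. -/
noncomputable def mp (P : Pres G) (Q : Pres H) (w : Q.Word) : P.Word :=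
  w.flatMap fun x => P.wd ((Q.val [x] : H) : G)

theorem mp_append (a b : Q.Word) : mp P Q (a ++ b) = mp P Q a ++ mp P Q b := by
  simp [mp]

theorem mp_nil : mp P Q [] = [] := rfl

theorem mp_singleton (x : Fin Q.n × Bool) : mp P Q [x] = P.wd ((Q.val [x] : H) : G) := by
  simp [mp]

theorem val_mp (w : Q.Word) : P.val (mp P Q w) = ((Q.val w : H) : G) := by
  induction w with
  | nil => simp [mp_nil]
  | cons x w ih =>
    have e : (x :: w : Q.Word) = [x] ++ w := rfl
    rw [e, mp_append, val_append, ih, mp_singleton, val_wd, val_append]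
    simp

theorem exists_map (P : Pres G) [P.Complete] (Q : Pres H) :
    ∃ T : Set G, T.Finite ∧ ∀ (C : Set G) (b : G) (h : H) (w w' : Q.Word),
      Q.Htpy {k : H | b * (k : G) ∈ nb C T} h w w' →
      P.Htpy C (b * (h : G)) (mp P Q w) (mp P Q w') := by
  classical
  have hb : ∀ x : Fin Q.n × Bool, P.val (mp P Q [x, (x.1, !x.2)]) = P.val [] := by
    intro x
    rw [val_mp, val_pair, val_nil]
    rfl
  have hr : ∀ r ∈ Q.rels, P.val (mp P Q r) = P.val [] := by
    intro r hr
    rw [val_mp, val_rel Q hr, val_nil]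
    rfl
  choose Tb hTb hTb' using fun x => exists_fill (hb x)
  choose Tr hTr hTr' using fun r (hr' : r ∈ Q.rels) => exists_fill (hr r hr')
  let T : Set G := {1} ∪ ((⋃ x, pre (P := P) (mp P Q [x])) ∪ ((⋃ x, Tb x) ∪
    ⋃ r : Q.rels, Tr r.1 r.2))
  have hT : T.Finite :=
    (Set.finite_singleton _).union ((Set.finite_iUnion fun x => pre_finite _).union
      ((Set.finite_iUnion hTb).union (Set.finite_iUnion fun r => hTr r.1 r.2)))
  have off_map : ∀ (C : Set G) (b : G) (w : Q.Word) (h : H),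
      Q.Off {k : H | b * (k : G) ∈ nb C T} h w → P.Off C (b * (h : G)) (mp P Q w) := by
    intro C b w
    induction w with
    | nil =>
      intro h ho
      rw [mp_nil, off_nil]
      rw [off_nil] at ho
      have := notMem_nb (show b * (h : G) ∉ nb C T from ho) 1 (Or.inl rfl)
      simpa using this
    | cons x w ih =>
      intro h ho
      rw [off_cons] at ho
      have e : (x :: w : Q.Word) = [x] ++ w := rfl
      rw [e, mp_append, off_append]
      constructor
      · rw [off_iff_pre]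
        intro t ht
        exact notMem_nb (show b * (h : G) ∉ nb C T from ho.1) t
          (Or.inr (Or.inl (Set.mem_iUnion_of_mem x ht)))
      · have := ih _ ho.2
        rw [val_mp, mul_assoc]
        simpa using this
  refine ⟨T, hT, fun C b h w w' hh => ?_⟩
  induction hh with
  | refl w ho => exact Htpy.refl _ (off_map C b w h ho)
  | symm w w' _ ih => exact ih.symm _ _
  | trans w w' w'' _ _ ih1 ih2 => exact ih1.trans _ _ _ ih2
  | backtrack p q x ho =>
    have o1 := off_map C b _ h ho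
    rw [mp_append, mp_append] at o1 ⊢
    rw [mp_append]
    rw [off_append, off_append] at o1
    have hmem : b * (h : G) * P.val (mp P Q p) ∉ nb C T := by
      rw [off_append, off_append] at ho
      have h1 : h * Q.val p ∉ {k : H | b * (k : G) ∈ nb C T} := ho.1.2.start
      rw [val_mp, mul_assoc]
      simpa using h1
    have h2 := hTb' x C (b * (h : G) * P.val (mp P Q p)) fun t ht =>
      notMem_nb hmem t (Or.inr (Or.inr (Or.inl (Set.mem_iUnion_of_mem x ht))))
    have h3 := h2.congr (mp P Q p) (mp P Q q) rfl o1.1.1 (by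
      have := o1.2
      rwa [val_append, ← mul_assoc] at this)
    simpa using h3
  | cell p q r hr' ho =>
    have o1 := off_map C b _ h ho
    rw [mp_append, mp_append] at o1 ⊢
    rw [mp_append]
    rw [off_append, off_append] at o1
    have hmem : b * (h : G) * P.val (mp P Q p) ∉ nb C T := by
      rw [off_append, off_append] at ho
      have h1 : h * Q.val p ∉ {k : H | b * (k : G) ∈ nb C T} := ho.1.2.start
      rw [val_mp, mul_assoc]
      simpa using h1
    have h2 := hTr' r hr' C (b * (h : G) * P.val (mp P Q p)) fun t ht =>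
      notMem_nb hmem t (Or.inr (Or.inr (Or.inr (Set.mem_iUnion_of_mem ⟨r, hr'⟩ ht))))
    have h3 := h2.congr (mp P Q p) (mp P Q q) rfl o1.1.1 (by
      have := o1.2
      rwa [val_append, ← mul_assoc] at this)
    simpa using h3

theorem vertex_mp (b : G) (h : H) (u : ℕ → Q.Word) (n : ℕ) :
    P.vertex (b * (h : G)) (fun n => mp P Q (u n)) n = b * ((Q.vertex h u n : H) : G) := by
  induction n with
  | zero => rfl
  | succ n ih =>
    rw [vertex_succ, ih, vertex_succ, val_mp, mul_assoc]
    rfl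

theorem finite_coset {C : Set G} (hC : C.Finite) (b : G) : {k : H | b * (k : G) ∈ C}.Finite := by
  have hinj : Function.Injective fun k : H => b * (k : G) := by
    intro k l hkl
    exact Subtype.ext (mul_left_cancel hkl)
  exact hC.preimage hinj.injOn

theorem Ladder.map {T : Set G} (hT : T.Finite)
    (hmap : ∀ (C : Set G) (b : G) (h : H) (w w' : Q.Word),
      Q.Htpy {k : H | b * (k : G) ∈ nb C T} h w w' →
      P.Htpy C (b * (h : G)) (mp P Q w) (mp P Q w'))
    {C : Set G} {b : G} {h : H} {t₀ : Q.Word} {u u' : ℕ → Q.Word}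
    (hl : Q.Ladder {k : H | b * (k : G) ∈ nb C T} h t₀ u u') :
    P.Ladder C (b * (h : G)) (mp P Q t₀) (fun n => mp P Q (u n)) (fun n => mp P Q (u' n)) := by
  obtain ⟨t, rfl, h1, h2⟩ := hl
  refine ⟨fun n => mp P Q (t n), rfl, fun n => ?_, fun E hE => ?_⟩
  · beta_reduce
    rw [vertex_mp, ← mp_append, ← mp_append]
    exact hmap _ _ _ _ _ (h1 n)
  · filter_upwards [h2 _ (finite_coset (nb_finite hE hT) b)] with n hn
    rw [vertex_mp, ← mp_append, ← mp_append]
    exact hmap _ _ _ _ _ hn

/-! ### Links -/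

/-- The rays in the directions `c` and `d` which avoid a large finite set are properly
homotopic outside a given finite set. -/
def Link (P : Pres G) (c d : G) : Prop :=
  ∀ C : Set G, C.Finite → ∃ D : Set G, D.Finite ∧ (C = ∅ → D = ∅) ∧
    ∀ v : G, (∀ k : ℕ, v * c ^ k ∉ D) → (∀ k : ℕ, v * d ^ k ∉ D) →
      P.Ladder C v [] (fun _ => P.wd c) (fun _ => P.wd d)

theorem link_of_subgroup (P : Pres G) [P.Complete] (ho : Q.OneEnded) (hs : Q.Semistable) {c d : G}
    (hc : c ∈ H) (hd : d ∈ H) (hc' : ¬ IsOfFinOrder c) (hd' : ¬ IsOfFinOrder d) :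
    P.Link c d := by
  classical
  intro C hC
  obtain ⟨T, hT, hmap⟩ := exists_map P Q
  obtain ⟨W, hW⟩ := Q.exists_word ⟨c, hc⟩
  obtain ⟨V, hV⟩ := Q.exists_word ⟨d, hd⟩
  have nonempty : ∀ (e : G) (he : e ∈ H) (U : Q.Word), Q.val U = ⟨e, he⟩ →
      ¬ IsOfFinOrder e → U ≠ [] := by
    rintro e he U hU hne rfl
    apply hne
    rw [val_nil] at hU
    have : e = 1 := (congrArg Subtype.val hU).symm
    rw [this]
    exact IsOfFinOrder.one
  -- the two comparisons in `G`
  have hWv : P.val (mp P Q W) = c := by rw [val_mp, hW]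
  have hVv : P.val (mp P Q V) = d := by rw [val_mp, hV]
  obtain ⟨T1, hT1, l1⟩ := ladder_periodic (P := P) (a := mp P Q W) (b := P.wd c) (w := []) hc'
    hWv (by simp [hWv])
  obtain ⟨T2, hT2, l2⟩ := ladder_periodic (P := P) (a := mp P Q V) (b := P.wd d) (w := []) hd'
    hVv (by simp [hVv])
  -- the cosets
  have hB := nb_finite hC hT
  have hst := fun S : {S : Set H // S.Finite} => exists_strong ho hs S.1 S.2
  choose Dst hDst hDst' using hst
  obtain ⟨Cb, hCb⟩ : ∃ Cb : G → {S : Set H // S.Finite}, ∀ b,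
      (Cb b).1 = {k : H | b * (k : G) ∈ nb C T} :=
    ⟨fun b => ⟨_, finite_coset hB b⟩, fun b => rfl⟩
  have hgray : ∀ (D : Set H) (h : H) (e : G) (he : e ∈ H) (U : Q.Word), Q.val U = ⟨e, he⟩ →
      ¬ IsOfFinOrder e → (∀ k : ℕ, ∀ s ∈ pre (P := Q) U, h * ⟨e, he⟩ ^ k * s ∉ D) →
      Q.GRay D h (fun _ => U) := by
    intro D h e he U hU hne hk
    have hne' : ¬ IsOfFinOrder (⟨e, he⟩ : H) := by
      intro hf
      exact hne (H.subtype.isOfFinOrder hf)
    refine ⟨fun n => ?_, fun E hE => ?_⟩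
    · beta_reduce
      rw [vertex_const, hU, off_iff_pre]
      exact hk n
    · filter_upwards [eventually_notMem_nb hne' h hE (pre_finite (P := Q) U)] with n hn
      rw [vertex_const, hU, off_iff_pre]
      exact notMem_nb hn
  let D3 : Set G := ⋃ b ∈ nb C T, Set.image2 (fun (x : H) (s : H) => b * (x : G) * (s : G)⁻¹)
    (Dst (Cb b)) (pre (P := Q) W ∪ pre (P := Q) V)
  refine ⟨nb C T1 ∪ nb C T2 ∪ D3, ?_, ?_, ?_⟩
  · refine ((nb_finite hC hT1).union (nb_finite hC hT2)).union ?_
    exact hB.biUnion fun b _ => (hDst _).image2 _ ((pre_finite W).union (pre_finite V))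
  · intro h0
    have e3 : D3 = ∅ := by
      simp only [D3, nb_empty h0]
      simp
    rw [nb_empty h0, nb_empty h0, e3]
    simp
  · intro v hvc hvd
    have k1 : P.Ladder C v [] (fun _ => mp P Q W) (fun _ => P.wd c) :=
      l1 C v fun k hk => hvc k (Or.inl (Or.inl hk))
    have k2 : P.Ladder C v [] (fun _ => mp P Q V) (fun _ => P.wd d) :=
      l2 C v fun k hk => hvd k (Or.inl (Or.inr hk))
    have main : ∃ (b : G) (h : H), v = b * (h : G) ∧
        (∀ k : ℕ, ∀ s ∈ pre (P := Q) W, h * ⟨c, hc⟩ ^ k * s ∉ Dst (Cb b)) ∧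
        (∀ k : ℕ, ∀ s ∈ pre (P := Q) V, h * ⟨d, hd⟩ ^ k * s ∉ Dst (Cb b)) := by
      by_cases hex : ∃ h : H, v * (h : G)⁻¹ ∈ nb C T
      · obtain ⟨h, hh⟩ := hex
        have hv : v = v * (h : G)⁻¹ * (h : G) := by group
        refine ⟨v * (h : G)⁻¹, h, hv, fun k s hs' hmem => ?_, fun k s hs' hmem => ?_⟩
        · apply hvc k
          refine Or.inr (Set.mem_biUnion hh ?_)
          refine ⟨_, hmem, s, Or.inl hs', ?_⟩
          simp [mul_assoc]
        · apply hvd k
          refine Or.inr (Set.mem_biUnion hh ?_)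
          refine ⟨_, hmem, s, Or.inr hs', ?_⟩
          simp [mul_assoc]
      · push Not at hex
        have hc1 : ¬ IsOfFinOrder (⟨c, hc⟩ : H) := fun hf => hc' (H.subtype.isOfFinOrder hf)
        have hd1 : ¬ IsOfFinOrder (⟨d, hd⟩ : H) := fun hf => hd' (H.subtype.isOfFinOrder hf)
        have hD0 := hDst ⟨∅, Set.finite_empty⟩
        obtain ⟨h, hh1, hh2⟩ := ho.exists_base hc1 hd1
          (nb_finite hD0 (pre_finite (P := Q) W)) (nb_finite hD0 (pre_finite (P := Q) V))
        have h0 : Cb (v * (h : G)⁻¹) = ⟨∅, Set.finite_empty⟩ := by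
          apply Subtype.ext
          rw [hCb]
          ext k
          constructor
          · intro hk
            have := hex (k⁻¹ * h)
            have e : v * (((k⁻¹ * h : H) : G))⁻¹ = v * (h : G)⁻¹ * (k : G) := by
              push_cast
              group
            rw [e] at this
            exact absurd hk this
          · exact fun hk => absurd hk (Set.notMem_empty _)
        refine ⟨v * (h : G)⁻¹, h, by group, fun k s hs' => ?_, fun k s hs' => ?_⟩
        · rw [h0]
          exact notMem_nb (hh1 k) s hs'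
        · rw [h0]
          exact notMem_nb (hh2 k) s hs'
    obtain ⟨b, h, rfl, hk1, hk2⟩ := main
    have r1 := hgray _ h c hc W hW hc' hk1
    have r2 := hgray _ h d hd V hV hd' hk2
    have l3 := hDst' (Cb b) h (fun _ => W) (fun _ => V) (fun _ => nonempty c hc W hW hc')
      (fun _ => nonempty d hd V hV hd') r1 r2
    rw [hCb] at l3
    have l4 := Ladder.map hT hmap l3
    rw [mp_nil] at l4
    exact (k1.symm'.trans' l4).trans' k2

theorem Link.trans {c d e : G} (hd : ¬ IsOfFinOrder d) (h1 : P.Link c d) (h2 : P.Link c d⁻¹)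
    (h3 : P.Link d e) (h4 : P.Link d⁻¹ e) : P.Link c e := by
  intro C hC
  obtain ⟨D1, f1, z1, l1⟩ := h1 C hC
  obtain ⟨D2, f2, z2, l2⟩ := h2 C hC
  obtain ⟨D3, f3, z3, l3⟩ := h3 C hC
  obtain ⟨D4, f4, z4, l4⟩ := h4 C hC
  obtain ⟨D', f', z', hs⟩ := exists_sign hd ((f1.union f2).union (f3.union f4))
  refine ⟨((D1 ∪ D2) ∪ (D3 ∪ D4)) ∪ D', ((f1.union f2).union (f3.union f4)).union f', ?_, ?_⟩
  · intro h0
    have : (D1 ∪ D2) ∪ (D3 ∪ D4) = ∅ := by
      rw [z1 h0, z2 h0, z3 h0, z4 h0]
      simp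
    rw [z' this, this]
    simp
  · intro v hc he
    have hv : v ∉ D' := by
      have := hc 0
      rw [pow_zero, mul_one] at this
      exact fun h => this (Or.inr h)
    rcases hs v hv with h | h
    · refine (l1 v (fun k hk => hc k (Or.inl (Or.inl (Or.inl hk))))
        (fun k hk => h k (Or.inl (Or.inl hk)))).trans'
        (l3 v (fun k hk => h k (Or.inr (Or.inl hk)))
        (fun k hk => he k (Or.inl (Or.inr (Or.inl hk)))))
    · refine (l2 v (fun k hk => hc k (Or.inl (Or.inl (Or.inr hk))))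
        (fun k hk => h k (Or.inl (Or.inr hk)))).trans'
        (l4 v (fun k hk => h k (Or.inr (Or.inr hk)))
        (fun k hk => he k (Or.inl (Or.inr (Or.inr hk)))))

end Pres

end SemiInf
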