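import Pool.Agent.SemiInf.Commens

namespace SemiInf

open Filter Subgroup

namespace Pres

variable {G : Type*} [Group G] {P : Pres G}

/-- Change of the direction in the transfer. -/
theorem Tr.change {a c : G} (ha : ¬ IsOfFinOrder a) {w : P.Word} (h : P.Tr a w)
    (hl : ∀ e ∈ ({c, c⁻¹} : Set G), ∀ g ∈ ({a, a⁻¹} : Set G), P.Link e g) : P.Tr c w := by
  classical
  intro C hC
  obtain ⟨D, hD, z, l⟩ := h C hC
  -- all the links together
  have hfin : ∃ D : Set G, D.Finite ∧ (C = ∅ → D = ∅) ∧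
      ∀ e ∈ ({c, c⁻¹} : Set G), ∀ g ∈ ({a, a⁻¹} : Set G), ∀ v : G,
        (∀ k : ℕ, v * e ^ k ∉ D) → (∀ k : ℕ, v * g ^ k ∉ D) →
        P.Ladder C v [] (fun _ => P.wd e) (fun _ => P.wd g) := by
    choose! D hD hz hl using fun e he g hg => hl e he g hg C hC
    refine ⟨⋃ e ∈ ({c, c⁻¹} : Set G), ⋃ g ∈ ({a, a⁻¹} : Set G), D e g, ?_, ?_, ?_⟩
    · exact (Set.toFinite _).biUnion fun e he => (Set.toFinite _).biUnion fun g hg =>
        hD e he g hg
    · intro h0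
      refine Set.eq_empty_of_forall_notMem fun x hx => ?_
      simp only [Set.mem_iUnion] at hx
      obtain ⟨e, he, g, hg, hx⟩ := hx
      rw [hz e he g hg h0] at hx
      exact hx
    · intro e he g hg v h1 h2
      have hsub : D e g ⊆ ⋃ e ∈ ({c, c⁻¹} : Set G), ⋃ g ∈ ({a, a⁻¹} : Set G), D e g := by
        intro x hx
        simp only [Set.mem_iUnion]
        exact ⟨e, he, g, hg, hx⟩
      exact hl e he g hg v (fun k hk => h1 k (hsub hk)) (fun k hk => h2 k (hsub hk))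
  obtain ⟨D₁, hD₁, z₁, l₁⟩ := hfin
  obtain ⟨D₂, hD₂, z₂, hs⟩ := exists_sign ha (hD.union hD₁)
  refine ⟨(D ∪ D₁) ∪ (D₂ ∪ nb D₂ {P.val w}), (hD.union hD₁).union (hD₂.union
    (nb_finite hD₂ (Set.finite_singleton _))), ?_, ?_⟩
  · intro h0
    have h1 : D ∪ D₁ = ∅ := by
      rw [z h0, z₁ h0]
      simp
    rw [nb_empty (z₂ h1), z₂ h1, h1]
    simp
  · intro v e he f hf k1 k2
    have hv : v ∉ D₂ := fun h => start_notMem k1 (Or.inr (Or.inl h))
    have hvw : v * P.val w ∉ D₂ :=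
      notMem_nb (fun h => start_notMem k1 (Or.inr (Or.inr h))) _ rfl
    have pick : ∀ x, x ∉ D₂ → ∃ g ∈ ({a, a⁻¹} : Set G), ∀ k : ℕ, x * g ^ k ∉ D ∪ D₁ := by
      intro x hx
      rcases hs x hx with h | h
      · exact ⟨a, Or.inl rfl, h⟩
      · exact ⟨a⁻¹, Or.inr rfl, h⟩
    obtain ⟨g, hg, kg⟩ := pick v hv
    obtain ⟨g', hg', kg'⟩ := pick _ hvw
    have m1 := l₁ e he g hg v (fun k hk => k1 k (Or.inl (Or.inr hk)))
      (fun k hk => kg k (Or.inr hk))
    have m2 := l v g hg g' hg' (fun k hk => kg k (Or.inl hk)) (fun k hk => kg' k (Or.inl hk))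
    have m3 := l₁ f hf g' hg' (v * P.val w) (fun k hk => k2 k (Or.inl (Or.inr hk)))
      (fun k hk => kg' k (Or.inr hk))
    exact (m1.trans' m2).trans'' m3.symm'

theorem exists_conj_mem {A : Subgroup G} {a b : G} (ha : ¬ IsOfFinOrder a) (haA : a ∈ A)
    (hb : {L : G ⧸ A | ∃ a ∈ A, ((a * b : G) : G ⧸ A) = L}.Finite) :
    ∃ x : G, ¬ IsOfFinOrder x ∧ x ∈ A ∧ b⁻¹ * x * b ∈ A := by
  have hmap : Set.MapsTo (fun k : ℕ => ((a ^ k * b : G) : G ⧸ A)) Set.univ
      {L : G ⧸ A | ∃ a ∈ A, ((a * b : G) : G ⧸ A) = L} := fun k _ =>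
    ⟨a ^ k, pow_mem haA k, rfl⟩
  obtain ⟨k, _, l, _, hkl, he⟩ := Set.infinite_univ.exists_ne_map_eq_of_mapsTo hmap hb
  have key : ∀ k l : ℕ, k < l → ((a ^ k * b : G) : G ⧸ A) = ((a ^ l * b : G) : G ⧸ A) →
      ∃ x : G, ¬ IsOfFinOrder x ∧ x ∈ A ∧ b⁻¹ * x * b ∈ A := by
    intro k l h he
    refine ⟨a ^ (l - k), fun hf => ha (hf.of_pow (by omega)), pow_mem haA _, ?_⟩
    have h1 := QuotientGroup.eq.mp he
    have h2 : (a ^ k * b)⁻¹ * (a ^ l * b) = b⁻¹ * a ^ (l - k) * b := by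
      have : a ^ l = a ^ k * a ^ (l - k) := by
        rw [← pow_add]
        congr 1
        omega
      rw [this]
      group
    rwa [h2] at h1
  rcases lt_or_gt_of_ne hkl with h | h
  · exact key k l h he
  · exact key l k h he.symm

theorem good_piece (P : Pres G) [P.Complete] {H : Subgroup G} (hH : Good H) {x : G}
    (hx : ¬ IsOfFinOrder x) (hxH : x ∈ H) :
    ∃ (a : G) (ha : ¬ IsOfFinOrder a) (hs : P.Switch a), a ∈ H ∧ H ≤ P.trSubgroup a ha hs := by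
  rcases hH with ⟨Q, ho, hse⟩ | ⟨hfg, A, hAH, hA, ⟨a, haA, ha⟩, hcomm, hinf⟩
  · have hs := switch_of_subgroup P Q ho hse hx hxH
    exact ⟨x, hx, hs, hxH, subgroup_le Q ho hse hx hxH self_mem⟩
  · have links : ∀ c d : G, c ∈ A → d ∈ A → ¬ IsOfFinOrder c → ¬ IsOfFinOrder d →
        P.Link c d := fun c d hc hd hc' hd' =>
      link_of_commensurated P hA hfg hcomm hinf hc hd hc' hd'
    have pm : ∀ {b : G}, b ∈ A → ¬ IsOfFinOrder b → ∀ e ∈ ({b, b⁻¹} : Set G),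
        e ∈ A ∧ ¬ IsOfFinOrder e := by
      rintro b hb hb' e (rfl | rfl)
      · exact ⟨hb, hb'⟩
      · exact ⟨inv_mem hb, not_isOfFinOrder_inv hb'⟩
    have hs : P.Switch a := fun e he f hf =>
      links _ _ (pm haA ha e he).1 (pm haA ha f hf).1 (pm haA ha e he).2 (pm haA ha f hf).2
    refine ⟨a, ha, hs, hAH haA, ?_⟩
    have hAle : A ≤ P.trSubgroup a ha hs := by
      intro g hg w hw
      refine tr_of_conj ha (fun e he b hb => hs e he b hb) (fun f hf b hb => ?_)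
      rw [hw]
      have h1 := pm haA ha b hb
      have h2 := pm haA ha f hf
      exact links _ _ (mul_mem (mul_mem (inv_mem hg) h1.1) hg) h2.1
        (not_isOfFinOrder_conj h1.2) h2.2
    intro b hb
    obtain ⟨y, hy, hyA, hyA'⟩ := exists_conj_mem ha haA (hcomm b hb)
    exact conj_mem hy (hAle hyA) (hAle hyA')

/-- The main theorem. -/
theorem hull (P : Pres G) [P.Complete] {H₀ : Subgroup G} (hH₀ : Good H₀) {c : G}
    (hc : ¬ IsOfFinOrder c) (hcH : c ∈ H₀)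
    (hull : ∀ K : Subgroup G, H₀ ≤ K →
      (∀ g a : G, a ∈ K → g⁻¹ * a * g ∈ K → ¬ IsOfFinOrder a → g ∈ K) →
      (∀ H : Subgroup G, Good H → (∃ a ∈ H, a ∈ K ∧ ¬ IsOfFinOrder a) → H ≤ K) → K = ⊤) :
    P.OneEnded ∧ P.Semistable := by
  obtain ⟨a, ha, hs, haH, hle⟩ := good_piece P hH₀ hc hcH
  have htop := hull (P.trSubgroup a ha hs) hle
    (fun g b hb1 hb2 hb => conj_mem hb hb1 hb2) ?_
  · refine of_tr ha fun w => ?_
    have : P.val w ∈ P.trSubgroup a ha hs := by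
      rw [htop]
      exact Subgroup.mem_top _
    exact this w rfl
  · rintro H hH ⟨x, hxH, hxK, hx⟩
    obtain ⟨b, hb, hsb, hbH, hleb⟩ := good_piece P hH hx hxH
    have hxb := hleb hxH
    -- the links between the two directions
    have hl : ∀ e ∈ ({a, a⁻¹} : Set G), ∀ g ∈ ({b, b⁻¹} : Set G), P.Link e g := by
      intro e he g hg
      exact Link.trans hx (link_of_mem hx hxK e he x (Or.inl rfl))
        (link_of_mem hx hxK e he x⁻¹ (Or.inr rfl))
        (link_of_mem hx hxb g hg x (Or.inl rfl)).symm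
        (link_of_mem hx hxb g hg x⁻¹ (Or.inr rfl)).symm
    intro h hh w hw
    exact (hleb hh w hw).change hb hl

end Pres

end SemiInf
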