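import Pool.Agent.SemiInf.Util

namespace SemiInf

open Filter

namespace Pres

variable {G : Type*} [Group G] {P : Pres G}

/-- Lists of elements of `Y`. -/
def YList (Y : Set G) (l : List G) : Prop := ∀ x ∈ l, x ∈ Y

omit [Group G] in
theorem YList.append {Y : Set G} {l l' : List G} (h : YList Y l) (h' : YList Y l') :
    YList Y (l ++ l') := by
  intro x hx
  rcases List.mem_append.mp hx with hx | hx
  · exact h x hx
  · exact h' x hx

/-- The possible lists after crossing. -/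
def nxt (𝒢 : Set (List G)) : List G → Set (List G)
  | [] => 𝒢
  | _ :: l => Set.image2 (fun a b => a ++ b) 𝒢 (nxt 𝒢 l)

omit [Group G] in
theorem nxt_finite {𝒢 : Set (List G)} (h : 𝒢.Finite) (l : List G) : (nxt 𝒢 l).Finite := by
  induction l with
  | nil => exact h
  | cons a l ih => exact h.image2 _ ih

/-- Crossing from a coset of `A` to the next one. -/
theorem exists_square (P : Pres G) [P.Complete] (A : Subgroup G) {Y X : Set G}
    (hY : Y.Finite) (hYA : Y ⊆ A) (hgen : ∀ a ∈ A, ∃ l : List G, YList Y l ∧ l.prod = a)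
    (hX : X.Finite) :
    ∃ (T : Set G) (𝒢 : Set (List G)), T.Finite ∧ 𝒢.Finite ∧
      ∀ (L L' : G ⧸ A), (∀ z : G, (z : G ⧸ A) = L → ∃ κ ∈ X, ((z * κ : G) : G ⧸ A) = L') →
      ∀ (l : List G), YList Y l → ∀ (z : G), (z : G ⧸ A) = L → ∀ κ ∈ X, ∀ κ' ∈ X,
        ((z * κ : G) : G ⧸ A) = L' → ((z * l.prod * κ' : G) : G ⧸ A) = L' →
        ∃ l' ∈ nxt 𝒢 l, YList Y l' ∧ ∀ C : Set G, CosetOff A (nb C T) L →
          P.Htpy C z (P.wd κ ++ wl P l') (wl P l ++ P.wd κ') := by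
  classical
  choose! lst hlst1 hlst2 using hgen
  -- fillings
  have h1 : ∀ κ κ' : G, ∃ T : Set G, T.Finite ∧ (κ⁻¹ * κ' ∈ A → ∀ (C : Set G) (g : G),
      (∀ t ∈ T, g * t ∉ C) → P.Htpy C g (P.wd κ ++ wl P (lst (κ⁻¹ * κ'))) (P.wd κ')) := by
    intro κ κ'
    by_cases hA : κ⁻¹ * κ' ∈ A
    · obtain ⟨T, hT, h⟩ := exists_fill (P := P)
        (a := P.wd κ ++ wl P (lst (κ⁻¹ * κ'))) (b := P.wd κ') (by
          rw [val_append, val_wd, val_wl, hlst2 _ hA, val_wd]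
          group)
      exact ⟨T, hT, fun _ => h⟩
    · exact ⟨∅, Set.finite_empty, fun h => absurd h hA⟩
  have h2 : ∀ a κ κ' : G, ∃ T : Set G, T.Finite ∧ (κ⁻¹ * a * κ' ∈ A → ∀ (C : Set G) (g : G),
      (∀ t ∈ T, g * t ∉ C) →
      P.Htpy C g (P.wd κ ++ wl P (lst (κ⁻¹ * a * κ'))) (P.wd a ++ P.wd κ')) := by
    intro a κ κ'
    by_cases hA : κ⁻¹ * a * κ' ∈ A
    · obtain ⟨T, hT, h⟩ := exists_fill (P := P)
        (a := P.wd κ ++ wl P (lst (κ⁻¹ * a * κ'))) (b := P.wd a ++ P.wd κ') (by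
          rw [val_append, val_wd, val_wl, hlst2 _ hA, val_append, val_wd, val_wd]
          group)
      exact ⟨T, hT, fun _ => h⟩
    · exact ⟨∅, Set.finite_empty, fun h => absurd h hA⟩
  choose T1 hT1 hf1 using h1
  choose T2 hT2 hf2 using h2
  let T : Set G := (⋃ κ ∈ X, ⋃ κ' ∈ X, T1 κ κ') ∪ ⋃ a ∈ Y, ⋃ κ ∈ X, ⋃ κ' ∈ X, T2 a κ κ'
  let 𝒢 : Set (List G) := (⋃ κ ∈ X, ⋃ κ' ∈ X, {lst (κ⁻¹ * κ')}) ∪
    ⋃ a ∈ Y, ⋃ κ ∈ X, ⋃ κ' ∈ X, {lst (κ⁻¹ * a * κ')}
  have hT : T.Finite := (hX.biUnion fun κ _ => hX.biUnion fun κ' _ => hT1 κ κ').union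
    (hY.biUnion fun a _ => hX.biUnion fun κ _ => hX.biUnion fun κ' _ => hT2 a κ κ')
  have h𝒢 : 𝒢.Finite :=
    (hX.biUnion fun κ _ => hX.biUnion fun κ' _ => Set.finite_singleton _).union
    (hY.biUnion fun a _ => hX.biUnion fun κ _ => hX.biUnion fun κ' _ => Set.finite_singleton _)
  refine ⟨T, 𝒢, hT, h𝒢, ?_⟩
  intro L L' hcr l
  induction l with
  | nil =>
    intro _ z hz κ hκ κ' hκ' e1 e2
    have hA : κ⁻¹ * κ' ∈ A := by
      rw [List.prod_nil, mul_one] at e2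
      have := QuotientGroup.eq.mp (e1.trans e2.symm)
      have e : (z * κ)⁻¹ * (z * κ') = κ⁻¹ * κ' := by group
      rwa [e] at this
    refine ⟨lst (κ⁻¹ * κ'), Or.inl ?_, hlst1 _ hA, fun C hC => ?_⟩
    · exact Set.mem_biUnion hκ (Set.mem_biUnion hκ' rfl)
    · rw [wl_nil, List.nil_append]
      refine hf1 κ κ' hA C z fun t ht => notMem_nb (hC z hz) t (Or.inl ?_)
      exact Set.mem_biUnion hκ (Set.mem_biUnion hκ' ht)
  | cons a l ih =>
    intro hl z hz κ hκ κ' hκ' e1 e2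
    have haY : a ∈ Y := hl a (List.mem_cons_self)
    have hlY : YList Y l := fun x hx => hl x (List.mem_cons_of_mem _ hx)
    have hza : ((z * a : G) : G ⧸ A) = L := by
      rw [QuotientGroup.mk_mul_of_mem z (hYA haY)]
      exact hz
    obtain ⟨κ'', hκ'', e3⟩ := hcr (z * a) hza
    have hA : κ⁻¹ * a * κ'' ∈ A := by
      have := QuotientGroup.eq.mp (e1.trans e3.symm)
      have e : (z * κ)⁻¹ * (z * a * κ'') = κ⁻¹ * a * κ'' := by group
      rwa [e] at this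
    obtain ⟨l₁, hl₁, hl₁Y, hh⟩ := ih hlY (z * a) hza κ'' hκ'' κ' hκ' e3 (by
      rw [List.prod_cons, ← mul_assoc] at e2
      exact e2)
    refine ⟨lst (κ⁻¹ * a * κ'') ++ l₁, ?_, (hlst1 _ hA).append hl₁Y, fun C hC => ?_⟩
    · refine ⟨_, Or.inr ?_, _, hl₁, rfl⟩
      exact Set.mem_biUnion haY (Set.mem_biUnion hκ (Set.mem_biUnion hκ'' rfl))
    · have s1 := hf2 a κ κ'' hA C z fun t ht => notMem_nb (hC z hz) t (Or.inr
        (Set.mem_biUnion haY (Set.mem_biUnion hκ (Set.mem_biUnion hκ'' ht))))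
      have s2 := hh C hC
      have s3 := s1.right (wl P l₁) (by
        rw [s1.val_eq, val_append, val_wd, val_wd, ← mul_assoc]
        have := (off_append.mp s2.off.1).2
        rwa [val_wd] at this)
      have s4 := s2.left (P.wd a) (g := z) (by rw [val_wd]) (off_append.mp s1.off.2).1
      rw [wl_append, wl_cons]
      simp only [List.append_assoc] at s3 s4 ⊢
      exact Htpy.trans _ _ _ s3 s4

/-- `q` is a transversal ray from `z` along the cosets `f`, with steps in `X`. -/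
def Trans (P : Pres G) (A : Subgroup G) (X : Set G) (f : ℕ → G ⧸ A) (z : G) (κ : ℕ → G) :
    Prop :=
  (∀ n, κ n ∈ X) ∧ ∀ n, ((P.vertex z (fun n => P.wd (κ n)) n : G) : G ⧸ A) = f n

theorem exists_trans (P : Pres G) {A : Subgroup G} {X : Set G} {f : ℕ → G ⧸ A}
    (hcr : ∀ n, ∀ z : G, (z : G ⧸ A) = f n → ∃ κ ∈ X, ((z * κ : G) : G ⧸ A) = f (n + 1))
    {z : G} (hz : (z : G ⧸ A) = f 0) : ∃ κ, Trans P A X f z κ := by
  choose! k hk1 hk2 using hcr
  let Z : ∀ n, {z : G // (z : G ⧸ A) = f n} := fun n =>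
    Nat.rec ⟨z, hz⟩ (fun n s => ⟨s.1 * k n s.1, hk2 n s.1 s.2⟩) n
  have hZ : ∀ n, (Z (n + 1)).1 = (Z n).1 * k n (Z n).1 := fun n => rfl
  have hv : ∀ n, P.vertex z (fun n => P.wd (k n (Z n).1)) n = (Z n).1 := by
    intro n
    induction n with
    | zero => rfl
    | succ n ih => rw [vertex_succ, ih, val_wd, hZ]
  exact ⟨fun n => k n (Z n).1, fun n => hk1 n _ (Z n).2, fun n => by rw [hv]; exact (Z n).2⟩

/-- Two transversal rays from neighbouring points. -/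
theorem exists_strip (P : Pres G) [P.Complete] (A : Subgroup G) {Y X : Set G}
    (hY : Y.Finite) (hYA : Y ⊆ A) (hgen : ∀ a ∈ A, ∃ l : List G, YList Y l ∧ l.prod = a)
    (hX : X.Finite) :
    ∃ (T : Set G) (S : ℕ → Set G), T.Finite ∧ (∀ n, (S n).Finite) ∧
      ∀ (f : ℕ → G ⧸ A),
      (∀ n, ∀ z : G, (z : G ⧸ A) = f n → ∃ κ ∈ X, ((z * κ : G) : G ⧸ A) = f (n + 1)) →
      ∀ (z : G) (a : G), a ∈ Y → ∀ (κ κ' : ℕ → G), Trans P A X f z κ →
        Trans P A X f (z * a) κ' →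
        ∃ t : ℕ → P.Word, t 0 = P.wd a ∧ ∀ n E,
          (CosetOff A (nb E T) (f n) ∨ z ∉ nb E (S n)) →
          P.Htpy E (P.vertex z (fun n => P.wd (κ n)) n) (P.wd (κ n) ++ t (n + 1))
            (t n ++ P.wd (κ' n)) := by
  classical
  obtain ⟨T, 𝒢, hT, h𝒢, hsq⟩ := exists_square P A hY hYA hgen hX
  -- the lists at level `n`
  let 𝒮 : ℕ → Set (List G) := fun n =>
    Nat.rec ((fun a => [a]) '' Y) (fun _ s => ⋃ l ∈ s, nxt 𝒢 l) n
  have h𝒮0 : 𝒮 0 = (fun a => [a]) '' Y := rfl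
  have h𝒮1 : ∀ n, 𝒮 (n + 1) = ⋃ l ∈ 𝒮 n, nxt 𝒢 l := fun n => rfl
  have h𝒮fin : ∀ n, (𝒮 n).Finite := by
    intro n
    induction n with
    | zero => exact hY.image _
    | succ n ih =>
      rw [h𝒮1]
      exact ih.biUnion fun l _ => nxt_finite h𝒢 l
  -- the points at level `n`
  let XX : ℕ → Set G := fun n => Nat.rec {1} (fun _ s => Set.image2 (fun x k => x * k) s X) n
  have hXX1 : ∀ n, XX (n + 1) = Set.image2 (fun x k => x * k) (XX n) X := fun n => rfl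
  have hXXfin : ∀ n, (XX n).Finite := by
    intro n
    induction n with
    | zero => exact Set.finite_singleton _
    | succ n ih =>
      rw [hXX1]
      exact ih.image2 _ hX
  have hquad : ∀ (κ : G) (l' l : List G) (κ' : G), ∃ T : Set G, T.Finite ∧
      (P.val (P.wd κ ++ wl P l') = P.val (wl P l ++ P.wd κ') → ∀ (C : Set G) (g : G),
        (∀ t ∈ T, g * t ∉ C) → P.Htpy C g (P.wd κ ++ wl P l') (wl P l ++ P.wd κ')) := by
    intro κ l' l κ'
    by_cases h : P.val (P.wd κ ++ wl P l') = P.val (wl P l ++ P.wd κ')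
    · obtain ⟨T, hT, hh⟩ := exists_fill h
      exact ⟨T, hT, fun _ => hh⟩
    · exact ⟨∅, Set.finite_empty, fun h' => absurd h' h⟩
  choose Tq hTq hfq using hquad
  let S : ℕ → Set G := fun n => Set.image2 (fun x t => x * t) (XX n)
    (⋃ κ ∈ X, ⋃ l' ∈ 𝒮 (n + 1), ⋃ l ∈ 𝒮 n, ⋃ κ' ∈ X, Tq κ l' l κ')
  refine ⟨T, S, hT, fun n => (hXXfin n).image2 _ (hX.biUnion fun κ _ =>
    (h𝒮fin (n + 1)).biUnion fun l' _ => (h𝒮fin n).biUnion fun l _ => hX.biUnion fun κ' _ =>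
      hTq κ l' l κ'), ?_⟩
  intro f hcr z a ha κ κ' hκ hκ'
  -- the lists
  let St : ℕ → List G → Prop := fun n l => YList Y l ∧ l ∈ 𝒮 n ∧
    P.vertex z (fun n => P.wd (κ n)) n * l.prod = P.vertex (z * a) (fun n => P.wd (κ' n)) n
  have step : ∀ n l, St n l → ∃ l', St (n + 1) l' ∧ ∀ C : Set G, CosetOff A (nb C T) (f n) →
      P.Htpy C (P.vertex z (fun n => P.wd (κ n)) n) (P.wd (κ n) ++ wl P l')
        (wl P l ++ P.wd (κ' n)) := by
    rintro n l ⟨g1, g2, g3⟩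
    have v1 : P.vertex z (fun n => P.wd (κ n)) (n + 1)
        = P.vertex z (fun n => P.wd (κ n)) n * κ n := by
      rw [vertex_succ, val_wd]
    have v2 : P.vertex (z * a) (fun n => P.wd (κ' n)) (n + 1)
        = P.vertex (z * a) (fun n => P.wd (κ' n)) n * κ' n := by
      rw [vertex_succ, val_wd]
    obtain ⟨l', h1, h2, h3⟩ := hsq (f n) (f (n + 1)) (hcr n) l g1
      (P.vertex z (fun n => P.wd (κ n)) n) (hκ.2 n) (κ n) (hκ.1 n) (κ' n) (hκ'.1 n)
      (by rw [← v1]; exact hκ.2 (n + 1)) (by rw [g3, ← v2]; exact hκ'.2 (n + 1))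
    refine ⟨l', ⟨h2, ?_, ?_⟩, h3⟩
    · rw [h𝒮1]
      exact Set.mem_biUnion g2 h1
    · have := (h3 ∅ (by rw [nb_empty rfl]; exact CosetOff.empty)).val_eq
      rw [val_append, val_append, val_wd, val_wd, val_wl, val_wl] at this
      rw [v1, v2, mul_assoc, this, ← mul_assoc, g3]
  have init : St 0 [a] := by
    refine ⟨?_, ?_, ?_⟩
    · intro x hx
      rw [List.mem_singleton.mp hx]
      exact ha
    · rw [h𝒮0]
      exact ⟨a, ha, rfl⟩
    · simp [vertex_zero]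
  choose g hg1 hg2 using step
  let L : ∀ n, {l // St n l} := fun n =>
    Nat.rec ⟨[a], init⟩ (fun n s => ⟨g n s.1 s.2, hg1 n s.1 s.2⟩) n
  have hL : ∀ n, ∀ C : Set G, CosetOff A (nb C T) (f n) →
      P.Htpy C (P.vertex z (fun n => P.wd (κ n)) n) (P.wd (κ n) ++ wl P (L (n + 1)).1)
        (wl P (L n).1 ++ P.wd (κ' n)) := fun n => hg2 n (L n).1 (L n).2
  have hXXv : ∀ n, ∃ x ∈ XX n, P.vertex z (fun n => P.wd (κ n)) n = z * x := by
    intro n
    induction n with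
    | zero => exact ⟨1, rfl, by simp [vertex_zero]⟩
    | succ n ih =>
      obtain ⟨x, hx, e⟩ := ih
      refine ⟨x * κ n, ?_, by rw [vertex_succ, e, val_wd, mul_assoc]⟩
      rw [hXX1]
      exact ⟨x, hx, κ n, hκ.1 n, rfl⟩
  refine ⟨fun n => wl P (L n).1, wl_singleton a, fun n E hE => ?_⟩
  rcases hE with hE | hE
  · exact hL n E hE
  · have hval := (hL n ∅ (by rw [nb_empty rfl]; exact CosetOff.empty)).val_eq
    obtain ⟨x, hx, e⟩ := hXXv n
    refine hfq _ _ _ _ hval E _ fun t ht => ?_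
    rw [e, mul_assoc]
    refine notMem_nb hE _ ⟨x, hx, t, ?_, rfl⟩
    exact Set.mem_biUnion (hκ.1 n) (Set.mem_biUnion (L (n + 1)).2.2.1
      (Set.mem_biUnion (L n).2.2.1 (Set.mem_biUnion (hκ'.1 n) ht)))

end Pres

end SemiInf
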