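import Pool.Agent.SemiInf.Uniform

namespace SemiInf

open Filter

namespace Pres

variable {G : Type*} [Group G] {P : Pres G}

theorem seg_cons_succ (w : P.Word) (u : ℕ → P.Word) (a k : ℕ) :
    seg (cons w u) (a + 1) k = seg u a k := by
  induction k with
  | zero => rfl
  | succ k ih =>
    rw [seg_succ, ih, seg_succ]
    have : a + 1 + k = (a + k) + 1 := by omega
    rw [this, cons_succ]

/-- A one-ended semistable group is uniformly semistable. -/
theorem exists_strong (ho : P.OneEnded) (hs : P.Semistable) (C : Set G) (hC : C.Finite) :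
    ∃ D : Set G, D.Finite ∧ ∀ (v : G) (u u' : ℕ → P.Word),
      (∀ n, u n ≠ []) → (∀ n, u' n ≠ []) → P.GRay D v u → P.GRay D v u' →
      P.Ladder C v [] u u' := by
  classical
  obtain ⟨K, K0, Kmono, hK⟩ := P.exists_exhaustion
  have hW : ∀ k, ∃ D : Set G, D.Finite ∧ C ∪ K k ⊆ D ∧ P.Weak (C ∪ K k) D := by
    intro k
    obtain ⟨D, hD, hw⟩ := exists_weak ho hs (C ∪ K k) (hC.union (K k).finite_toSet)
    refine ⟨D ∪ (C ∪ K k), hD.union (hC.union (K k).finite_toSet),
      Set.subset_union_right, ?_⟩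
    intro v u u' hu hu' h h' E hE
    exact hw v u u' hu hu' (h.mono Set.subset_union_left) (h'.mono Set.subset_union_left) E hE
  choose D hDfin hDsub hDw using hW
  refine ⟨D 0, hDfin 0, fun v u u' hu hu' h h' => ?_⟩
  have hCD : C ⊆ D 0 := Set.subset_union_left.trans (hDsub 0)
  let Good : ℕ → ℕ × ℕ × P.Word → Prop := fun k s =>
    k ≤ s.1 ∧ k ≤ s.2.1 ∧ P.Off (D k) (P.vertex v u s.1) s.2.2 ∧
    P.vertex v u s.1 * P.val s.2.2 = P.vertex v u' s.2.1 ∧
    (∀ j, s.1 ≤ j → P.Off (D k) (P.vertex v u j) (u j)) ∧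
    (∀ j, s.2.1 ≤ j → P.Off (D k) (P.vertex v u' j) (u' j))
  let Rel : ℕ → ℕ × ℕ × P.Word → ℕ × ℕ × P.Word → Prop := fun k s s' =>
    s.1 < s'.1 ∧ s.2.1 < s'.2.1 ∧
    P.Htpy (C ∪ K k) (P.vertex v u s.1) (seg u s.1 (s'.1 - s.1) ++ s'.2.2)
      (s.2.2 ++ seg u' s.2.1 (s'.2.1 - s.2.1))
  have step : ∀ k s, Good k s → ∃ s', Good (k + 1) s' ∧ Rel k s s' := by
    rintro k ⟨n, m, q⟩ ⟨g1, g2, g3, g4, g5, g6⟩
    simp only at g1 g2 g3 g4 g5 g6
    set g := P.vertex v u n with hg
    set U : ℕ → P.Word := fun j => u (n + j) with hU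
    set U' : ℕ → P.Word := cons (q ++ u' m) (fun j => u' (m + 1 + j)) with hU'
    have vU : ∀ j, P.vertex g U j = P.vertex v u (n + j) := fun j => vertex_tail v u n j
    have vm : g * P.val (q ++ u' m) = P.vertex v u' (m + 1) := by
      rw [val_append, ← mul_assoc, g4, vertex_succ]
    have vU' : ∀ j, P.vertex g U' (j + 1) = P.vertex v u' (m + 1 + j) := fun j => by
      rw [hU', vertex_cons_succ, vm, vertex_tail]
    have neU : ∀ j, U j ≠ [] := fun j => hu _
    have neU' : ∀ j, U' j ≠ [] := by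
      intro j
      cases j with
      | zero =>
        intro h0
        exact hu' m (List.append_eq_nil_iff.mp h0).2
      | succ j => exact hu' _
    have evtail : ∀ (u : ℕ → P.Word) (a : ℕ) (E : Set G),
        (∀ᶠ n in atTop, P.Off E (P.vertex v u n) (u n)) →
        ∀ᶠ j in atTop, P.Off E (P.vertex v u (a + j)) (u (a + j)) := by
      intro u a E hev
      obtain ⟨J, hJ⟩ := eventually_atTop.mp hev
      exact eventually_atTop.mpr ⟨J, fun j hj => hJ (a + j) (by omega)⟩
    have rU : P.GRay (D k) g U := by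
      refine ⟨fun j => ?_, fun E hE => ?_⟩
      · beta_reduce
        rw [vU]
        exact g5 _ (Nat.le_add_right _ _)
      · simp only [vU]
        exact evtail u n E (h.2 E hE)
    have rU' : P.GRay (D k) g U' := by
      refine Ev.of_succ ?_ ⟨fun j => ?_, fun E hE => ?_⟩
      · change P.Off (D k) g (q ++ u' m)
        rw [off_append]
        refine ⟨g3, ?_⟩
        rw [g4]
        exact g6 m le_rfl
      · beta_reduce
        rw [vU']
        exact g6 _ (by omega)
      · simp only [vU']
        exact evtail u' (m + 1) E (h'.2 E hE)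
    obtain ⟨J, hJ⟩ := eventually_atTop.mp ((rU.2 (D (k + 1)) (hDfin _)).and
      (rU'.2 (D (k + 1)) (hDfin _)))
    set E : Set G := D (k + 1) ∪ (((Finset.range (J + 1)).image (P.vertex g U) : Finset G) ∪
      ((Finset.range (J + 1)).image (P.vertex g U') : Finset G)) with hE
    have hEfin : E.Finite :=
      (hDfin _).union ((Finset.finite_toSet _).union (Finset.finite_toSet _))
    obtain ⟨i, j, q', hq', hh⟩ := hDw k g U U' neU neU' rU rU' E hEfin
    have hi : J < i := by
      by_contra hlt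
      apply hq'.start
      rw [hE]
      refine Or.inr (Or.inl ?_)
      exact Finset.mem_coe.mpr (Finset.mem_image_of_mem _ (Finset.mem_range.mpr (by omega)))
    have hend : P.vertex g U i * P.val q' = P.vertex g U' j := by
      rw [vertex_eq_seg, vertex_eq_seg, mul_assoc, ← val_append, hh.val_eq]
    have hj : J < j := by
      by_contra hlt
      apply hq'.finish
      rw [hE, hend]
      refine Or.inr (Or.inr ?_)
      exact Finset.mem_coe.mpr (Finset.mem_image_of_mem _ (Finset.mem_range.mpr (by omega)))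
    obtain ⟨j, rfl⟩ : ∃ l, j = l + 1 := ⟨j - 1, by omega⟩
    refine ⟨(n + i, m + (j + 1), q'), ⟨?_, ?_, ?_, ?_, ?_, ?_⟩, ?_, ?_, ?_⟩
    · simp only
      omega
    · simp only
      omega
    · simp only
      rw [← vU]
      exact hq'.mono Set.subset_union_left
    · simp only
      rw [← vU, hend, vU']
      congr 1
      omega
    · simp only
      intro l hl
      obtain ⟨i', rfl⟩ := Nat.exists_eq_add_of_le (show n ≤ l by omega)
      have := (hJ i' (by omega)).1
      beta_reduce at this
      rwa [vU] at this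
    · simp only
      intro l hl
      obtain ⟨l', rfl⟩ := Nat.exists_eq_add_of_le (show m + 1 ≤ l by omega)
      have := (hJ (l' + 1) (by omega)).2
      beta_reduce at this
      rwa [vU'] at this
    · simp only
      omega
    · simp only
      omega
    · simp only
      have e1 : n + i - n = i := by omega
      have e2 : m + (j + 1) - m = j + 1 := by omega
      rw [e1, e2]
      have e3 : seg U 0 i = seg u n i := by
        rw [hU, seg_tail, add_zero]
      have e4 : seg U' 0 (j + 1) = q ++ seg u' m (j + 1) := by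
        rw [seg_succ', hU', cons_zero, seg_cons_succ, seg_tail, add_zero, List.append_assoc,
          ← seg_succ']
      rw [e3, e4] at hh
      exact hh
  have init : Good 0 (0, 0, []) := by
    refine ⟨le_rfl, le_rfl, ?_, ?_, fun j _ => h.1 j, fun j _ => h'.1 j⟩
    · rw [off_nil]
      exact (h.1 0).start
    · simp [vertex_zero]
  choose f hf1 hf2 using step
  let S : ∀ k, {s // Good k s} := fun k =>
    Nat.rec ⟨(0, 0, []), init⟩ (fun k s => ⟨f k s.1 s.2, hf1 k s.1 s.2⟩) k
  have hS : ∀ k, Rel k (S k).1 (S (k + 1)).1 := fun k => hf2 k (S k).1 (S k).2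
  have hS0 : (S 0).1 = (0, 0, []) := rfl
  obtain ⟨N, hN⟩ : ∃ N : ℕ → ℕ, ∀ k, N k = (S k).1.1 := ⟨_, fun k => rfl⟩
  obtain ⟨M, hM⟩ : ∃ M : ℕ → ℕ, ∀ k, M k = (S k).1.2.1 := ⟨_, fun k => rfl⟩
  obtain ⟨t, ht⟩ : ∃ t : ℕ → P.Word, ∀ k, t k = (S k).1.2.2 := ⟨_, fun k => rfl⟩
  have N0 : N 0 = 0 := by rw [hN, hS0]
  have M0 : M 0 = 0 := by rw [hM, hS0]
  have t0 : t 0 = [] := by rw [ht, hS0]
  have Nmono : Monotone N := monotone_nat_of_le_succ fun k => by
    rw [hN, hN]
    exact (hS k).1.le
  have Mmono : Monotone M := monotone_nat_of_le_succ fun k => by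
    rw [hM, hM]
    exact (hS k).2.1.le
  have Nle : ∀ k, k ≤ N k := fun k => by
    rw [hN]
    exact (S k).2.1
  have Mle : ∀ k, k ≤ M k := fun k => by
    rw [hM]
    exact (S k).2.2.1
  have hsq : ∀ k, P.Htpy (C ∪ K k) (P.vertex v u (N k))
      (seg u (N k) (N (k + 1) - N k) ++ t (k + 1)) (t k ++ seg u' (M k) (M (k + 1) - M k)) := by
    intro k
    have := (hS k).2.2
    rw [← hN, ← hN, ← hM, ← hM, ← ht, ← ht] at this
    exact this
  have l1 := (h.mono hCD).regroup N0 Nmono Nle
  have l2 := (h'.mono hCD).regroup M0 Mmono Mle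
  have l3 : P.Ladder C v [] (fun n => seg u (N n) (N (n + 1) - N n))
      (fun n => seg u' (M n) (M (n + 1) - M n)) := by
    refine ⟨t, t0, fun k => ?_, fun E hE => ?_⟩
    · beta_reduce
      rw [vertex_regroup N0 Nmono]
      exact (hsq k).mono Set.subset_union_left
    · filter_upwards [hK E hE] with k hk
      rw [vertex_regroup N0 Nmono]
      exact (hsq k).mono (hk.trans Set.subset_union_right)
  exact (l1.trans' l3).trans' l2.symm'

end Pres

end SemiInf
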