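import Pool.Agent.SemiInf.Link

namespace SemiInf

open Filter

namespace Pres

variable {G : Type*} [Group G] {P : Pres G}

/-- The rays in the directions `c, c⁻¹` at `v` and at `v * val w`, which avoid a large finite
set, are properly homotopic along `w`. -/
def Tr (P : Pres G) (c : G) (w : P.Word) : Prop :=
  ∀ C : Set G, C.Finite → ∃ D : Set G, D.Finite ∧ (C = ∅ → D = ∅) ∧
    ∀ v : G, ∀ e ∈ ({c, c⁻¹} : Set G), ∀ f ∈ ({c, c⁻¹} : Set G),
      (∀ k : ℕ, v * e ^ k ∉ D) → (∀ k : ℕ, v * P.val w * f ^ k ∉ D) →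
      P.Ladder C v w (fun _ => P.wd e) (fun _ => P.wd f)

theorem start_notMem {v e : G} {D : Set G} (h : ∀ k : ℕ, v * e ^ k ∉ D) : v ∉ D := by
  simpa using h 0

theorem Tr.nil {c : G} (h1 : P.Link c c) (h2 : P.Link c c⁻¹) (h3 : P.Link c⁻¹ c)
    (h4 : P.Link c⁻¹ c⁻¹) : P.Tr c [] := by
  intro C hC
  obtain ⟨D1, f1, z1, l1⟩ := h1 C hC
  obtain ⟨D2, f2, z2, l2⟩ := h2 C hC
  obtain ⟨D3, f3, z3, l3⟩ := h3 C hC
  obtain ⟨D4, f4, z4, l4⟩ := h4 C hC
  refine ⟨(D1 ∪ D2) ∪ (D3 ∪ D4), (f1.union f2).union (f3.union f4), ?_, ?_⟩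
  · intro h0
    rw [z1 h0, z2 h0, z3 h0, z4 h0]
    simp
  · intro v e he f hf k1 k2
    rw [val_nil, mul_one] at k2
    rcases he with rfl | rfl <;> rcases hf with rfl | rfl
    · exact l1 v (fun k hk => k1 k (Or.inl (Or.inl hk))) (fun k hk => k2 k (Or.inl (Or.inl hk)))
    · exact l2 v (fun k hk => k1 k (Or.inl (Or.inr hk))) (fun k hk => k2 k (Or.inl (Or.inr hk)))
    · exact l3 v (fun k hk => k1 k (Or.inr (Or.inl hk))) (fun k hk => k2 k (Or.inr (Or.inl hk)))
    · exact l4 v (fun k hk => k1 k (Or.inr (Or.inr hk))) (fun k hk => k2 k (Or.inr (Or.inr hk)))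

theorem Tr.congr [P.Complete] {c : G} {w w' : P.Word} (h : P.Tr c w) (hw : P.val w = P.val w') :
    P.Tr c w' := by
  intro C hC
  obtain ⟨D, hD, z, l⟩ := h C hC
  obtain ⟨T, hT, hf⟩ := exists_fill hw
  refine ⟨D ∪ nb C T, hD.union (nb_finite hC hT), ?_, ?_⟩
  · intro h0
    rw [z h0, nb_empty h0]
    simp
  · intro v e he f hf' k1 k2
    refine (l v e he f hf' (fun k hk => k1 k (Or.inl hk)) (fun k hk => ?_)).change
      (hf C v (notMem_nb fun hv => start_notMem k1 (Or.inr hv)))
    rw [hw] at hk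
    exact k2 k (Or.inl hk)

theorem Tr.append {c : G} (hc : ¬ IsOfFinOrder c) {w w' : P.Word} (h : P.Tr c w)
    (h' : P.Tr c w') : P.Tr c (w ++ w') := by
  intro C hC
  obtain ⟨D, hD, z, l⟩ := h C hC
  obtain ⟨D', hD', z', l'⟩ := h' C hC
  obtain ⟨D'', hD'', z'', hs⟩ := exists_sign hc (hD.union hD')
  refine ⟨(D ∪ D') ∪ nb D'' {P.val w}, (hD.union hD').union
    (nb_finite hD'' (Set.finite_singleton _)), ?_, ?_⟩
  · intro h0
    have h1 : D ∪ D' = ∅ := by
      rw [z h0, z' h0]
      simp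
    rw [nb_empty (z'' h1), h1]
    simp
  · intro v e he f hf k1 k2
    have hv : v * P.val w ∉ D'' :=
      notMem_nb (fun hv => start_notMem k1 (Or.inr hv)) _ rfl
    have key : ∃ g ∈ ({c, c⁻¹} : Set G), ∀ k : ℕ, v * P.val w * g ^ k ∉ D ∪ D' := by
      rcases hs _ hv with h | h
      · exact ⟨c, Or.inl rfl, h⟩
      · exact ⟨c⁻¹, Or.inr rfl, h⟩
    obtain ⟨g, hg, hk⟩ := key
    refine (l v e he g hg (fun k hk' => k1 k (Or.inl (Or.inl hk')))
      (fun k hk' => hk k (Or.inl hk'))).trans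
      (l' (v * P.val w) g hg f hf (fun k hk' => hk k (Or.inr hk')) (fun k hk' => ?_))
    rw [mul_assoc v, ← val_append] at hk'
    exact k2 k (Or.inl (Or.inr hk'))

theorem Tr.inv {c : G} {w : P.Word} (h : P.Tr c w) : P.Tr c (P.inv w) := by
  intro C hC
  obtain ⟨D, hD, z, l⟩ := h C hC
  refine ⟨D, hD, z, fun v e he f hf k1 k2 => ?_⟩
  have hv : v * P.val (P.inv w) * P.val w = v := by
    rw [val_inv, mul_assoc, inv_mul_cancel, mul_one]
  have := l (v * P.val (P.inv w)) f hf e he k2 (by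
    rw [hv]
    exact k1)
  have h2 := this.symm
  rwa [hv] at h2

/-- The transfer along an element `s` which conjugates an element of infinite order. -/
theorem tr_of_conj [P.Complete] {c a : G} (ha : ¬ IsOfFinOrder a) {w : P.Word}
    (h1 : ∀ e ∈ ({c, c⁻¹} : Set G), ∀ g ∈ ({a, a⁻¹} : Set G), P.Link e g)
    (h2 : ∀ f ∈ ({c, c⁻¹} : Set G), ∀ g ∈ ({a, a⁻¹} : Set G),
      P.Link ((P.val w)⁻¹ * g * P.val w) f) : P.Tr c w := by
  intro C hC
  set s := P.val w with hs
  -- the two squares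
  have conj_pow : ∀ (g : G) (k : ℕ), (s⁻¹ * g * s) ^ k = s⁻¹ * g ^ k * s := by
    intro g k
    have := conj_pow (i := k) (a := s⁻¹) (b := g)
    rwa [_root_.inv_inv] at this
  have sq : ∀ g ∈ ({a, a⁻¹} : Set G), ∃ D : Set G, D.Finite ∧ (C = ∅ → D = ∅) ∧
      ∀ v : G, (∀ k : ℕ, v * g ^ k ∉ D) →
        P.Ladder C v w (fun _ => P.wd g) (fun _ => P.wd (s⁻¹ * g * s)) := by
    intro g hg
    have hg' : ¬ IsOfFinOrder g := by
      rcases hg with rfl | rfl
      · exact ha
      · exact not_isOfFinOrder_inv ha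
    obtain ⟨T, hT, l⟩ := ladder_periodic (P := P) (a := P.wd g) (b := P.wd (s⁻¹ * g * s))
      (w := w) hg' (val_wd P g) (by
        rw [val_append, val_append, val_wd, val_wd, ← hs]
        group)
    exact ⟨nb C T, nb_finite hC hT, fun h0 => nb_empty h0, fun v hv => l C v hv⟩
  -- the whole path for fixed directions
  have path : ∀ e ∈ ({c, c⁻¹} : Set G), ∀ f ∈ ({c, c⁻¹} : Set G), ∀ g ∈ ({a, a⁻¹} : Set G),
      ∃ D : Set G, D.Finite ∧ (C = ∅ → D = ∅) ∧ ∀ v : G, (∀ k : ℕ, v * g ^ k ∉ D) →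
        (∀ k : ℕ, v * e ^ k ∉ D) → (∀ k : ℕ, v * s * f ^ k ∉ D) →
        P.Ladder C v w (fun _ => P.wd e) (fun _ => P.wd f) := by
    intro e he f hf g hg
    obtain ⟨D1, f1, z1, l1⟩ := h1 e he g hg C hC
    obtain ⟨D2, f2, z2, l2⟩ := sq g hg
    obtain ⟨D3, f3, z3, l3⟩ := h2 f hf g hg C hC
    refine ⟨(D1 ∪ D2) ∪ (D3 ∪ nb D3 {s}), (f1.union f2).union
      (f3.union (nb_finite f3 (Set.finite_singleton _))), ?_, ?_⟩
    · intro h0
      rw [z1 h0, z2 h0, nb_empty (z3 h0), z3 h0]
      simp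
    · intro v kg ke kf
      have m1 := l1 v (fun k hk => ke k (Or.inl (Or.inl hk)))
        (fun k hk => kg k (Or.inl (Or.inl hk)))
      have m2 := l2 v (fun k hk => kg k (Or.inl (Or.inr hk)))
      have m3 := l3 (v * s) (fun k hk => ?_) (fun k hk => kf k (Or.inr (Or.inl hk)))
      · exact (m1.trans' m2).trans'' m3
      · apply kg k
        refine Or.inr (Or.inr ⟨s, rfl, ?_⟩)
        rw [conj_pow] at hk
        have : v * s * (s⁻¹ * g ^ k * s) = v * g ^ k * s := by group
        rwa [this] at hk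
  -- all the directions together
  have hfin : ∃ D : Set G, D.Finite ∧ (C = ∅ → D = ∅) ∧
      ∀ e ∈ ({c, c⁻¹} : Set G), ∀ f ∈ ({c, c⁻¹} : Set G), ∀ g ∈ ({a, a⁻¹} : Set G),
      ∀ v : G, (∀ k : ℕ, v * g ^ k ∉ D) → (∀ k : ℕ, v * e ^ k ∉ D) →
        (∀ k : ℕ, v * s * f ^ k ∉ D) → P.Ladder C v w (fun _ => P.wd e) (fun _ => P.wd f) := by
    choose! D hD hz hl using path
    have fin2 : ∀ x y : G, ({x, y} : Set G).Finite := fun x y => Set.toFinite _
    refine ⟨⋃ e ∈ ({c, c⁻¹} : Set G), ⋃ f ∈ ({c, c⁻¹} : Set G), ⋃ g ∈ ({a, a⁻¹} : Set G),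
      D e f g, ?_, ?_, ?_⟩
    · exact (fin2 _ _).biUnion fun e he => (fin2 _ _).biUnion fun f hf =>
        (fin2 _ _).biUnion fun g hg => hD e he f hf g hg
    · intro h0
      refine Set.eq_empty_of_forall_notMem fun x hx => ?_
      simp only [Set.mem_iUnion] at hx
      obtain ⟨e, he, f, hf, g, hg, hx⟩ := hx
      rw [hz e he f hf g hg h0] at hx
      exact hx
    · intro e he f hf g hg v kg ke kf
      have hsub : D e f g ⊆ ⋃ e ∈ ({c, c⁻¹} : Set G), ⋃ f ∈ ({c, c⁻¹} : Set G),
          ⋃ g ∈ ({a, a⁻¹} : Set G), D e f g := by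
        intro x hx
        simp only [Set.mem_iUnion]
        exact ⟨e, he, f, hf, g, hg, hx⟩
      exact hl e he f hf g hg v (fun k hk => kg k (hsub hk)) (fun k hk => ke k (hsub hk))
        (fun k hk => kf k (hsub hk))
  obtain ⟨D, hD, z, l⟩ := hfin
  obtain ⟨D', hD', z', hsign⟩ := exists_sign ha hD
  refine ⟨D ∪ D', hD.union hD', ?_, ?_⟩
  · intro h0
    rw [z' (z h0), z h0]
    simp
  · intro v e he f hf k1 k2
    have hv : v ∉ D' := fun h => start_notMem k1 (Or.inr h)
    rcases hsign v hv with h | h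
    · exact l e he f hf a (Or.inl rfl) v h (fun k hk => k1 k (Or.inl hk))
        (fun k hk => k2 k (Or.inl hk))
    · exact l e he f hf a⁻¹ (Or.inr rfl) v h (fun k hk => k1 k (Or.inl hk))
        (fun k hk => k2 k (Or.inl hk))

/-! ### The end of the proof -/

/-- Transfer along all words gives semistability and one-endedness. -/
theorem of_tr {c : G} (hc : ¬ IsOfFinOrder c) (htr : ∀ w : P.Word, P.Tr c w) :
    P.OneEnded ∧ P.Semistable := by
  classical
  have hcray : ∀ e ∈ ({c, c⁻¹} : Set G), ¬ IsOfFinOrder e := by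
    rintro e (rfl | rfl)
    · exact hc
    · exact not_isOfFinOrder_inv hc
  constructor
  · -- one end
    refine ⟨Infinite.of_injective _ (pow_injective hc), fun C hC => ?_⟩
    let N : Set G := pre (P := P) (P.wd c) ∪ pre (P := P) (P.wd c⁻¹)
    have hN : N.Finite := (pre_finite _).union (pre_finite _)
    obtain ⟨D, hD, -, hs⟩ := exists_sign hc (nb_finite hC hN)
    refine ⟨D, hD, fun u v hu hv => ?_⟩
    have key : ∀ v, v ∉ D → ∃ e ∈ ({c, c⁻¹} : Set G), ∀ n,
        P.Off C (P.vertex v (fun _ => P.wd e) n) (P.wd e) := by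
      intro v hv
      rcases hs v hv with h | h
      · refine ⟨c, Or.inl rfl, fun n => ?_⟩
        rw [vertex_const, val_wd, off_iff_pre]
        exact fun t ht => notMem_nb (h n) t (Or.inl ht)
      · refine ⟨c⁻¹, Or.inr rfl, fun n => ?_⟩
        rw [vertex_const, val_wd, off_iff_pre]
        exact fun t ht => notMem_nb (h n) t (Or.inr ht)
    obtain ⟨e, he, ke⟩ := key u hu
    obtain ⟨f, hf, kf⟩ := key v hv
    obtain ⟨w, hw⟩ := P.exists_word (u⁻¹ * v)
    obtain ⟨E, -, hE0, hl⟩ := htr w ∅ Set.finite_empty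
    rw [hE0 rfl] at hl
    obtain ⟨t, ht0, ht1, ht2⟩ := hl u e he f hf (fun k => Set.notMem_empty _)
      (fun k => Set.notMem_empty _)
    obtain ⟨n, hn⟩ := (ht2 C hC).exists
    have hrung := (off_append.mp hn.off.2).1
    have hvert := vertex_rung (v := u) (u' := fun _ => P.wd f) (fun n => (ht1 n).val_eq) n
    rw [ht0, hw, mul_inv_cancel_left] at hvert
    have hend : u * P.val (seg (fun _ => P.wd e) 0 n ++ t n)
        = v * P.val (seg (fun _ => P.wd f) 0 n) := by
      rw [val_append, ← mul_assoc, ← vertex_eq_seg, hvert, vertex_eq_seg]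
    refine ⟨seg (fun _ => P.wd e) 0 n ++ t n ++ P.inv (seg (fun _ => P.wd f) 0 n), ?_, ?_⟩
    · rw [val_append, ← mul_assoc, hend, val_inv, mul_assoc, mul_inv_cancel, mul_one]
    · rw [off_append, off_append, hend, ← vertex_eq_seg]
      refine ⟨⟨?_, hrung⟩, Off.inv ?_⟩
      · exact off_seg (v := u) (a := 0) (fun m _ => ke m) n
      · exact off_seg (v := v) (a := 0) (fun m _ => kf m) n
  · -- every proper ray is properly homotopic to a periodic one
    obtain ⟨K, K0, Kmono, hK⟩ := P.exists_exhaustion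
    have hlev : ∀ k, ∃ D : Set G, D.Finite ∧ (K k = ∅ → D = ∅) ∧ ∀ x : Fin P.n × Bool,
        ∀ v : G, ∀ e ∈ ({c, c⁻¹} : Set G), ∀ f ∈ ({c, c⁻¹} : Set G),
        (∀ k : ℕ, v * e ^ k ∉ D) → (∀ k : ℕ, v * P.val [x] * f ^ k ∉ D) →
        P.Ladder (K k) v [x] (fun _ => P.wd e) (fun _ => P.wd f) := by
      intro k
      choose D hD hz hl using fun x : Fin P.n × Bool => htr [x] (K k) (K k).finite_toSet
      refine ⟨⋃ x, D x, Set.finite_iUnion hD, fun h0 => ?_, fun x v e he f hf h1 h2 => ?_⟩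
      · refine Set.eq_empty_of_forall_notMem fun y hy => ?_
        obtain ⟨x, hx⟩ := Set.mem_iUnion.mp hy
        rw [hz x (by rw [h0]; exact Finset.coe_empty)] at hx
        exact hx
      · exact hl x v e he f hf (fun k hk => h1 k (Set.mem_iUnion_of_mem x hk))
          (fun k hk => h2 k (Set.mem_iUnion_of_mem x hk))
    choose D0 hD0 hz0 hl0 using hlev
    -- make the sets increasing
    let D : ℕ → Set G := fun k => ⋃ j ∈ Finset.range (k + 1), D0 j
    have hDfin : ∀ k, (D k).Finite := fun k => (Finset.finite_toSet _).biUnion fun j _ => hD0 j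
    have hDsub : ∀ k, D0 k ⊆ D k := fun k x hx => by
      simp only [D, Set.mem_iUnion]
      exact ⟨k, Finset.mem_range.mpr (Nat.lt_succ_self k), hx⟩
    have hDmono : Monotone D := by
      intro a b hab x hx
      simp only [D, Set.mem_iUnion, Finset.mem_range] at hx ⊢
      obtain ⟨j, hj, hx⟩ := hx
      exact ⟨j, by omega, hx⟩
    have hD00 : D 0 = ∅ := by
      refine Set.eq_empty_of_forall_notMem fun x hx => ?_
      simp only [D, Set.mem_iUnion, Finset.mem_range] at hx
      obtain ⟨j, hj, hx⟩ := hx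
      have : j = 0 := by omega
      subst this
      rw [hz0 0 K0] at hx
      exact hx
    choose D' hD' hz' hs' using fun k => exists_sign hc (hDfin k)
    have main : ∀ (v : G) (x : ℕ → Fin P.n × Bool), P.ProperRay v x →
        ∃ e ∈ ({c, c⁻¹} : Set G), P.Ladder ∅ v [] (fun _ => P.wd e) (fun n => [x n]) := by
      intro v x hx
      -- after the time `M k` the ray is outside `D' k`
      have hM : ∀ k, ∃ M, ∀ n, M ≤ n → P.pt v x n ∉ D' k := fun k =>
        eventually_atTop.mp (hx (D' k) (hD' k))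
      choose M hM using hM
      -- the level at time `i`
      let lev : ℕ → ℕ := fun i => Nat.findGreatest (fun k => ∀ j ≤ k, M j ≤ i) i
      have hD'0 : D' 0 = ∅ := hz' 0 hD00
      have levout : ∀ i, P.pt v x i ∉ D' (lev i) := by
        intro i
        by_cases h0 : lev i = 0
        · rw [h0, hD'0]
          exact Set.notMem_empty _
        · have := Nat.findGreatest_of_ne_zero (P := fun k => ∀ j ≤ k, M j ≤ i) rfl h0
          exact hM _ _ (this _ le_rfl)
      have levmono : Monotone lev := by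
        refine monotone_nat_of_le_succ fun i => ?_
        by_cases h0 : lev i = 0
        · rw [h0]
          exact Nat.zero_le _
        · have h1 := Nat.findGreatest_of_ne_zero (P := fun k => ∀ j ≤ k, M j ≤ i) rfl h0
          have h2 : lev i ≤ i := Nat.findGreatest_le i
          refine Nat.le_findGreatest (by omega) fun j hj => ?_
          have := h1 j hj
          omega
      have levtop : ∀ k, ∃ i, k ≤ lev i := by
        intro k
        refine ⟨k + ∑ j ∈ Finset.range (k + 1), M j, Nat.le_findGreatest (by omega) ?_⟩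
        intro j hj
        have : M j ≤ ∑ j ∈ Finset.range (k + 1), M j :=
          Finset.single_le_sum (f := M) (fun _ _ => Nat.zero_le _)
            (Finset.mem_range.mpr (by omega))
        omega
      have lev0 : lev 0 = 0 := Nat.findGreatest_zero
      -- directions
      have hdir : ∀ i, ∃ e ∈ ({c, c⁻¹} : Set G), ∀ k : ℕ, P.pt v x i * e ^ k ∉ D (lev i) := by
        intro i
        rcases hs' (lev i) _ (levout i) with h | h
        · exact ⟨c, Or.inl rfl, h⟩
        · exact ⟨c⁻¹, Or.inr rfl, h⟩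
      choose e he hek using hdir
      refine ⟨e 0, he 0, ?_⟩
      have hstack := stack (P := P) (fun i => (K (lev i) : Set G)) ?_ ?_ v (fun n => [x n])
        (fun i _ => P.wd (e i)) ?_
      · rw [lev0, K0] at hstack
        simpa using hstack
      · intro E hE
        obtain ⟨k, hk⟩ := eventually_atTop.mp (hK E hE)
        obtain ⟨i, hi⟩ := levtop k
        exact eventually_atTop.mpr ⟨i, fun j hj => hk _ (hi.trans (levmono hj))⟩
      · intro i
        rw [lev0, K0]
        simp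
      · intro i
        refine Ladder.to_cons ?_
        refine hl0 (lev i) (x i) (P.pt v x i) (e i) (he i) (e (i + 1)) (he (i + 1))
          (fun k hk => hek i k (hDsub _ hk)) (fun k hk => ?_)
        exact hek (i + 1) k (hDmono (levmono (Nat.le_succ i)) (hDsub _ hk))
    intro v x v' x' hx hx'
    obtain ⟨e, he, l1⟩ := main v x hx
    obtain ⟨f, hf, l2⟩ := main v' x' hx'
    obtain ⟨w, hw⟩ := P.exists_word (v⁻¹ * v')
    have hv' : v * P.val w = v' := by rw [hw, mul_inv_cancel_left]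
    obtain ⟨E, -, hE0, hl⟩ := htr w ∅ Set.finite_empty
    rw [hE0 rfl] at hl
    have l3 := hl v e he f hf (fun k => Set.notMem_empty _) (fun k => Set.notMem_empty _)
    rw [← hv'] at l2
    have l4 := (l1.symm'.trans' l3).trans'' l2
    obtain ⟨t, ht0, ht1, ht2⟩ := l4
    refine ⟨t, fun n => ?_, ht2⟩
    have := vertex_rung (v := v) (u' := fun n => [x' n]) (fun n => (ht1 n).val_eq) n
    rw [ht0, hv'] at this
    exact this

end Pres

end SemiInf
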