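import Pool.Agent.SemiInf.Ladder

namespace SemiInf

open Filter

namespace Pres

variable {G : Type*} [Group G] {P : Pres G}

/-! ### Tails -/

theorem vertex_tail (v : G) (u : ℕ → P.Word) (a k : ℕ) :
    P.vertex (P.vertex v u a) (fun j => u (a + j)) k = P.vertex v u (a + k) := by
  induction k with
  | zero => rfl
  | succ k ih => rw [vertex_succ, ih, ← add_assoc, vertex_succ]

theorem seg_tail (u : ℕ → P.Word) (b a k : ℕ) :
    seg (fun j => u (b + j)) a k = seg u (b + a) k := by
  induction k with
  | zero => rfl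
  | succ k ih => rw [seg_succ, ih, seg_succ, add_assoc]

theorem Htpy.cancel_left {C : Set G} {g : G} {a b c : P.Word}
    (h : P.Htpy C g (a ++ b) (a ++ c)) : P.Htpy C (g * P.val a) b c := by
  obtain ⟨o1, o2⟩ := h.off
  rw [off_append] at o1 o2
  have hg : g = g * P.val a * P.val (P.inv a) := by
    rw [val_inv, mul_assoc, mul_inv_cancel, mul_one]
  have s1 := h.left (P.inv a) hg o1.1.inv
  have s2 : P.Htpy C (g * P.val a) (P.inv a ++ a ++ b) ([] ++ b) := by
    refine (htpy_inv_left o1.1.inv).right _ ?_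
    rw [val_append, val_inv, inv_mul_cancel, mul_one]
    exact o1.2
  have s3 : P.Htpy C (g * P.val a) (P.inv a ++ a ++ c) ([] ++ c) := by
    refine (htpy_inv_left o1.1.inv).right _ ?_
    rw [val_append, val_inv, inv_mul_cancel, mul_one]
    exact o2.2
  simp only [List.nil_append, List.append_assoc] at s1 s2 s3
  exact (s2.symm _ _).trans _ _ _ (s1.trans _ _ _ s3)

/-- The tails of two rays which agree at the start. -/
theorem Ladder.tail {C : Set G} {v : G} {u u' : ℕ → P.Word} (h : P.Ladder C v [] u u')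
    (k : ℕ) (hk : ∀ j < k, u j = u' j) :
    P.Ladder C (P.vertex v u k) [] (fun j => u (k + j)) (fun j => u' (k + j)) := by
  induction k with
  | zero => simpa [vertex_zero] using h
  | succ k ih =>
    obtain ⟨t, h0, h1⟩ := ih fun j hj => hk j (by omega)
    have a : P.Htpy C (P.vertex v u k) (u (k + 0) ++ t 1) (t 0 ++ u' (k + 0)) := h1.1 0
    have hu : u' (k + 0) = u (k + 0) := (hk _ (by omega)).symm
    rw [h0, List.nil_append, hu] at a
    have a' : P.Htpy C (P.vertex v u k) (u (k + 0) ++ t 1) (u (k + 0) ++ []) := by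
      rw [List.append_nil]
      exact a
    have a2 := a'.cancel_left
    have h2 : P.Ladder C (P.vertex v u (k + 1)) (t 1) (fun j => u (k + 1 + j))
        (fun j => u' (k + 1 + j)) := by
      refine ⟨fun n => t (n + 1), rfl, h1.succ.imp fun E n b => ?_⟩
      have e : k + 1 + n = k + (n + 1) := by omega
      rw [vertex_tail] at b ⊢
      simp only [e]
      exact b
    exact h2.change a2

theorem ladder_seg {C : Set G} {v : G} {u u' t : ℕ → P.Word}
    (h : ∀ n, P.Htpy C (P.vertex v u n) (u n ++ t (n + 1)) (t n ++ u' n)) (n : ℕ) :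
    P.Htpy C v (seg u 0 n ++ t n) (t 0 ++ seg u' 0 n) := by
  induction n with
  | zero =>
    rw [seg_zero, seg_zero, List.nil_append, List.append_nil]
    exact Htpy.refl _ (off_append.mp (h 0).off.2).1
  | succ n ih =>
    have hv : P.vertex v u n = v * P.val (seg u 0 n) := vertex_eq_seg v u n
    have a := (h n).left (seg u 0 n) hv (off_append.mp ih.off.1).1
    have b := ih.right (u' n) (by
      have := (off_append.mp (h n).off.2).2
      rw [val_append, ← mul_assoc, ← hv]
      exact this)
    rw [seg_succ, seg_succ, zero_add]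
    simp only [List.append_assoc] at a b ⊢
    exact Htpy.trans _ _ _ a b

/-! ### From the definition to generalized rays -/

theorem GRay.properRay {v : G} {x : ℕ → Fin P.n × Bool} {C : Set G}
    (h : P.GRay C v (fun n => [x n])) : P.ProperRay v x := by
  intro E hE
  exact (h.2 E hE).mono fun n hn => hn.start

/-- A proper homotopy near infinity between generalized rays. -/
def ELadder (P : Pres G) (v : G) (u : ℕ → P.Word) (v' : G) (u' : ℕ → P.Word) : Prop :=
  ∃ t : ℕ → P.Word, (∀ n, P.vertex v u n * P.val (t n) = P.vertex v' u' n) ∧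
    ∀ E : Set G, E.Finite → ∀ᶠ n in atTop,
      P.Htpy E (P.vertex v u n) (u n ++ t (n + 1)) (t n ++ u' n)

theorem Ladder.eladder {C : Set G} {v : G} {t₀ : P.Word} {u u' : ℕ → P.Word}
    (h : P.Ladder C v t₀ u u') : P.ELadder v u (v * P.val t₀) u' := by
  obtain ⟨t, rfl, h1⟩ := h
  exact ⟨t, fun n => vertex_rung (fun n => (h1.1 n).val_eq) n, h1.2⟩

theorem ELadder.trans {v v' v'' : G} {u u' u'' : ℕ → P.Word} (h : P.ELadder v u v' u')
    (h' : P.ELadder v' u' v'' u'') : P.ELadder v u v'' u'' := by
  obtain ⟨t, h1, h2⟩ := h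
  obtain ⟨s, h3, h4⟩ := h'
  refine ⟨fun n => t n ++ s n, fun n => ?_, fun E hE => ?_⟩
  · rw [val_append, ← mul_assoc, h1, h3]
  · filter_upwards [h2 E hE, h4 E hE] with n a b
    have hv := h1 n
    have e1 := a.right (s (n + 1)) (by
      rw [a.val_eq, val_append, ← mul_assoc, hv]
      exact (off_append.mp b.off.1).2)
    have e2 := b.left (t n) hv.symm (off_append.mp a.off.2).1
    simp only [List.append_assoc] at e1 e2 ⊢
    exact Htpy.trans _ _ _ e1 e2

theorem ELadder.symm {v v' : G} {u u' : ℕ → P.Word} (h : P.ELadder v u v' u') :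
    P.ELadder v' u' v u := by
  obtain ⟨t, h1, h2⟩ := h
  refine ⟨fun n => P.inv (t n), fun n => ?_, fun E hE => ?_⟩
  · rw [← h1 n, val_inv, mul_assoc, mul_inv_cancel, mul_one]
  · filter_upwards [h2 E hE] with n a
    rw [← h1 n]
    exact a.turn

theorem Semistable.eladder (hs : P.Semistable) {v v' : G} {u u' : ℕ → P.Word}
    (hu : ∀ n, u n ≠ []) (hu' : ∀ n, u' n ≠ []) (h : P.GRay ∅ v u)
    (h' : P.GRay ∅ v' u') : P.ELadder v u v' u' := by
  obtain ⟨x, hx⟩ := exists_letters hu
  obtain ⟨x', hx'⟩ := exists_letters hu'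
  obtain ⟨g1, l1⟩ := hx ∅ v h
  obtain ⟨g2, l2⟩ := hx' ∅ v' h'
  have l3 : P.ELadder v (fun n => [x n]) v' (fun n => [x' n]) :=
    hs v x v' x' g1.properRay g2.properRay
  have e1 := l1.eladder
  have e2 := l2.eladder
  rw [val_nil, mul_one] at e1 e2
  exact (e1.symm.trans l3).trans e2

/-! ### Weak uniformity -/

/-- Any two proper rays outside `D` with the same origin can be joined arbitrarily far away in
a way that is homotopic to the trivial one outside `C`. -/
def Weak (P : Pres G) (C D : Set G) : Prop :=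
  ∀ (v : G) (u u' : ℕ → P.Word), (∀ n, u n ≠ []) → (∀ n, u' n ≠ []) → P.GRay D v u →
    P.GRay D v u' → ∀ E : Set G, E.Finite → ∃ (n m : ℕ) (q : P.Word),
      P.Off E (P.vertex v u n) q ∧ P.Htpy C v (seg u 0 n ++ q) (seg u' 0 m)

theorem exists_exhaustion (P : Pres G) :
    ∃ K : ℕ → Finset G, K 0 = ∅ ∧ Monotone K ∧
      ∀ E : Set G, E.Finite → ∀ᶠ k in atTop, E ⊆ (K k : Set G) := by
  classical
  have hc : Countable G := by
    have hs : Function.Surjective P.val := fun g => P.exists_word g
    exact hs.countable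
  obtain ⟨f, hf⟩ := exists_surjective_nat G
  refine ⟨fun k => (Finset.range k).image f, rfl, fun a b hab =>
    Finset.image_subset_image (Finset.range_mono hab), fun E hE => ?_⟩
  have h1 : ∀ g ∈ hE.toFinset, ∀ᶠ k in atTop, g ∈ ((Finset.range k).image f : Finset G) := by
    intro g _
    obtain ⟨n, rfl⟩ := hf g
    filter_upwards [eventually_gt_atTop n] with k hk
    exact Finset.mem_image_of_mem f (Finset.mem_range.mpr hk)
  have h2 := (Filter.eventually_all_finset hE.toFinset).mpr h1
  filter_upwards [h2] with k hk g hg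
  exact hk g (hE.mem_toFinset.mpr hg)

theorem exists_same {β : Type*} [Countable β] (f : (ℕ → Bool) → β) :
    ∃ a b, a ≠ b ∧ f a = f b := by
  classical
  by_contra hcon
  push Not at hcon
  have hinj : Function.Injective f := fun a b hab => by
    by_contra hne
    exact hcon a b hne hab
  obtain ⟨g, hg⟩ := exists_injective_nat β
  have : Function.Injective (fun s : Set ℕ => g (f (fun n => decide (n ∈ s)))) := by
    intro s s' hss
    have h1 := hinj (hg hss)
    ext n
    have := congrFun h1 n
    simpa using this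
  exact Function.cantor_injective _ this

/-- A one-ended semistable group is weakly uniformly semistable. -/
theorem exists_weak (ho : P.OneEnded) (hs : P.Semistable) (C : Set G) (hC : C.Finite) :
    ∃ D : Set G, D.Finite ∧ P.Weak C D := by
  classical
  by_contra hcon
  push Not at hcon
  -- bad pairs of rays outside every finite set
  have hbad : ∀ D : Finset G, ∃ (v : G) (u u' : ℕ → P.Word) (E : Finset G),
      (∀ n, u n ≠ []) ∧ (∀ n, u' n ≠ []) ∧ P.GRay D v u ∧ P.GRay D v u' ∧
      ∀ (n m : ℕ) (q : P.Word), P.Off E (P.vertex v u n) q →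
        ¬ P.Htpy C v (seg u 0 n ++ q) (seg u' 0 m) := by
    intro D
    have := hcon D D.finite_toSet
    rw [Weak] at this
    push Not at this
    obtain ⟨v, u, u', h1, h2, h3, h4, E, hE, h5⟩ := this
    refine ⟨v, u, u', hE.toFinset, h1, h2, h3, h4, fun n m q hq => h5 n m q ?_⟩
    simpa using hq
  choose bv bu bu' bE hb1 hb2 hb3 hb4 hb5 using hbad
  -- connecting paths
  have hO : ∀ B : Finset G, ∃ O : Finset G, ∀ u v : G, u ∉ O → v ∉ O →
      ∃ w : P.Word, u * P.val w = v ∧ P.Off B u w := by
    intro B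
    obtain ⟨D, hD, h⟩ := ho.2 B B.finite_toSet
    exact ⟨hD.toFinset, fun u v hu hv => h u v (by simpa using hu) (by simpa using hv)⟩
  choose O hO using hO
  obtain ⟨K, K0, Kmono, hK⟩ := P.exists_exhaustion
  let step : ℕ → Finset G → Finset G := fun k D =>
    (D ∪ bE D ∪ K k) ∪ O (D ∪ bE D ∪ K k)
  obtain ⟨D, hD⟩ : ∃ D : ℕ → Finset G, ∀ k, D (k + 1) = step k (D k) :=
    ⟨fun k => Nat.rec ∅ (fun k D => step k D) k, fun k => rfl⟩
  obtain ⟨B, hB⟩ : ∃ B : ℕ → Finset G, ∀ k, B k = D k ∪ bE (D k) ∪ K k := ⟨_, fun k => rfl⟩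
  have D1 : ∀ k, D (k + 1) = B k ∪ O (B k) := fun k => by rw [hD, hB]
  have DB : ∀ k, D k ⊆ B k := fun k => by
    rw [hB]
    exact (Finset.subset_union_left).trans Finset.subset_union_left
  have EB : ∀ k, bE (D k) ⊆ B k := fun k => by
    rw [hB]
    exact (Finset.subset_union_right).trans Finset.subset_union_left
  have KB : ∀ k, K k ⊆ B k := fun k => by
    rw [hB]
    exact Finset.subset_union_right
  have BD : ∀ k, B k ⊆ D (k + 1) := fun k => by rw [D1]; exact Finset.subset_union_left
  have Dmono : Monotone D := monotone_nat_of_le_succ fun k => (DB k).trans (BD k)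
  -- the rays at stage `k`
  have hfar : ∀ k, ∃ (w w' : P.Word), w ≠ [] ∧ w' ≠ [] ∧
      bv (D k) * P.val w = bv (D (k + 1)) ∧ bv (D k) * P.val w' = bv (D (k + 1)) ∧
      P.Off (D k : Set G) (bv (D k)) w ∧ P.Off (D k : Set G) (bv (D k)) w' ∧
      ∃ a b p p', w = seg (bu (D k)) 0 a ++ p ∧ w' = seg (bu' (D k)) 0 b ++ p' ∧
        P.Off (B k : Set G) (P.vertex (bv (D k)) (bu (D k)) a) p ∧
        P.Off (B k : Set G) (P.vertex (bv (D k)) (bu' (D k)) b) p' := by
    intro k
    have hv1 : bv (D (k + 1)) ∉ O (B k) := by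
      intro hmem
      have h1 : bv (D (k + 1)) ∉ ((D (k + 1) : Finset G) : Set G) :=
        ((hb3 (D (k + 1))).1 0).start
      have h2 : O (B k) ⊆ D (k + 1) := by
        rw [D1]
        exact Finset.subset_union_right
      exact h1 (Finset.mem_coe.mpr (h2 hmem))
    have far : ∀ (u : ℕ → P.Word), P.GRay (D k : Set G) (bv (D k)) u → (∀ n, u n ≠ []) →
        ∃ a p, seg u 0 a ++ p ≠ [] ∧ bv (D k) * P.val (seg u 0 a ++ p) = bv (D (k + 1)) ∧
        P.Off (D k : Set G) (bv (D k)) (seg u 0 a ++ p) ∧
        P.Off (B k : Set G) (P.vertex (bv (D k)) u a) p := by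
      intro u hu hne
      obtain ⟨a, ha, hapos⟩ := ((hu.2 (O (B k) : Set G) (O (B k)).finite_toSet).and
        (eventually_gt_atTop 0)).exists
      obtain ⟨p, hp1, hp2⟩ := hO (B k) (P.vertex (bv (D k)) u a) (bv (D (k + 1)))
        (by simpa using ha.start) hv1
      refine ⟨a, p, ?_, ?_, ?_, hp2⟩
      · intro hnil
        have h1 := length_seg u hne a
        have h2 := (List.append_eq_nil_iff.mp hnil).1
        rw [h2] at h1
        simp at h1
        omega
      · rw [val_append, ← mul_assoc, ← vertex_eq_seg, hp1]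
      · rw [off_append, ← vertex_eq_seg]
        exact ⟨off_seg (fun m _ => hu.1 m) a, hp2.mono (by exact_mod_cast DB k)⟩
    obtain ⟨a, p, h1, h2, h3, h4⟩ := far _ (hb3 (D k)) (hb1 (D k))
    obtain ⟨b, p', h1', h2', h3', h4'⟩ := far _ (hb4 (D k)) (hb2 (D k))
    exact ⟨_, _, h1, h1', h2, h2', h3, h3', a, b, p, p', rfl, rfl, h4, h4'⟩
  choose w w' hw hw' hv hv' hoff hoff' a b p p' hwe hwe' hp hp' using hfar
  -- the rays `T ε`
  let T : (ℕ → Bool) → ℕ → P.Word := fun ε n => if ε n then w' n else w n
  have Tne : ∀ ε n, T ε n ≠ [] := by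
    intro ε n
    by_cases h : ε n
    · simpa [T, h] using hw' n
    · simpa [T, h] using hw n
  have Tval : ∀ ε n, bv (D n) * P.val (T ε n) = bv (D (n + 1)) := by
    intro ε n
    by_cases h : ε n
    · simpa [T, h] using hv' n
    · simpa [T, h] using hv n
  have Toff : ∀ ε n, P.Off (D n : Set G) (bv (D n)) (T ε n) := by
    intro ε n
    by_cases h : ε n
    · simpa [T, h] using hoff' n
    · simpa [T, h] using hoff n
  have Tvert : ∀ ε n, P.vertex (bv (D 0)) (T ε) n = bv (D n) := by
    intro ε n
    induction n with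
    | zero => rfl
    | succ n ih => rw [vertex_succ, ih, Tval]
  have Tray : ∀ ε, P.GRay ∅ (bv (D 0)) (T ε) := by
    intro ε
    refine ⟨fun n => ?_, fun E hE => ?_⟩
    · beta_reduce
      rw [Tvert]
      exact (Toff ε n).mono (Set.empty_subset _)
    · obtain ⟨k, hk⟩ := eventually_atTop.mp (hK E hE)
      refine eventually_atTop.mpr ⟨k + 1, fun n hn => ?_⟩
      beta_reduce
      rw [Tvert]
      refine (Toff ε n).mono ?_
      refine (hk k le_rfl).trans ?_
      exact_mod_cast ((KB k).trans (BD k)).trans (Dmono hn)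
  have hlad : ∀ ε, P.ELadder (bv (D 0)) (T ε) (bv (D 0)) (T fun _ => false) := fun ε =>
    hs.eladder (Tne ε) (Tne _) (Tray ε) (Tray _)
  choose t htv ht using hlad
  have hN : ∀ ε, ∃ N, ∀ n, N ≤ n → P.Htpy C (P.vertex (bv (D 0)) (T ε) n)
      (T ε n ++ t ε (n + 1)) (t ε n ++ T (fun _ => false) n) := fun ε =>
    eventually_atTop.mp (ht ε C hC)
  choose N hN using hN
  obtain ⟨ε, ε', hne, hsame⟩ := exists_same
    (fun ε : ℕ → Bool => (N ε, t ε (N ε), List.ofFn fun i : Fin (N ε) => ε i))
  simp only [Prod.mk.injEq] at hsame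
  obtain ⟨s1, s2, s3⟩ := hsame
  have s4 : ∀ i < N ε, ε i = ε' i := by
    intro i hi
    have e1 : (List.ofFn fun i : Fin (N ε) => ε i)[i]? = some (ε i) := by
      rw [List.getElem?_eq_getElem (by simpa using hi)]
      simp
    have e2 : (List.ofFn fun i : Fin (N ε') => ε' i)[i]? = some (ε' i) := by
      rw [List.getElem?_eq_getElem (by simpa [← s1] using hi)]
      simp
    rw [s3, e2] at e1
    exact (Option.some.inj e1).symm
  -- the tails
  have htail : P.Ladder C (bv (D (N ε))) [] (fun j => T ε (N ε + j))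
      (fun j => T ε' (N ε + j)) := by
    have l : ∀ η M, N η = M → P.Ladder C (bv (D M)) (t η M) (fun j => T η (M + j))
        (fun j => T (fun _ => false) (M + j)) := by
      intro η M hM
      refine ⟨fun j => t η (M + j), rfl, fun j => ?_, fun E hE => ?_⟩
      · have := hN η (M + j) (by omega)
        beta_reduce
        rw [← Tvert η M, vertex_tail]
        exact this
      · obtain ⟨J, hJ⟩ := eventually_atTop.mp (ht η E hE)
        refine eventually_atTop.mpr ⟨J, fun j hj => ?_⟩
        beta_reduce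
        rw [← Tvert η M, vertex_tail]
        exact hJ (M + j) (by omega)
    have l1 := l ε (N ε) rfl
    have l2 := l ε' (N ε) s1.symm
    have e : t ε (N ε) = t ε' (N ε) := by
      rw [s2, s1]
    rw [← e] at l2
    have l3 := l1.trans l2.symm
    refine l3.change (htpy_inv_right ?_)
    obtain ⟨r, hr0, hr⟩ := l1
    have := (off_append.mp (hr.1 0).off.2).1
    rwa [hr0] at this
  -- the first difference
  have hex : ∃ k, ε k ≠ ε' k := by
    by_contra h
    push Not at h
    exact hne (funext h)
  set k := Nat.find hex with hk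
  have hk1 : ε k ≠ ε' k := Nat.find_spec hex
  have hk2 : ∀ i < k, ε i = ε' i := fun i hi => by
    by_contra h
    exact Nat.find_min hex hi h
  have hNk : N ε ≤ k := by
    by_contra h
    exact hk1 (s4 k (by omega))
  have htail2 : P.Ladder C (bv (D k)) [] (fun j => T ε (k + j)) (fun j => T ε' (k + j)) := by
    have := htail.tail (k - N ε) (fun j hj => by
      have h := hk2 (N ε + j) (by omega)
      simp only [T, h])
    have e : N ε + (k - N ε) = k := by omega
    rw [← Tvert ε (N ε), vertex_tail, e, Tvert] at this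
    simpa only [← add_assoc, e] using this
  -- the contradiction, up to the order of the two rays
  have core : ∀ η η' : ℕ → Bool, η k = false → η' k = true →
      P.Ladder C (bv (D k)) [] (fun j => T η (k + j)) (fun j => T η' (k + j)) → False := by
    intro η η' h0 h1 hl
    obtain ⟨s, hs0, hs⟩ := hl
    have hE := hs.2 (bE (D k) : Set G) (bE (D k)).finite_toSet
    obtain ⟨m, hm, hmpos⟩ := (hE.and (eventually_gt_atTop 0)).exists
    obtain ⟨m, rfl⟩ : ∃ l, m = l + 1 := ⟨m - 1, by omega⟩
    have hseg := ladder_seg hs.1 (m + 1)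
    rw [hs0, List.nil_append, seg_succ', seg_succ', seg_tail, seg_tail] at hseg
    have e0 : T η (k + 0) = w k := by simp [T, h0]
    have e1 : T η' (k + 0) = w' k := by simp [T, h1]
    rw [e0, e1, hwe, hwe'] at hseg
    have offT : ∀ ζ, P.Off (bE (D k) : Set G) (bv (D (k + 1))) (seg (T ζ) (k + (0 + 1)) m) := by
      intro ζ
      rw [← Tvert ζ (k + 1)]
      refine off_seg (fun j hj => ?_) m
      rw [Tvert]
      refine (Toff ζ j).mono ?_
      exact_mod_cast ((EB k).trans (BD k)).trans (Dmono hj)
    have offp : P.Off (bE (D k) : Set G) (P.vertex (bv (D k)) (bu (D k)) (a k)) (p k) :=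
      (hp k).mono (by exact_mod_cast EB k)
    have offp' : P.Off (bE (D k) : Set G) (P.vertex (bv (D k)) (bu' (D k)) (b k)) (p' k) :=
      (hp' k).mono (by exact_mod_cast EB k)
    have vp : P.vertex (bv (D k)) (bu (D k)) (a k) * P.val (p k) = bv (D (k + 1)) := by
      rw [← hv k, hwe k, val_append, ← mul_assoc, ← vertex_eq_seg]
    have vp' : P.vertex (bv (D k)) (bu' (D k)) (b k) * P.val (p' k) = bv (D (k + 1)) := by
      rw [← hv' k, hwe' k, val_append, ← mul_assoc, ← vertex_eq_seg]
    -- the rung
    have offs : P.Off (bE (D k) : Set G) (bv (D (k + 1)) * P.val (seg (T η) (k + (0 + 1)) m))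
        (s (m + 1)) := by
      have h2 := (off_append.mp hm.off.2).1
      have e2 : P.vertex (bv (D k)) (fun j => T η (k + j)) (m + 1)
          = bv (D (k + 1)) * P.val (seg (T η) (k + (0 + 1)) m) := by
        rw [← Tvert η k, vertex_tail]
        have e3 : k + (m + 1) = k + 1 + m := by omega
        rw [e3, vertex_add, Tvert]
      rwa [e2] at h2
    have offq' : P.Off (bE (D k) : Set G) (P.vertex (bv (D k)) (bu' (D k)) (b k))
        (p' k ++ seg (T η') (k + (0 + 1)) m) := by
      rw [off_append, vp']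
      exact ⟨offp', offT η'⟩
    -- all the vertices
    have hend : P.vertex (bv (D k)) (bu (D k)) (a k) *
        P.val (p k ++ seg (T η) (k + (0 + 1)) m ++ s (m + 1))
        = P.vertex (bv (D k)) (bu' (D k)) (b k) * P.val (p' k ++ seg (T η') (k + (0 + 1)) m) := by
      have h2 := hseg.val_eq
      rw [vertex_eq_seg, vertex_eq_seg, mul_assoc, mul_assoc, ← val_append, ← val_append]
      congr 1
      simpa only [List.append_assoc] using h2
    refine hb5 (D k) (a k) (b k) (p k ++ seg (T η) (k + (0 + 1)) m ++ s (m + 1) ++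
      P.inv (p' k ++ seg (T η') (k + (0 + 1)) m)) ?_ ?_
    · rw [off_append, hend]
      refine ⟨?_, offq'.inv⟩
      rw [off_append, off_append, val_append, ← mul_assoc, vp]
      exact ⟨⟨offp, offT η⟩, offs⟩
    · have o1 := hseg.off.2
      have r1 := hseg.right (P.inv (p' k ++ seg (T η') (k + (0 + 1)) m)) (by
        rw [hseg.val_eq]
        rw [List.append_assoc] at o1 ⊢
        rw [off_append] at o1
        have := o1.2.inv
        rwa [mul_assoc, ← val_append] at this)
      have r2 : P.Htpy C (bv (D k)) (seg (bu' (D k)) 0 (b k) ++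
          ((p' k ++ seg (T η') (k + (0 + 1)) m) ++
            P.inv (p' k ++ seg (T η') (k + (0 + 1)) m))) (seg (bu' (D k)) 0 (b k) ++ []) := by
        rw [List.append_assoc, off_append] at o1
        exact (htpy_inv_right o1.2).left _ rfl o1.1
      rw [List.append_nil] at r2
      simp only [List.append_assoc] at r1 r2 ⊢
      exact Htpy.trans _ _ _ r1 r2
  rcases Bool.eq_false_or_eq_true (ε k) with h | h
  · have h' : ε' k = false := by
      rw [h] at hk1
      exact Bool.eq_false_iff.mpr fun h2 => hk1 h2.symm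
    exact core ε' ε h' h htail2.symm'
  · have h' : ε' k = true := by
      rw [h] at hk1
      cases h3 : ε' k
      · exact absurd h3.symm hk1
      · rfl
    exact core ε ε' h h' htail2

end Pres

end SemiInf
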