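import Pool.Agent.SemiInf.Hull
import Pool.Agent.SemiInf.Konig

namespace SemiInf

open Filter

namespace Pres

variable {G : Type*} [Group G] {P : Pres G}

theorem nb_mono {C T T' : Set G} (h : T ⊆ T') : nb C T ⊆ nb C T' := by
  rintro g ⟨t, ht, hg⟩
  exact ⟨t, h ht, hg⟩

theorem nb_mono_left {C C' T : Set G} (h : C ⊆ C') : nb C T ⊆ nb C' T := by
  rintro g ⟨t, ht, hg⟩
  exact ⟨t, ht, h hg⟩

theorem nb_union {C C' T : Set G} : nb (C ∪ C') T = nb C T ∪ nb C' T := by
  ext g
  constructor
  · rintro ⟨t, ht, hg | hg⟩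
    · exact Or.inl ⟨t, ht, hg⟩
    · exact Or.inr ⟨t, ht, hg⟩
  · rintro (⟨t, ht, hg⟩ | ⟨t, ht, hg⟩)
    · exact ⟨t, ht, Or.inl hg⟩
    · exact ⟨t, ht, Or.inr hg⟩

/-! ### Lists of group elements as paths -/

/-- The word of a list of elements of `G`. -/
noncomputable def wl (P : Pres G) (l : List G) : P.Word := l.flatMap P.wd

@[simp] theorem wl_nil : wl P [] = [] := rfl

theorem wl_cons (a : G) (l : List G) : wl P (a :: l) = P.wd a ++ wl P l := by
  simp [wl]

theorem wl_append (l l' : List G) : wl P (l ++ l') = wl P l ++ wl P l' := by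
  simp [wl]

theorem wl_singleton (a : G) : wl P [a] = P.wd a := by
  simp [wl]

theorem val_wl (l : List G) : P.val (wl P l) = l.prod := by
  induction l with
  | nil => simp
  | cons a l ih => rw [wl_cons, val_append, ih, val_wd, List.prod_cons]

/-! ### Cosets -/

/-- The left coset `L` of `A` does not meet `S`. -/
def CosetOff (A : Subgroup G) (S : Set G) (L : G ⧸ A) : Prop :=
  ∀ z : G, (z : G ⧸ A) = L → z ∉ S

theorem cosetOff_finite (A : Subgroup G) {S : Set G} (hS : S.Finite) :
    {L : G ⧸ A | ¬ CosetOff A S L}.Finite := by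
  refine (hS.image (fun z : G => (z : G ⧸ A))).subset ?_
  intro L hL
  simp only [CosetOff, Set.mem_ofPred_eq] at hL
  push Not at hL
  obtain ⟨z, hz, hzS⟩ := hL
  exact ⟨z, hzS, hz⟩

theorem CosetOff.mono {A : Subgroup G} {S S' : Set G} (h : S ⊆ S') {L : G ⧸ A}
    (hL : CosetOff A S' L) : CosetOff A S L := fun z hz hmem => hL z hz (h hmem)

theorem CosetOff.empty {A : Subgroup G} {L : G ⧸ A} : CosetOff A ∅ L :=
  fun z _ => Set.notMem_empty z

theorem eventually_cosetOff {A : Subgroup G} {f : ℕ → G ⧸ A} (hf : Function.Injective f)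
    {S : Set G} (hS : S.Finite) : ∀ᶠ n in atTop, CosetOff A S (f n) := by
  have h2 := hf.tendsto_cofinite.eventually (cosetOff_finite A hS).compl_mem_cofinite
  rw [Nat.cofinite_eq_atTop] at h2
  filter_upwards [h2] with i hi
  simpa using hi

end Pres

end SemiInf
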